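import Mathlib

/-! # Relations with few terms: definitions -/

namespace Pool.Agent.FN

open MvPolynomial

/-- the jet of a tuple: `(j, i)` goes to the `i`-th derivative of `y j` -/
def jet {K L : Type} [Field K] [CommRing L] [Algebra K L] (δ : Derivation K L L) {n : ℕ}
    (y : Fin n → L) : Fin n × ℕ → L :=
  fun v => δ^[v.2] (y v.1)

variable {K L : Type} [Field K] [Field L] [Algebra K L]

/-- the constants are `K` -/
def CK (δ : Derivation K L L) : Prop :=
  ∀ f : L, δ f = 0 → ∃ c : K, algebraMap K L c = f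

/-- the tuple `x` can be completed by `l` elements, all jets independent -/
def Gen (δ : Derivation K L L) {k : ℕ} (x : Fin k → L) : Prop :=
  ∀ l : ℕ, ∃ z : Fin l → L, AlgebraicIndependent K (jet δ (Fin.append x z))

/-- there are generic tuples -/
def Full (δ : Derivation K L L) : Prop :=
  ∀ n : ℕ, ∃ z : Fin n → L, AlgebraicIndependent K (jet δ z)

/-- sums of `s` products of powers of `s` polynomials of degree `≤ s` -/
def Short (s : ℕ) {n : ℕ} (P : MvPolynomial (Fin n) K) : Prop :=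
  ∃ (F : Fin s → Fin s → MvPolynomial (Fin n) K) (m : Fin s → Fin s → ℕ),
    (∀ i j, (F i j).totalDegree ≤ s) ∧ P = ∑ i, ∏ j, F i j ^ m i j

/-- a nonzero relation of degree and order `≤ D` among the jets -/
def DRel (δ : Derivation K L L) (D : ℕ) {n : ℕ} (y : Fin n → L) : Prop :=
  ∃ G : MvPolynomial (Fin n × ℕ) K, G ≠ 0 ∧ G.totalDegree ≤ D ∧ (∀ v ∈ G.vars, v.2 ≤ D) ∧
    aeval (jet δ y) G = 0

theorem Gen.full {δ : Derivation K L L} {k : ℕ} {x : Fin k → L} (h : Gen δ x) : Full δ := by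
  intro n
  obtain ⟨z, hz⟩ := h n
  refine ⟨z, ?_⟩
  have h1 := hz.comp (fun v : Fin n × ℕ => (Fin.natAdd k v.1, v.2)) (by
    intro v w hvw
    simp only [Prod.mk.injEq] at hvw
    exact Prod.ext (Fin.natAdd_injective _ _ hvw.1) hvw.2)
  refine (funext fun v => ?_ : jet δ (Fin.append x z) ∘ (fun v : Fin n × ℕ =>
    (Fin.natAdd k v.1, v.2)) = jet δ z) ▸ h1
  simp [jet]

/-! ## Jet polynomials -/

/-- the shift derivation on jet polynomials -/
noncomputable def sh (K : Type) [Field K] (N : ℕ) :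
    Derivation K (MvPolynomial (Fin N × ℕ) K) (MvPolynomial (Fin N × ℕ) K) :=
  mkDerivation K fun v => X (v.1, v.2 + 1)

/-- degree and order `≤ D` -/
def Bdd (D : ℕ) {N : ℕ} (φ : MvPolynomial (Fin N × ℕ) K) : Prop :=
  φ.totalDegree ≤ D ∧ ∀ v ∈ φ.vars, v.2 ≤ D

/-- a relation of degree and order `≤ D` between the jets of `u`, not an identity, holds at `y` -/
def RelAt (δ : Derivation K L L) (D : ℕ) {n N : ℕ} (u : Fin N → MvPolynomial (Fin n × ℕ) K)
    (y : Fin n → L) : Prop :=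
  ∃ Φ : MvPolynomial (Fin N × ℕ) K, Bdd D Φ ∧ aeval (jet (sh K n) u) Φ ≠ 0 ∧
    aeval (jet δ y) (aeval (jet (sh K n) u) Φ) = 0

end Pool.Agent.FN
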