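import Mathlib
import Pool.Agent.FN.Defs

set_option autoImplicit false

/-!
# Relations with few terms: calculus of degree and order
-/

namespace Pool.Agent.FN

open MvPolynomial

variable {K : Type} [Field K] {N : ℕ}

namespace BddA

/-- the polynomials of order at most `o` -/
noncomputable def Or (K : Type) [Field K] (N o : ℕ) : Subalgebra K (MvPolynomial (Fin N × ℕ) K) :=
  supported K {v : Fin N × ℕ | v.2 ≤ o}

theorem mem_Or {o : ℕ} {φ : MvPolynomial (Fin N × ℕ) K} :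
    φ ∈ Or K N o ↔ ∀ v ∈ φ.vars, v.2 ≤ o := by
  unfold Or
  rw [mem_supported]
  rfl

theorem Or_mono {o o' : ℕ} (h : o ≤ o') : Or K N o ≤ Or K N o' :=
  supported_mono fun _ hv => le_trans hv h

theorem bdd_iff {D : ℕ} {φ : MvPolynomial (Fin N × ℕ) K} :
    Bdd D φ ↔ φ.totalDegree ≤ D ∧ φ ∈ Or K N D := by
  rw [mem_Or]
  rfl

theorem deg_sh (P : MvPolynomial (Fin N × ℕ) K) :
    (sh K N P).totalDegree ≤ P.totalDegree := by
  classical
  conv_lhs => rw [P.as_sum, map_sum]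
  refine totalDegree_finsetSum_le fun s hs => ?_
  unfold sh
  rw [mkDerivation_monomial]
  refine (totalDegree_smul_le _ _).trans ?_
  rw [Finsupp.sum]
  refine totalDegree_finsetSum_le fun i hi => ?_
  rw [smul_eq_mul]
  refine (totalDegree_mul _ _).trans ?_
  refine (add_le_add (totalDegree_monomial_le _ _) (totalDegree_X _).le).trans ?_
  have h1 : s - Finsupp.single i 1 + Finsupp.single i 1 = s :=
    tsub_add_cancel_of_le (by
      rw [Finsupp.single_le_iff]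
      exact Nat.one_le_iff_ne_zero.2 (Finsupp.mem_support_iff.1 hi))
  have h2 : (s.sum fun _ e => e) = ((s - Finsupp.single i 1).sum fun _ e => e) + 1 := by
    conv_lhs => rw [← h1]
    rw [Finsupp.sum_add_index' (fun _ => rfl) (fun _ _ _ => rfl), Finsupp.sum_single_index rfl]
  exact h2.symm.le.trans (le_totalDegree hs)

theorem sh_mem {o : ℕ} {P : MvPolynomial (Fin N × ℕ) K} (h : P ∈ Or K N o) :
    sh K N P ∈ Or K N (o + 1) := by
  have hle : Or K N o ≤ Or K N (o + 1) := Or_mono (Nat.le_succ o)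
  induction h using Algebra.adjoin_induction with
  | mem x hx =>
    obtain ⟨v, hv, rfl⟩ := hx
    have h1 : sh K N (X v) = X (v.1, v.2 + 1) := mkDerivation_X _ _ _
    rw [h1]
    exact Algebra.subset_adjoin ⟨_, Nat.succ_le_succ hv, rfl⟩
  | algebraMap a =>
    rw [Derivation.map_algebraMap]
    exact zero_mem _
  | add P Q _ _ hP hQ =>
    rw [map_add]
    exact add_mem hP hQ
  | mul P Q hP' hQ' hP hQ =>
    rw [Derivation.leibniz]
    exact add_mem (mul_mem (hle hP') hQ) (mul_mem (hle hQ') hP)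

end BddA

open BddA

variable {D E : ℕ} {φ ψ : MvPolynomial (Fin N × ℕ) K}

theorem Bdd.mono (h : D ≤ E) (hφ : Bdd D φ) : Bdd E φ :=
  ⟨hφ.1.trans h, fun v hv => (hφ.2 v hv).trans h⟩

theorem Bdd.add (hφ : Bdd D φ) (hψ : Bdd D ψ) : Bdd D (φ + ψ) := by
  rw [bdd_iff] at hφ hψ ⊢
  exact ⟨(totalDegree_add _ _).trans (max_le hφ.1 hψ.1), add_mem hφ.2 hψ.2⟩

theorem Bdd.mul (hφ : Bdd D φ) (hψ : Bdd E ψ) : Bdd (D + E) (φ * ψ) := by
  rw [bdd_iff] at hφ hψ ⊢
  exact ⟨(totalDegree_mul _ _).trans (add_le_add hφ.1 hψ.1),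
    mul_mem (Or_mono (Nat.le_add_right _ _) hφ.2) (Or_mono (Nat.le_add_left _ _) hψ.2)⟩

theorem Bdd.C (c : K) : Bdd D (MvPolynomial.C c : MvPolynomial (Fin N × ℕ) K) := by
  rw [bdd_iff]
  refine ⟨?_, (Or K N D).algebraMap_mem c⟩
  rw [totalDegree_C]
  exact Nat.zero_le _

theorem Bdd.zero : Bdd D (0 : MvPolynomial (Fin N × ℕ) K) := by
  have h : Bdd D (MvPolynomial.C 0 : MvPolynomial (Fin N × ℕ) K) := Bdd.C 0
  rwa [C_0] at h

theorem Bdd.one : Bdd D (1 : MvPolynomial (Fin N × ℕ) K) := by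
  have h : Bdd D (MvPolynomial.C 1 : MvPolynomial (Fin N × ℕ) K) := Bdd.C 1
  rwa [C_1] at h

theorem Bdd.X (v : Fin N × ℕ) (h : v.2 ≤ D) (h1 : 1 ≤ D) :
    Bdd D (MvPolynomial.X v : MvPolynomial (Fin N × ℕ) K) := by
  rw [bdd_iff]
  refine ⟨?_, Algebra.subset_adjoin ⟨v, h, rfl⟩⟩
  rw [totalDegree_X]
  exact h1

theorem Bdd.smul (c : K) (hφ : Bdd D φ) : Bdd D (c • φ) := by
  rw [bdd_iff] at hφ ⊢
  exact ⟨(totalDegree_smul_le _ _).trans hφ.1, (Or K N D).smul_mem hφ.2 c⟩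

theorem Bdd.neg (hφ : Bdd D φ) : Bdd D (-φ) := by
  rw [bdd_iff] at hφ ⊢
  refine ⟨?_, neg_mem hφ.2⟩
  rw [totalDegree_neg]
  exact hφ.1

theorem Bdd.sub (hφ : Bdd D φ) (hψ : Bdd D ψ) : Bdd D (φ - ψ) := by
  rw [sub_eq_add_neg]
  exact hφ.add hψ.neg

theorem Bdd.pow (m : ℕ) (hφ : Bdd D φ) : Bdd (m * D) (φ ^ m) := by
  induction m with
  | zero =>
    rw [pow_zero]
    exact Bdd.one
  | succ m ih =>
    rw [pow_succ, Nat.succ_mul]
    exact ih.mul hφ

theorem Bdd.sum {ι : Type} (s : Finset ι) (f : ι → MvPolynomial (Fin N × ℕ) K)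
    (h : ∀ i ∈ s, Bdd D (f i)) : Bdd D (∑ i ∈ s, f i) := by
  rw [bdd_iff]
  exact ⟨totalDegree_finsetSum_le fun i hi => (h i hi).1,
    sum_mem fun i hi => (bdd_iff.1 (h i hi)).2⟩

theorem Bdd.prod {ι : Type} (s : Finset ι) (f : ι → MvPolynomial (Fin N × ℕ) K) (d : ι → ℕ)
    (h : ∀ i ∈ s, Bdd (d i) (f i)) : Bdd (∑ i ∈ s, d i) (∏ i ∈ s, f i) := by
  classical
  induction s using Finset.induction_on with
  | empty =>
    rw [Finset.prod_empty]
    exact Bdd.one
  | insert a s ha ih =>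
    rw [Finset.prod_insert ha, Finset.sum_insert ha]
    exact (h a (Finset.mem_insert_self a s)).mul
      (ih fun i hi => h i (Finset.mem_insert_of_mem hi))

theorem Bdd.sh (hφ : Bdd D φ) : Bdd (D + 1) (sh K N φ) := by
  rw [bdd_iff] at hφ ⊢
  exact ⟨(deg_sh φ).trans (hφ.1.trans (Nat.le_succ D)), sh_mem hφ.2⟩

theorem Bdd.iter (a : ℕ) (hφ : Bdd D φ) : Bdd (D + a) ((Pool.Agent.FN.sh K N)^[a] φ) := by
  induction a with
  | zero => exact hφ
  | succ a ih =>
    rw [Function.iterate_succ_apply']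
    exact ih.sh

theorem Bdd.det {r : ℕ} (M : Matrix (Fin r) (Fin r) (MvPolynomial (Fin N × ℕ) K))
    (h : ∀ i j, Bdd D (M i j)) : Bdd (r * D) M.det := by
  rw [Matrix.det_apply]
  refine Bdd.sum _ _ fun σ _ => ?_
  have h1 : Bdd (r * D) (∏ i, M (σ i) i) := by
    have h2 := Bdd.prod Finset.univ (fun i => M (σ i) i) (fun _ => D) fun i _ => h _ _
    rwa [Finset.sum_const, Finset.card_univ, Fintype.card_fin, smul_eq_mul] at h2
  rcases Int.units_eq_one_or (Equiv.Perm.sign σ) with h3 | h3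
  · rw [h3, one_smul]
    exact h1
  · rw [h3, Units.neg_smul, one_smul]
    exact h1.neg

theorem Bdd.subst {N' : ℕ} (Φ : MvPolynomial (Fin N × ℕ) K)
    (θ : Fin N × ℕ → MvPolynomial (Fin N' × ℕ) K) (hΦ : Bdd D Φ)
    (hθ : ∀ v, v.2 ≤ D → Bdd E (θ v)) : Bdd (D * E) (aeval θ Φ) := by
  classical
  rw [aeval_def, eval₂_eq]
  refine Bdd.sum _ _ fun m hm => ?_
  rw [← Algebra.smul_def]
  refine Bdd.smul _ ?_
  have h1 : Bdd (∑ i ∈ m.support, m i * E) (∏ i ∈ m.support, θ i ^ m i) := by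
    refine Bdd.prod _ _ _ fun v hv => Bdd.pow _ (hθ v (hΦ.2 v ?_))
    exact (mem_vars_iff_mem_support v).2 ⟨m, hm, hv⟩
  refine h1.mono ?_
  rw [← Finset.sum_mul]
  exact Nat.mul_le_mul_right _ ((le_totalDegree hm).trans hΦ.1)

theorem sh_aeval_jet {L' : Type} [CommRing L'] [Algebra K L'] (δ : Derivation K L' L')
    (u : Fin N → L') (φ : MvPolynomial (Fin N × ℕ) K) :
    δ (aeval (jet δ u) φ) = aeval (jet δ u) (sh K N φ) := by
  induction φ using MvPolynomial.induction_on with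
  | C a =>
    rw [← algebraMap_eq, Derivation.map_algebraMap, map_zero, AlgHom.commutes,
      Derivation.map_algebraMap]
  | add P Q hP hQ => rw [map_add, map_add, map_add, map_add, hP, hQ]
  | mul_X P v hP =>
    have h1 : sh K N (MvPolynomial.X v) = MvPolynomial.X (v.1, v.2 + 1) := mkDerivation_X _ _ _
    have h2 : δ (jet δ u v) = jet δ u (v.1, v.2 + 1) := by
      unfold jet
      exact (Function.iterate_succ_apply' _ _ _).symm
    rw [map_mul, Derivation.leibniz, Derivation.leibniz, map_add, h1]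
    simp only [smul_eq_mul]
    rw [map_mul, map_mul, ← hP, aeval_X, aeval_X, h2]

theorem sh_iter_aeval_jet {L' : Type} [CommRing L'] [Algebra K L'] (δ : Derivation K L' L')
    (u : Fin N → L') (φ : MvPolynomial (Fin N × ℕ) K) (a : ℕ) :
    δ^[a] (aeval (jet δ u) φ) = aeval (jet δ u) ((sh K N)^[a] φ) := by
  induction a with
  | zero => rfl
  | succ a ih => rw [Function.iterate_succ_apply', Function.iterate_succ_apply', ih, sh_aeval_jet]

end Pool.Agent.FN
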