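import Pool.Agent.FN.Cube
import Pool.Agent.QDen.DenG
import Pool.Agent.BKR.Baker

/-! # One logarithm: the number of the exceptional integers -/

namespace Pool.Agent.FN

open MvPolynomial

/-- differences of logarithms of different primes are independent over `ℚ` -/
theorem log_diff_indepQ {M0 : ℕ} (q r : Fin M0 → ℕ) (hq : ∀ m, (q m).Prime)
    (hr : ∀ m, (r m).Prime) (hqi : Function.Injective q) (hqr : ∀ m m', q m ≠ r m') :
    LinearIndependent ℚ fun m => ((Real.log (q m : ℝ) : ℝ) : ℂ) - ((Real.log (r m : ℝ) : ℝ) : ℂ) := by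
  classical
  rw [Fintype.linearIndependent_iff]
  intro g hg m0
  let S : Finset ℕ := Finset.univ.image q ∪ Finset.univ.image r
  have hqS : ∀ m, q m ∈ S := fun m =>
    Finset.mem_union_left _ (Finset.mem_image_of_mem _ (Finset.mem_univ m))
  have hrS : ∀ m, r m ∈ S := fun m =>
    Finset.mem_union_right _ (Finset.mem_image_of_mem _ (Finset.mem_univ m))
  have hS : ∀ p ∈ S, p.Prime := by
    intro p hp
    rcases Finset.mem_union.1 hp with h | h
    · obtain ⟨m, -, rfl⟩ := Finset.mem_image.1 h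
      exact hq m
    · obtain ⟨m, -, rfl⟩ := Finset.mem_image.1 h
      exact hr m
  have hsum : ∀ (f : ℕ → ℝ) (a : ℕ) (ha : a ∈ S),
      ∑ i : S, (if a = (i : ℕ) then (1 : ℝ) else 0) * f i = f a := by
    intro f a ha
    rw [Finset.sum_eq_single (⟨a, ha⟩ : S)]
    · simp
    · intro i _ hi
      rw [if_neg, zero_mul]
      intro h
      exact hi (Subtype.ext h.symm)
    · intro h
      exact absurd (Finset.mem_univ _) h
  have h1 : ∑ m, (g m : ℝ) * (Real.log (q m) - Real.log (r m)) = 0 := by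
    have h2 : ((∑ m, (g m : ℝ) * (Real.log (q m) - Real.log (r m)) : ℝ) : ℂ) = 0 := by
      rw [← hg]
      push_cast
      refine Finset.sum_congr rfl fun m _ => ?_
      rw [Algebra.smul_def]
      rfl
    exact_mod_cast h2
  have h3 := Pool.Agent.QDen.logs_indepQ S hS
    (fun i => ∑ m, g m * ((if q m = (i : ℕ) then 1 else 0) - (if r m = (i : ℕ) then 1 else 0)))
    (by
      push_cast
      simp only [Finset.sum_mul]
      rw [Finset.sum_comm, ← h1]
      refine Finset.sum_congr rfl fun m _ => ?_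
      have h4 : ∀ i : S, (g m : ℝ) * (((if q m = (i : ℕ) then 1 else 0 : ℚ) : ℝ) -
          ((if r m = (i : ℕ) then 1 else 0 : ℚ) : ℝ)) * Real.log ((i : ℕ) : ℝ) =
          (g m : ℝ) * ((if q m = (i : ℕ) then (1 : ℝ) else 0) * Real.log ((i : ℕ) : ℝ) -
            (if r m = (i : ℕ) then (1 : ℝ) else 0) * Real.log ((i : ℕ) : ℝ)) := fun i => by
        split_ifs <;> push_cast <;> ring
      rw [Finset.sum_congr rfl fun i _ => h4 i, ← Finset.mul_sum, Finset.sum_sub_distrib,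
        hsum (fun a => Real.log (a : ℝ)) (q m) (hqS m),
        hsum (fun a => Real.log (a : ℝ)) (r m) (hrS m)]) ⟨q m0, hqS m0⟩
  rw [Finset.sum_eq_single m0] at h3
  · simp only [if_true] at h3
    rw [if_neg fun h => hqr m0 m0 h.symm, sub_zero, mul_one] at h3
    exact h3
  · intro m _ hm
    simp only
    rw [if_neg fun h => hm (hqi h), if_neg fun h => hqr m0 m h.symm, sub_zero, mul_zero]
  · intro h
    exact absurd (Finset.mem_univ _) h

/-- differences of logarithms of different primes are independent over the algebraic numbers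
(Baker) -/
theorem log_diff_indepK {M0 : ℕ} (q r : Fin M0 → ℕ) (hq : ∀ m, (q m).Prime)
    (hr : ∀ m, (r m).Prime) (hqi : Function.Injective q) (hqr : ∀ m m', q m ≠ r m') :
    LinearIndependent (algebraicClosure ℚ ℂ)
      fun m => ((Real.log (q m : ℝ) : ℝ) : ℂ) - ((Real.log (r m : ℝ) : ℝ) : ℂ) := by
  have hexp : ∀ p : ℕ, p.Prime → IsAlgebraic ℚ (Complex.exp ((Real.log (p : ℝ) : ℝ) : ℂ)) := by
    intro p hp
    rw [← Complex.ofReal_exp, Real.exp_log (by exact_mod_cast hp.pos)]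
    exact_mod_cast isAlgebraic_natCast (R := ℚ) (A := ℂ) p
  rw [Fintype.linearIndependent_iff]
  intro g hg m0
  have h := Pool.Agent.BKR.baker _ (log_diff_indepQ q r hq hr hqi hqr) (fun m => by
    rw [Complex.exp_sub]
    exact (hexp _ (hq m)).mul (hexp _ (hr m)).inv) (fun m => algebraMap (algebraicClosure ℚ ℂ) ℂ (g m)) 0
    (fun m => mem_algebraicClosure_iff.1 (g m).2) isAlgebraic_zero (by
      rw [zero_add, ← hg]
      refine Finset.sum_congr rfl fun m _ => ?_
      rw [Algebra.smul_def])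
  exact Subtype.ext (h.2 m0)

/-- a set of complex numbers which contains no cube of `M` independent directions contains `t + log a` for few `a` only -/
theorem cnt_cube (M : ℕ) (hM : 0 < M) : ∃ (C : ℝ) (m X0 : ℕ), 0 < C ∧
    ∀ Z : Set ℂ, (∀ (y : ℂ) (v : Fin M → ℂ), LinearIndependent (algebraicClosure ℚ ℂ) v →
      ∃ A : Finset (Fin M), y + ∑ m ∈ A, v m ∉ Z) → ∀ (t : ℂ) (X : ℕ), X0 ≤ X →
        ({a : ℕ | (1 ≤ a ∧ a ≤ X) ∧ t + ((Real.log (a : ℝ) : ℝ) : ℂ) ∈ Z}.ncard : ℝ) ≤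
            X * (C * Real.log (Real.log X) ^ m * Real.exp (-Real.log (Real.log X))) := by
  classical
  obtain ⟨C, m, X0, hC, hden⟩ := Pool.Agent.QDen.density_grid M 2 hM (by norm_num)
  refine ⟨C, m, X0, hC, fun Z hZ t X hX => hden {a | t + ((Real.log (a : ℝ) : ℝ) : ℂ) ∈ Z} ?_ X hX⟩
  intro b hb V hVp hVc hVd
  let p : Fin M → Fin 2 → ℕ := fun m i => ((V m).equivFinOfCardEq (hVc m)).symm i
  have hpV : ∀ m i, p m i ∈ V m := fun m i => (((V m).equivFinOfCardEq (hVc m)).symm i).2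
  have hpp : ∀ m i, (p m i).Prime := fun m i => hVp m _ (hpV m i)
  have hpinj : ∀ m, Function.Injective (p m) := fun m i j h =>
    ((V m).equivFinOfCardEq (hVc m)).symm.injective (Subtype.ext h)
  have hdis : ∀ m m' : Fin M, m ≠ m' → ∀ i i', p m i ≠ p m' i' := by
    intro m m' hm i i' h
    exact Finset.disjoint_left.1 (hVd m m' hm) (hpV m i) (h ▸ hpV m' i')
  obtain ⟨A, hA⟩ := hZ (t + ((Real.log (b : ℝ) : ℝ) : ℂ) + ∑ m, ((Real.log (p m 0 : ℝ) : ℝ) : ℂ))
    (fun m => ((Real.log (p m 1 : ℝ) : ℝ) : ℂ) - ((Real.log (p m 0 : ℝ) : ℝ) : ℂ))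
    (log_diff_indepK (fun m => p m 1) (fun m => p m 0) (fun m => hpp _ _) (fun m => hpp _ _) (by
      intro m m' h
      by_contra hne
      exact hdis m m' hne _ _ h) (by
      intro m m' h
      rcases eq_or_ne m m' with rfl | hne
      · exact absurd (hpinj m h) (by decide)
      · exact hdis m m' hne _ _ h))
  refine ⟨fun m => p m (if m ∈ A then 1 else 0), fun m => hpV m _, fun h => hA ?_⟩
  have h0 : ∀ m ∈ (Finset.univ : Finset (Fin M)), ((p m (if m ∈ A then 1 else 0) : ℕ) : ℝ) ≠ 0 :=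
    fun m _ => by exact_mod_cast (hpp m _).ne_zero
  have h1 : t + ((Real.log ((b * ∏ m, p m (if m ∈ A then 1 else 0) : ℕ) : ℝ) : ℝ) : ℂ) ∈ Z := h
  have h2 : t + ((Real.log ((b * ∏ m, p m (if m ∈ A then 1 else 0) : ℕ) : ℝ) : ℝ) : ℂ) =
      t + ((Real.log (b : ℝ) : ℝ) : ℂ) + ∑ m, ((Real.log (p m 0 : ℝ) : ℝ) : ℂ) +
        ∑ m ∈ A, (((Real.log (p m 1 : ℝ) : ℝ) : ℂ) - ((Real.log (p m 0 : ℝ) : ℝ) : ℂ)) := by
    have h3 : Real.log ((b * ∏ m, p m (if m ∈ A then 1 else 0) : ℕ) : ℝ) =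
        Real.log (b : ℝ) + ∑ m, Real.log (p m (if m ∈ A then 1 else 0) : ℝ) := by
      rw [Nat.cast_mul, Nat.cast_prod, Real.log_mul (by exact_mod_cast hb)
        (Finset.prod_ne_zero_iff.2 h0), Real.log_prod h0]
    rw [h3, Complex.ofReal_add, Complex.ofReal_sum, add_assoc, add_assoc]
    congr 2
    rw [← Finset.sum_filter_add_sum_filter_not Finset.univ (· ∈ A)]
    rw [← Finset.sum_filter_add_sum_filter_not Finset.univ (· ∈ A)
      (fun m => ((Real.log (p m 0 : ℝ) : ℝ) : ℂ))]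
    have e1 : Finset.univ.filter (· ∈ A) = A := by
      ext m
      simp
    rw [e1, Finset.sum_congr rfl (g := fun m => ((Real.log (p m 1 : ℝ) : ℝ) : ℂ))
      (fun m hm => by rw [if_pos hm]),
      Finset.sum_congr rfl (s₁ := Finset.univ.filter fun m => m ∉ A)
      (g := fun m => ((Real.log (p m 0 : ℝ) : ℝ) : ℂ))
      (fun m hm => by rw [if_neg (Finset.mem_filter.1 hm).2]), Finset.sum_sub_distrib]
    ring
  rw [← h2]
  exact h1

/-- the exceptional integers for one differential polynomial -/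
theorem cnt1 (E r : ℕ) : ∃ (C : ℝ) (m X0 : ℕ), 0 < C ∧
    ∀ δ : Derivation (algebraicClosure ℚ ℂ) ℂ ℂ, CK δ → ∀ Ψ : MvPolynomial (Fin r) ℂ, Ψ ≠ 0 →
      Ψ.totalDegree ≤ E → ∀ (t : ℂ) (X : ℕ), X0 ≤ X →
        ({a : ℕ | (1 ≤ a ∧ a ≤ X) ∧ eval (fun i : Fin r =>
          δ^[(i : ℕ)] (t + ((Real.log (a : ℝ) : ℝ) : ℂ))) Ψ = 0}.ncard : ℝ) ≤
            X * (C * Real.log (Real.log X) ^ m * Real.exp (-Real.log (Real.log X))) := by
  obtain ⟨C, m, X0, hC, h⟩ := cnt_cube (E + r + 1) (by omega)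
  refine ⟨C, m, X0, hC, fun δ hδ Ψ hΨ hE t X hX => ?_⟩
  refine h {y | eval (fun i : Fin r => δ^[(i : ℕ)] y) Ψ = 0} (fun y v hv => ?_) t X hX
  exact cube δ hδ r E Ψ hΨ hE (by omega) v hv y

end Pool.Agent.FN
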