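import Mathlib

/-! # From the growth of `exp (- e loglog X)` to powers of the logarithm -/

namespace Pool.Agent.FN

/-- the constants -/
theorem consts (C1 : ℝ) (m X0 e : ℕ) : ∃ C : ℕ, ∀ X : ℕ, 16 ≤ X →
    1 < Real.log X ∧ 1 ≤ Real.log (Real.log X) ∧
    (X0 ≤ X → C1 * Real.log (Real.log X) ^ m * Real.exp (-(e * Real.log (Real.log X))) ≤
      C * Real.log (Real.log X) ^ C / Real.log X ^ e) ∧
    (X < X0 → 1 ≤ C * Real.log (Real.log X) ^ C / Real.log X ^ e) := by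
  obtain ⟨C, hC⟩ := exists_nat_ge (max C1 (max (m : ℝ) (Real.log X0 ^ e)))
  have hC1 : C1 ≤ C := (le_max_left _ _).trans hC
  have hCm : m ≤ C := by
    have : (m : ℝ) ≤ C := (le_max_left _ _).trans ((le_max_right _ _).trans hC)
    exact_mod_cast this
  have hCX : Real.log X0 ^ e ≤ C := (le_max_right _ _).trans ((le_max_right _ _).trans hC)
  refine ⟨C, fun X hX => ?_⟩
  have hX16 : (16 : ℝ) ≤ X := by exact_mod_cast hX
  have h16 : Real.exp 1 ≤ Real.log X := by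
    have h1 : Real.log 16 ≤ Real.log X := Real.log_le_log (by norm_num) hX16
    have h2 : Real.log 16 = 4 * Real.log 2 := by
      rw [show (16 : ℝ) = 2 ^ 4 by norm_num, Real.log_pow]
      norm_num
    have h3 := Real.log_two_gt_d9
    have h4 := Real.exp_one_lt_d9
    linarith
  have hlog : 1 < Real.log X := lt_of_lt_of_le (by linarith [Real.exp_one_gt_d9]) h16
  have hy : 1 ≤ Real.log (Real.log X) := by
    rw [Real.le_log_iff_exp_le (by linarith)]
    exact h16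
  refine ⟨hlog, hy, fun _ => ?_, fun hX0 => ?_⟩
  · have h1 : Real.exp (-(e * Real.log (Real.log X))) = (Real.log X ^ e)⁻¹ := by
      rw [Real.exp_neg, Real.exp_nat_mul, Real.exp_log (by linarith)]
    rw [h1, div_eq_mul_inv]
    have h2 : Real.log (Real.log X) ^ m ≤ Real.log (Real.log X) ^ C := pow_le_pow_right₀ hy hCm
    gcongr
  · have h1 : Real.log X ^ e ≤ C := by
      refine le_trans (pow_le_pow_left₀ (by linarith) (Real.log_le_log (by linarith) ?_) _) hCX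
      exact_mod_cast hX0.le
    have h2 : 1 ≤ Real.log (Real.log X) ^ C := one_le_pow₀ hy
    rw [le_div_iff₀ (by positivity)]
    nlinarith [Nat.cast_nonneg (α := ℝ) C]

theorem finite_box {l : ℕ} (N : Fin l → ℕ) (p : (Fin l → ℕ) → Prop) :
    {a : Fin l → ℕ | (∀ i, 1 ≤ a i ∧ a i ≤ N i) ∧ p a}.Finite := by
  refine (Fintype.piFinset fun i => Finset.Icc 1 (N i)).finite_toSet.subset fun a ha => ?_
  rw [Finset.mem_coe, Fintype.mem_piFinset]
  exact fun i => Finset.mem_Icc.2 (ha.1 i)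

theorem trivial_bound {l : ℕ} (N : Fin l → ℕ) (p : (Fin l → ℕ) → Prop) :
    ({a : Fin l → ℕ | (∀ i, 1 ≤ a i ∧ a i ≤ N i) ∧ p a}.ncard : ℝ) ≤ ∏ i, (N i : ℝ) := by
  classical
  have h0 : {a : Fin l → ℕ | (∀ i, 1 ≤ a i ∧ a i ≤ N i) ∧ p a}.ncard ≤
      (Fintype.piFinset fun i => Finset.Icc 1 (N i)).card := by
    rw [← Set.ncard_coe_finset]
    refine Set.ncard_le_ncard (fun a ha => ?_) (Finset.finite_toSet _)
    rw [Finset.mem_coe, Fintype.mem_piFinset]
    exact fun i => Finset.mem_Icc.2 (ha.1 i)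
  rw [Fintype.card_piFinset] at h0
  simp only [Nat.card_Icc, Nat.add_sub_cancel] at h0
  exact_mod_cast h0

/-- the bound for all `X ≥ 16` from the bound for large `X` -/
theorem all_X {l : ℕ} (e : ℕ) (C1 : ℝ) (m X0 : ℕ) : ∃ C : ℕ, ∀ (p : (Fin l → ℕ) → Prop) (X : ℕ),
    16 ≤ X → ∀ N : Fin l → ℕ,
      (X0 ≤ X → ({a : Fin l → ℕ | (∀ i, 1 ≤ a i ∧ a i ≤ N i) ∧ p a}.ncard : ℝ) ≤
        (C1 * Real.log (Real.log X) ^ m * Real.exp (-(e * Real.log (Real.log X)))) *
          ∏ i, (N i : ℝ)) →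
      ({a : Fin l → ℕ | (∀ i, 1 ≤ a i ∧ a i ≤ N i) ∧ p a}.ncard : ℝ) ≤
        C * Real.log (Real.log X) ^ C / Real.log X ^ e * ∏ i, (N i : ℝ) := by
  obtain ⟨C, hC⟩ := consts C1 m X0 e
  refine ⟨C, fun p X hX N h => ?_⟩
  obtain ⟨hlog, hy, h1, h2⟩ := hC X hX
  rcases Nat.lt_or_ge X X0 with hX0 | hX0
  · refine (trivial_bound N _).trans ?_
    exact le_mul_of_one_le_left (by positivity) (h2 hX0)
  · exact (h hX0).trans (mul_le_mul_of_nonneg_right (h1 hX0) (by positivity))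

end Pool.Agent.FN
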