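import Pool.Agent.FN.Wr

/-! # A nonzero differential polynomial does not vanish on a cube -/

namespace Pool.Agent.FN

open MvPolynomial

namespace CubeAux

variable {R σ : Type} [CommRing R]

/-- translation by `c` -/
noncomputable def tr (c : σ → R) : MvPolynomial σ R →ₐ[R] MvPolynomial σ R :=
  bind₁ fun i => X i + C (c i)

theorem eval_tr (c z : σ → R) (P : MvPolynomial σ R) :
    eval z (tr c P) = eval (fun i => z i + c i) P := by
  rw [tr, ← coe_aeval_eq_eval, ← coe_aeval_eq_eval]
  simp only [RingHom.coe_coe]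
  rw [aeval_bind₁]
  simp

/-- the degree drops under differences -/
def Good (c : σ → R) (D : ℕ) (P : MvPolynomial σ R) : Prop :=
  P.totalDegree ≤ D ∧ (tr c P - P = 0 ∨ (tr c P - P).totalDegree + 1 ≤ D)

theorem Good.tr_le {c : σ → R} {D : ℕ} {P : MvPolynomial σ R} (h : Good c D P) :
    (tr c P).totalDegree ≤ D := by
  have e : tr c P = (tr c P - P) + P := by ring
  rw [e]
  refine (totalDegree_add _ _).trans (max_le ?_ h.1)
  rcases h.2 with h2 | h2
  · rw [h2, totalDegree_zero]
    exact Nat.zero_le _
  · omega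

theorem Good.mono {c : σ → R} {D D' : ℕ} {P : MvPolynomial σ R} (h : Good c D P) (hD : D ≤ D') :
    Good c D' P :=
  ⟨h.1.trans hD, h.2.imp id fun h2 => h2.trans hD⟩

theorem good_zero (c : σ → R) (D : ℕ) : Good c D (0 : MvPolynomial σ R) :=
  ⟨by rw [totalDegree_zero]; exact Nat.zero_le _, Or.inl (by rw [map_zero, sub_zero])⟩

theorem Good.add {c : σ → R} {D : ℕ} {P Q : MvPolynomial σ R} (h : Good c D P) (h' : Good c D Q) :
    Good c D (P + Q) := by
  refine ⟨(totalDegree_add _ _).trans (max_le h.1 h'.1), ?_⟩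
  have e : tr c (P + Q) - (P + Q) = (tr c P - P) + (tr c Q - Q) := by
    rw [map_add]
    ring
  rw [e]
  rcases h.2 with h2 | h2
  · rw [h2, zero_add]
    exact h'.2
  · rcases h'.2 with h3 | h3
    · rw [h3, add_zero]
      exact Or.inr h2
    · right
      have := totalDegree_add (tr c P - P) (tr c Q - Q)
      rcases le_max_iff.1 this with h4 | h4 <;> omega

theorem Good.mul {c : σ → R} {D D' : ℕ} {P Q : MvPolynomial σ R} (h : Good c D P)
    (h' : Good c D' Q) : Good c (D + D') (P * Q) := by
  refine ⟨(totalDegree_mul _ _).trans (add_le_add h.1 h'.1), ?_⟩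
  have e : tr c (P * Q) - P * Q = (tr c P - P) * tr c Q + P * (tr c Q - Q) := by
    rw [map_mul]
    ring
  rw [e]
  have a1 := h'.tr_le
  have a2 := h.1
  have m1 := totalDegree_mul (tr c P - P) (tr c Q)
  have m2 := totalDegree_mul P (tr c Q - Q)
  rcases h.2 with h2 | h2
  · rw [h2, zero_mul, zero_add]
    rcases h'.2 with h3 | h3
    · rw [h3, mul_zero]
      exact Or.inl rfl
    · right
      omega
  · rcases h'.2 with h3 | h3
    · rw [h3, mul_zero, add_zero]
      right
      omega
    · right
      have := totalDegree_add ((tr c P - P) * tr c Q) (P * (tr c Q - Q))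
      rcases le_max_iff.1 this with h4 | h4 <;> omega

theorem good_C (c : σ → R) (a : R) : Good c 0 (C a) :=
  ⟨by rw [totalDegree_C], Or.inl (by simp [tr])⟩

theorem good_X (c : σ → R) (i : σ) : Good c 1 (X i) := by
  constructor
  · have := totalDegree_monomial_le (R := R) (Finsupp.single i 1) (1 : R)
    simpa [X] using this
  · right
    have : tr c (X i) - X i = C (c i) := by simp [tr]
    rw [this, totalDegree_C]

theorem good_pow {c : σ → R} {D : ℕ} {P : MvPolynomial σ R} (h : Good c D P) (n : ℕ) :
    Good c (n * D) (P ^ n) := by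
  induction n with
  | zero =>
    rw [pow_zero, zero_mul, ← C_1]
    exact good_C c 1
  | succ n ih =>
    rw [pow_succ, Nat.succ_mul]
    exact ih.mul h

theorem good_prod {c : σ → R} {s : Finset σ} {f : σ → MvPolynomial σ R} {D : σ → ℕ}
    (h : ∀ i, Good c (D i) (f i)) : Good c (∑ i ∈ s, D i) (∏ i ∈ s, f i) := by
  classical
  induction s using Finset.induction_on with
  | empty =>
    rw [Finset.sum_empty, Finset.prod_empty, ← C_1]
    exact good_C c 1
  | insert a s ha ih =>
    rw [Finset.sum_insert ha, Finset.prod_insert ha]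
    exact (h a).mul ih

theorem good_monomial (c : σ → R) (s : σ →₀ ℕ) (a : R) :
    Good c (s.sum fun _ e => e) (monomial s a) := by
  rw [monomial_eq]
  have h1 : Good c (∑ i ∈ s.support, s i) (∏ i ∈ s.support, (X i : MvPolynomial σ R) ^ s i) :=
    good_prod fun i => by
      have := good_pow (good_X c i) (s i)
      rwa [mul_one] at this
  have h2 := (good_C c a).mul h1
  rw [zero_add] at h2
  exact h2

theorem good_of_le (c : σ → R) {D : ℕ} {P : MvPolynomial σ R} (h : P.totalDegree ≤ D) :
    Good c D P := by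
  classical
  have key : ∀ t : Finset (σ →₀ ℕ), t ⊆ P.support → Good c D (∑ s ∈ t, monomial s (coeff s P)) := by
    intro t
    induction t using Finset.induction_on with
    | empty =>
      intro _
      rw [Finset.sum_empty]
      exact good_zero c D
    | insert a t ha ih =>
      intro hs
      rw [Finset.sum_insert ha]
      refine Good.add ?_ (ih ((Finset.subset_insert _ _).trans hs))
      refine (good_monomial c a _).mono ((le_totalDegree (hs (Finset.mem_insert_self _ _))).trans h)
  have h1 := key P.support (Finset.Subset.refl _)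
  rwa [← P.as_sum] at h1

/-- a polynomial which is invariant under a translation is invariant under its multiples -/
theorem inv_smul {L σ : Type} [Field L] [CharZero L] {P : MvPolynomial σ L} {c : σ → L}
    (h : tr c P = P) (t : L) (y : σ → L) : eval (fun i => y i + t * c i) P = eval y P := by
  have h1 : ∀ (n : ℕ) (y : σ → L), eval (fun i => y i + (n : L) * c i) P = eval y P := by
    intro n
    induction n with
    | zero => intro y; simp
    | succ n ih =>
      intro y
      have h2 := eval_tr c (fun i => y i + (n : L) * c i) P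
      rw [h, ih] at h2
      rw [h2]
      congr 2
      funext i
      push_cast
      ring
  obtain ⟨p, hp⟩ : ∃ p : Polynomial L, p = aeval (fun i => Polynomial.C (y i) +
      Polynomial.X * Polynomial.C (c i)) P := ⟨_, rfl⟩
  have hpe : ∀ x : L, p.eval x = eval (fun i => y i + x * c i) P := by
    intro x
    rw [hp, ← Polynomial.coe_evalRingHom]
    have h3 : ∀ Q : MvPolynomial σ L, (Polynomial.evalRingHom x) (aeval (fun i =>
        Polynomial.C (y i) + Polynomial.X * Polynomial.C (c i)) Q) =
        eval (fun i => y i + x * c i) Q := by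
      intro Q
      induction Q using MvPolynomial.induction_on with
      | C a => simp
      | add p q hp hq => rw [map_add, map_add, map_add, hp, hq]
      | mul_X p i hp => rw [map_mul, map_mul, map_mul, hp]; simp [mul_comm x]
    exact h3 P
  have h4 : p = Polynomial.C (eval y P) := by
    refine Polynomial.eq_of_infinite_eval_eq _ _ ?_
    refine Set.Infinite.mono ?_ (Set.infinite_range_of_injective (Nat.cast_injective (R := L)))
    rintro _ ⟨n, rfl⟩
    simp only [Set.mem_ofPred_eq, Polynomial.eval_C]
    rw [hpe, h1]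
  rw [← hpe, h4, Polynomial.eval_C]

end CubeAux

open CubeAux

variable {K L : Type} [Field K] [Field L] [Algebra K L]

theorem iterate_add' (δ : Derivation K L L) (n : ℕ) (x y : L) :
    δ^[n] (x + y) = δ^[n] x + δ^[n] y := by
  induction n generalizing x y with
  | zero => rfl
  | succ n ih => rw [Function.iterate_succ_apply, Function.iterate_succ_apply,
      Function.iterate_succ_apply, map_add, ih]

/-- one of `r` independent jets moves a nonconstant polynomial -/
theorem exists_move [CharZero K] (δ : Derivation K L L) (hδ : CK δ) {r : ℕ}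
    (Ψ : MvPolynomial (Fin r) L) (v : Fin r → L) (hv : LinearIndependent K v)
    (h : ∀ m, tr (fun i : Fin r => δ^[(i : ℕ)] (v m)) Ψ = Ψ) : ∃ c : L, Ψ = C c := by
  have hL : CharZero L := charZero_of_injective_algebraMap (algebraMap K L).injective
  refine ⟨eval 0 Ψ, MvPolynomial.funext fun y => ?_⟩
  rw [eval_C]
  have hdet := wr_ne_zero δ hδ v hv
  have hu : IsUnit (Matrix.of fun i j : Fin r => δ^[(i : ℕ)] (v j)).det := hdet.isUnit
  obtain ⟨t, ht⟩ : ∃ t : Fin r → L, (Matrix.of fun i j : Fin r => δ^[(i : ℕ)] (v j)).mulVec t = y :=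
    ⟨(Matrix.of fun i j : Fin r => δ^[(i : ℕ)] (v j))⁻¹.mulVec y, by
      rw [Matrix.mulVec_mulVec, Matrix.mul_nonsing_inv _ hu, Matrix.one_mulVec]⟩
  have h1 : ∀ S : Finset (Fin r), eval (fun i : Fin r => ∑ m ∈ S, t m * δ^[(i : ℕ)] (v m)) Ψ =
      eval 0 Ψ := by
    intro S
    induction S using Finset.induction_on with
    | empty =>
      congr 2
    | insert a S ha ih =>
      rw [← ih, ← inv_smul (h a) (t a) (fun i : Fin r => ∑ m ∈ S, t m * δ^[(i : ℕ)] (v m))]
      congr 2
      funext i
      rw [Finset.sum_insert ha, add_comm]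
  rw [← h1 Finset.univ]
  congr 2
  funext i
  rw [← ht, Matrix.mulVec, dotProduct]
  exact Finset.sum_congr rfl fun m _ => by rw [Matrix.of_apply, mul_comm]

theorem cube [CharZero K] (δ : Derivation K L L) (hδ : CK δ) (r E : ℕ)
    (Ψ : MvPolynomial (Fin r) L) (h0 : Ψ ≠ 0) (hE : Ψ.totalDegree ≤ E) {M : ℕ} (hM : E + r ≤ M)
    (v : Fin M → L) (hv : LinearIndependent K v) (y0 : L) :
    ∃ A : Finset (Fin M), eval (fun i : Fin r => δ^[(i : ℕ)] (y0 + ∑ m ∈ A, v m)) Ψ ≠ 0 := by
  induction E generalizing Ψ M with
  | zero =>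
    refine ⟨∅, ?_⟩
    have h1 : Ψ = C (coeff 0 Ψ) := totalDegree_eq_zero_iff_eq_C.1 (Nat.le_zero.1 hE)
    rw [h1, eval_C]
    intro h2
    rw [h2, C_0] at h1
    exact h0 h1
  | succ E ih =>
    by_cases hconst : ∃ c : L, Ψ = C c
    · obtain ⟨c, rfl⟩ := hconst
      refine ⟨∅, ?_⟩
      rw [eval_C]
      rintro rfl
      exact h0 C_0
    · have hr : r ≤ M := by omega
      have hvr : LinearIndependent K (v ∘ Fin.castLE hr) :=
        hv.comp _ (Fin.castLE_injective hr)
      obtain ⟨m, hm⟩ : ∃ m : Fin r,
          tr (fun i : Fin r => δ^[(i : ℕ)] ((v ∘ Fin.castLE hr) m)) Ψ ≠ Ψ := by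
        by_contra hcon
        push Not at hcon
        exact hconst (exists_move δ hδ Ψ _ hvr hcon)
      obtain ⟨k, hk⟩ : ∃ k : Fin M, k = Fin.castLE hr m := ⟨_, rfl⟩
      have hm' : tr (fun i : Fin r => δ^[(i : ℕ)] (v k)) Ψ - Ψ ≠ 0 := by
        rw [hk]
        exact sub_ne_zero.2 hm
      obtain ⟨N, rfl⟩ : ∃ N, M = N + 1 := ⟨M - 1, by have := k.2; omega⟩
      have hv' : LinearIndependent K (v ∘ k.succAbove) :=
        hv.comp _ Fin.succAbove_right_injective
      have hdeg : (tr (fun i : Fin r => δ^[(i : ℕ)] (v k)) Ψ - Ψ).totalDegree ≤ E := by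
        rcases (good_of_le (fun i : Fin r => δ^[(i : ℕ)] (v k)) hE).2 with h | h
        · exact absurd h hm'
        · omega
      obtain ⟨A, hA⟩ := ih _ hm' hdeg (M := N) (by omega) (v ∘ k.succAbove) hv'
      rw [map_sub, eval_tr] at hA
      have hsum : ∑ m ∈ A.map k.succAboveEmb, v m =
          ∑ m ∈ A, (v ∘ k.succAbove) m := by
        rw [Finset.sum_map]
        rfl
      by_cases h1 : eval (fun i : Fin r => δ^[(i : ℕ)] (y0 + ∑ m ∈ A, (v ∘ k.succAbove) m)) Ψ = 0
      · rw [h1, sub_zero] at hA
        have hk' : k ∉ A.map k.succAboveEmb := by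
          rw [Finset.mem_map]
          rintro ⟨j, _, hj⟩
          exact Fin.succAbove_ne k j hj
        refine ⟨insert k (A.map k.succAboveEmb), ?_⟩
        rw [Finset.sum_insert hk', hsum]
        intro h2
        apply hA
        rw [← h2]
        congr 2
        funext i
        rw [← iterate_add']
        congr 1
        ring
      · refine ⟨A.map k.succAboveEmb, ?_⟩
        rw [hsum]
        exact h1

end Pool.Agent.FN
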