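import Pool.Agent.QDen.DenG
import Pool.Agent.FN.Cnt

set_option autoImplicit false

/-! # The density step with the integers with few prime factors split off -/

namespace Pool.Agent.FN

open Filter Pool.Agent.QDen

/-- the density step, general form: `F X` = the integers with few prime factors of medium size -/
theorem den2 (d : ℕ) (hd : 0 < d) (C c : ℝ) (hC : 0 < C) (hc : 0 < c) (hc1 : c ≤ 1) :
    ∃ (F : ℕ → Set ℕ) (C' : ℝ) (m X0 : ℕ), 0 < C' ∧ ∀ X : ℕ, X0 ≤ X →
      ({a : ℕ | (1 ≤ a ∧ a ≤ X) ∧ a ∈ F X}.ncard : ℝ) ≤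
        X * (C' * Real.log (Real.log X) ^ m * Real.exp (-Real.log (Real.log X))) ∧
      ∀ B : Set ℕ,
      (∀ b : ℕ, b ≠ 0 → ∀ S : Finset ℕ, (∀ p ∈ S, p.Prime) → S.Nonempty →
        ({T : Finset ℕ | T ⊆ S ∧ T.card = d ∧ b * ∏ p ∈ T, p ∈ B}.ncard : ℝ) ≤
          C * (S.card : ℝ) ^ ((d : ℝ) - c)) →
        ({a : ℕ | (1 ≤ a ∧ a ≤ X) ∧ a ∉ F X ∧ a ∈ B}.ncard : ℝ) ≤
          X * (C' * Real.log (Real.log X) ^ m * Real.exp (-(2 * Real.log (Real.log X)))) := by
  classical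
  obtain ⟨CR, hCR, hfew⟩ := gen_few
  obtain ⟨C1, hC1, hSb⟩ := S_bounds 1
  set A : ℝ := 2 / c with hA
  have hA2 : 2 ≤ A := by
    rw [hA, le_div_iff₀ hc]
    linarith
  have hAc : A * c = 2 := by
    rw [hA]
    field_simp
  obtain ⟨X0, hX0⟩ := eventually_atTop.1 (hSb.and
    (tendsto_loglog.eventually (eventually_ge_atTop (A + 1))))
  set C2 : ℝ := C * (d : ℝ) ^ ((d : ℝ) - c) * 4 ^ d with hC2
  set C3 : ℝ := CR * Real.exp C1 * Real.exp 1 with hC3
  have hdpos : (0 : ℝ) < d := by exact_mod_cast hd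
  have hC20 : 0 < C2 := by positivity
  have hC30 : 0 < C3 := by positivity
  refine ⟨fun X => {a : ℕ | wG (fun i => q (⌈Real.exp (A * Real.log (Real.log X))⌉₊ + i))
    (Nat.sqrt X / ⌈Real.exp (A * Real.log (Real.log X))⌉₊ *
      ⌈Real.exp (A * Real.log (Real.log X))⌉₊) a < d}, C2 + C3, d + 2, X0, by positivity,
    fun X hX => ?_⟩
  obtain ⟨a1, a4⟩ := hX0 X hX
  obtain ⟨hy1, hX4, hS⟩ := a1 _ rfl
  set y : ℝ := Real.log (Real.log X) with hy
  have hypos : 0 < y := by linarith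
  have hXpos : (0 : ℝ) < X := by linarith
  set r : ℕ := ⌈Real.exp (A * y)⌉₊ with hr
  have hrle : Real.exp (A * y) ≤ r := Nat.le_ceil _
  have hAy : 2 ≤ A * y := by nlinarith
  have hr3 : (3 : ℝ) ≤ r := by
    have := Real.add_one_le_exp (A * y)
    linarith
  have hr3' : 3 ≤ r := by exact_mod_cast hr3
  have hrpos : 0 < r := by omega
  have hrr : (0 : ℝ) < r := by linarith
  have hrub : (r : ℝ) ≤ Real.exp (2 * y ^ (1 + 1)) := by
    have h12 : (r : ℝ) < Real.exp (A * y) + 1 := Nat.ceil_lt_add_one (Real.exp_pos _).le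
    have h13 : Real.exp (A * y) + 1 ≤ Real.exp (A * y + 1) := by
      rw [Real.exp_add]
      have h14 : 1 ≤ Real.exp (A * y) := Real.one_le_exp (by linarith)
      have h15 := Real.add_one_le_exp (1 : ℝ)
      nlinarith
    refine h12.le.trans (h13.trans (Real.exp_le_exp.2 ?_))
    have h16 : A + 1 ≤ y := a4
    have h17 : A * y ≤ (y - 1) * y := mul_le_mul_of_nonneg_right (by linarith) hypos.le
    have h18 : y ^ (1 + 1) = y * y := by ring
    rw [h18]
    nlinarith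
  obtain ⟨hS1, hS2, hS3, hqX⟩ := hS r hr3' hrub
  set J : ℕ := Nat.sqrt X / r with hJ
  set S : ℝ := ∑ i ∈ Finset.range (J * r), 1 / (q (r + i) : ℝ) with hSdef
  have hX3 : 3 ≤ X := by
    have : (3 : ℝ) ≤ X := by linarith
    exact_mod_cast this
  have hS0 : 0 ≤ S := by linarith
  have hym : y ^ d ≤ y ^ (d + 2) := pow_le_pow_right₀ hy1 (by omega)
  constructor
  · have h := hfew (fun i => q (r + i)) (fun i => q_prime _)
      (fun i j hij => q_strictMono (by omega)) (J * r) X hX3 hqX d (1 / y) (by positivity)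
      (by rw [div_le_one hypos]; exact hy1)
    refine h.trans ((second_term (X := X) (u := d) (m := 2) hCR.le hXpos.le
      (show 0 < 1 / y by positivity) (by rw [div_le_one hypos]; exact hy1) hy1 hC1
      (S := S) (y := y) (by push_cast at hS1 ⊢; linarith)).trans ?_)
    refine mul_le_mul_of_nonneg_left ?_ hXpos.le
    have h1 : ((1 / y) ^ d)⁻¹ = y ^ d := by
      rw [one_div, inv_pow, inv_inv]
    have h2 : (1 - 1 / y) * y = y - 1 := by field_simp
    have h3 : Real.exp (-(y - 1)) = Real.exp 1 * Real.exp (-y) := by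
      rw [← Real.exp_add]
      ring_nf
    rw [h1, h2, h3]
    calc CR * Real.exp C1 * y ^ 2 * (y ^ d * (Real.exp 1 * Real.exp (-y))) =
        C3 * y ^ (d + 2) * Real.exp (-y) := by rw [hC3]; ring
      _ ≤ (C2 + C3) * y ^ (d + 2) * Real.exp (-y) := by
        have : C3 ≤ C2 + C3 := by linarith
        gcongr
  · intro B hB
    set K : ℝ := C * ((d * r : ℕ) : ℝ) ^ ((d : ℝ) - c) with hK
    have hK0 : 0 ≤ K := by positivity
    have hdc : 0 ≤ (d : ℝ) - c := by
      have : (1 : ℝ) ≤ d := by exact_mod_cast hd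
      linarith
    have h := gen_many (p := fun i => q (r + i)) (fun i => q_prime _)
      (fun i j hij => q_strictMono (by omega)) d r J hrpos K hK0 B
      (fun b hb T hT hTc => by
        rcases T.eq_empty_or_nonempty with rfl | hTne
        · have : {T' : Finset ℕ | T' ⊆ ∅ ∧ T'.card = d ∧ b * ∏ s ∈ T', s ∈ B} = ∅ := by
            rw [Set.eq_empty_iff_forall_notMem]
            rintro T' ⟨h1, h2, -⟩
            rw [Finset.subset_empty.1 h1, Finset.card_empty] at h2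
            omega
          rw [this]
          simpa using hK0
        · refine (hB b hb T hT hTne).trans ?_
          have h5 : (T.card : ℝ) ≤ ((d * r : ℕ) : ℝ) := by exact_mod_cast hTc
          exact mul_le_mul_of_nonneg_left (Real.rpow_le_rpow (Nat.cast_nonneg _) h5 hdc) hC.le)
      X
    refine h.trans ?_
    have hq0 : 1 / (q (r + 0) : ℝ) ≤ S / r := by
      have h12 : (r : ℝ) ≤ q (r + 0) := by
        have := q_strictMono.le_apply (x := r)
        exact_mod_cast this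
      calc 1 / (q (r + 0) : ℝ) ≤ 1 / r := one_div_le_one_div_of_le hrr h12
        _ ≤ S / r := div_le_div_of_nonneg_right hS3 hrr.le
    have h13 : (1 / (q (r + 0) : ℝ) + S / r) ^ d ≤ (4 * y / r) ^ d := by
      refine pow_le_pow_left₀ (by positivity) ?_ d
      calc 1 / (q (r + 0) : ℝ) + S / r ≤ S / r + S / r := by linarith
        _ = 2 * S / r := by ring
        _ ≤ 4 * y / r := div_le_div_of_nonneg_right (by linarith) hrr.le
    have h14 : K * (4 * y / r) ^ d = C2 * y ^ d * (r : ℝ) ^ (-c) := by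
      rw [hK, hC2, Nat.cast_mul, Real.mul_rpow (Nat.cast_nonneg _) hrr.le,
        show (d : ℝ) - c = (d : ℝ) + (-c) by ring, Real.rpow_add hrr, Real.rpow_natCast, div_pow,
        mul_pow]
      have : (r : ℝ) ^ d ≠ 0 := by positivity
      field_simp
    have h15 : (r : ℝ) ^ (-c) ≤ Real.exp (-(2 * y)) := by
      rw [Real.rpow_neg hrr.le, Real.exp_neg]
      refine inv_anti₀ (Real.exp_pos _) ?_
      calc Real.exp (2 * y) = Real.exp (A * y) ^ c := by
            rw [← Real.exp_mul]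
            congr 1
            rw [← hAc]
            ring
        _ ≤ (r : ℝ) ^ c := Real.rpow_le_rpow (Real.exp_pos _).le hrle hc.le
    calc K * X * (1 / (q (r + 0) : ℝ) + S / r) ^ d ≤ K * X * (4 * y / r) ^ d :=
          mul_le_mul_of_nonneg_left h13 (by positivity)
      _ = X * (K * (4 * y / r) ^ d) := by ring
      _ ≤ X * ((C2 + C3) * y ^ (d + 2) * Real.exp (-(2 * y))) := by
          rw [h14]
          refine mul_le_mul_of_nonneg_left ?_ hXpos.le
          have : C2 ≤ C2 + C3 := by linarith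
          gcongr


/-- a set without cubes of logarithms contains no full grid of primes -/
theorem grid_of_cube {M : ℕ} {Z : Set ℂ}
    (hZ : ∀ (y : ℂ) (v : Fin M → ℂ), LinearIndependent (algebraicClosure ℚ ℂ) v →
      ∃ A : Finset (Fin M), y + ∑ m ∈ A, v m ∉ Z) (t : ℂ) (b : ℕ) (hb : b ≠ 0)
    (V : Fin M → Finset ℕ) (hVp : ∀ i, ∀ p ∈ V i, p.Prime) (hVc : ∀ i, (V i).card = 2)
    (hVd : ∀ i j, i ≠ j → Disjoint (V i) (V j)) :
    ∃ v : Fin M → ℕ, (∀ i, v i ∈ V i) ∧
      b * ∏ i, v i ∉ {a : ℕ | t + ((Real.log (a : ℝ) : ℝ) : ℂ) ∈ Z} := by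
  classical
  let p : Fin M → Fin 2 → ℕ := fun m i => ((V m).equivFinOfCardEq (hVc m)).symm i
  have hpV : ∀ m i, p m i ∈ V m := fun m i => (((V m).equivFinOfCardEq (hVc m)).symm i).2
  have hpp : ∀ m i, (p m i).Prime := fun m i => hVp m _ (hpV m i)
  have hpinj : ∀ m, Function.Injective (p m) := fun m i j h =>
    ((V m).equivFinOfCardEq (hVc m)).symm.injective (Subtype.ext h)
  have hdis : ∀ m m' : Fin M, m ≠ m' → ∀ i i', p m i ≠ p m' i' := by
    intro m m' hm i i' h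
    exact Finset.disjoint_left.1 (hVd m m' hm) (hpV m i) (h ▸ hpV m' i')
  obtain ⟨A, hA⟩ := hZ (t + ((Real.log (b : ℝ) : ℝ) : ℂ) + ∑ m, ((Real.log (p m 0 : ℝ) : ℝ) : ℂ))
    (fun m => ((Real.log (p m 1 : ℝ) : ℝ) : ℂ) - ((Real.log (p m 0 : ℝ) : ℝ) : ℂ))
    (log_diff_indepK (fun m => p m 1) (fun m => p m 0) (fun m => hpp _ _) (fun m => hpp _ _) (by
      intro m m' h
      by_contra hne
      exact hdis m m' hne _ _ h) (by
      intro m m' h
      rcases eq_or_ne m m' with rfl | hne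
      · exact absurd (hpinj m h) (by decide)
      · exact hdis m m' hne _ _ h))
  refine ⟨fun m => p m (if m ∈ A then 1 else 0), fun m => hpV m _, fun h => hA ?_⟩
  have h0 : ∀ m ∈ (Finset.univ : Finset (Fin M)), ((p m (if m ∈ A then 1 else 0) : ℕ) : ℝ) ≠ 0 :=
    fun m _ => by exact_mod_cast (hpp m _).ne_zero
  have h1 : t + ((Real.log ((b * ∏ m, p m (if m ∈ A then 1 else 0) : ℕ) : ℝ) : ℝ) : ℂ) ∈ Z := h
  have h2 : t + ((Real.log ((b * ∏ m, p m (if m ∈ A then 1 else 0) : ℕ) : ℝ) : ℝ) : ℂ) =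
      t + ((Real.log (b : ℝ) : ℝ) : ℂ) + ∑ m, ((Real.log (p m 0 : ℝ) : ℝ) : ℂ) +
        ∑ m ∈ A, (((Real.log (p m 1 : ℝ) : ℝ) : ℂ) - ((Real.log (p m 0 : ℝ) : ℝ) : ℂ)) := by
    have h3 : Real.log ((b * ∏ m, p m (if m ∈ A then 1 else 0) : ℕ) : ℝ) =
        Real.log (b : ℝ) + ∑ m, Real.log (p m (if m ∈ A then 1 else 0) : ℝ) := by
      rw [Nat.cast_mul, Nat.cast_prod, Real.log_mul (by exact_mod_cast hb)
        (Finset.prod_ne_zero_iff.2 h0), Real.log_prod h0]
    rw [h3, Complex.ofReal_add, Complex.ofReal_sum, add_assoc, add_assoc]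
    congr 2
    rw [← Finset.sum_filter_add_sum_filter_not Finset.univ (· ∈ A)]
    rw [← Finset.sum_filter_add_sum_filter_not Finset.univ (· ∈ A)
      (fun m => ((Real.log (p m 0 : ℝ) : ℝ) : ℂ))]
    have e1 : Finset.univ.filter (· ∈ A) = A := by
      ext m
      simp
    rw [e1, Finset.sum_congr rfl (g := fun m => ((Real.log (p m 1 : ℝ) : ℝ) : ℂ))
      (fun m hm => by rw [if_pos hm]),
      Finset.sum_congr rfl (s₁ := Finset.univ.filter fun m => m ∉ A)
      (g := fun m => ((Real.log (p m 0 : ℝ) : ℝ) : ℂ))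
      (fun m hm => by rw [if_neg (Finset.mem_filter.1 hm).2]), Finset.sum_sub_distrib]
    ring
  rw [← h2]
  exact h1

/-- **the exceptional integers, those with few prime factors split off** -/
theorem cntF (M : ℕ) (hM : 0 < M) : ∃ (F : ℕ → Set ℕ) (C : ℝ) (m X0 : ℕ), 0 < C ∧
    ∀ X : ℕ, X0 ≤ X →
      ({a : ℕ | (1 ≤ a ∧ a ≤ X) ∧ a ∈ F X}.ncard : ℝ) ≤
        X * (C * Real.log (Real.log X) ^ m * Real.exp (-Real.log (Real.log X))) ∧
      ∀ Z : Set ℂ, (∀ (y : ℂ) (v : Fin M → ℂ), LinearIndependent (algebraicClosure ℚ ℂ) v →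
        ∃ A : Finset (Fin M), y + ∑ m ∈ A, v m ∉ Z) → ∀ t : ℂ,
        ({a : ℕ | (1 ≤ a ∧ a ≤ X) ∧ a ∉ F X ∧ t + ((Real.log (a : ℝ) : ℝ) : ℂ) ∈ Z}.ncard : ℝ) ≤
            X * (C * Real.log (Real.log X) ^ m * Real.exp (-(2 * Real.log (Real.log X)))) := by
  obtain ⟨C, c, hC, hc, hc1, hg⟩ := grid_power M 2 (by norm_num)
  obtain ⟨F, C', m, X0, hC', h⟩ := den2 M hM C c hC hc hc1
  refine ⟨F, C', m, X0, hC', fun X hX => ⟨(h X hX).1, fun Z hZ t => ?_⟩⟩
  exact (h X hX).2 {a : ℕ | t + ((Real.log (a : ℝ) : ℝ) : ℂ) ∈ Z}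
    (hg _ fun b hb V hVp hVc hVd => grid_of_cube hZ t b hb V hVp hVc hVd)

end Pool.Agent.FN
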