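import Pool.Agent.FN.DerC

/-! # A derivation of the complex numbers whose constants are the algebraic numbers -/

namespace Pool.Agent.FN

open Set Cardinal

theorem exists_der {K : Type} [Field K] [Algebra K ℂ] [IsAlgClosed K] [Countable K] {k : ℕ}
    (x : Fin k → ℂ) (hx : AlgebraicIndependent K x) :
    ∃ δ : Derivation K ℂ ℂ, CK δ ∧ Gen δ x := by
  classical
  have hc0 : CharZero K := (algebraMap K ℂ).charZero
  have hxi : Function.Injective x := hx.injective
  obtain ⟨s, hxs, hs⟩ := exists_isTranscendenceBasis_superset (R := K) (s := range x)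
    ((algebraicIndependent_subtype_range hxi).2 hx)
  have hsinf : Infinite s := by
    by_contra hfin
    rw [not_infinite_iff_finite] at hfin
    have hcs : Countable s := Finite.to_countable
    have h1 := hs.isAlgebraic
    rw [Subtype.range_val] at h1
    have h3 : #(Algebra.adjoin K s) ≤ ℵ₀ :=
      (Algebra.cardinalMk_adjoin_le K s).trans (sup_le (sup_le (Cardinal.mk_le_aleph0_iff.2 ‹_›)
        (Cardinal.mk_le_aleph0_iff.2 hcs)) le_rfl)
    have h4 : #ℂ ≤ ℵ₀ := (Algebra.IsAlgebraic.cardinalMk_le_max (Algebra.adjoin K s) ℂ).trans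
      (max_le h3 le_rfl)
    rw [Cardinal.mk_complex] at h4
    exact absurd h4 (not_le.2 Cardinal.aleph0_lt_continuum)
  -- the bijection
  let S : Set s := {a | (a : ℂ) ∈ range x}
  have hSf : S.Finite := by
    refine Set.Finite.of_finite_image (f := fun a : s => (a : ℂ)) ?_ Subtype.val_injective.injOn
    refine (Set.finite_range x).subset ?_
    rintro - ⟨a, ha, rfl⟩
    exact ha
  obtain ⟨e, he⟩ := Cardinal.extend_function_of_lt (α := s) (β := s × ℕ) (s := S)
    ⟨fun a => (a.1, 0), fun a b h => Subtype.ext (Prod.mk.inj h).1⟩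
    (lt_of_lt_of_le hSf.lt_aleph0 (Cardinal.aleph0_le_mk s))
    (by
      rw [← Cardinal.eq, Cardinal.mk_prod, Cardinal.lift_id, Cardinal.lift_id, Cardinal.mk_nat]
      exact (Cardinal.mul_aleph0_eq (Cardinal.aleph0_le_mk s)).symm)
  let B : s × ℕ → ℂ := fun v => (e.symm v : s)
  have hB : IsTranscendenceBasis K B := hs.comp_equiv e.symm
  obtain ⟨δ, hδ⟩ := exists_der_basis B hB fun v => B (v.1, v.2 + 1)
  refine ⟨δ, fun f hf => ?_, fun l => ?_⟩
  · have h1 := ker_shift B hB δ hδ hf
    have h2 := IsAlgClosed.degree_eq_one_of_irreducible K (minpoly.irreducible h1.isIntegral)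
    exact minpoly.mem_range_of_degree_eq_one K f h2
  · have hinf : Infinite {a : s // a ∉ S} := (hSf.infinite_compl).to_subtype
    let b : Fin l → s := fun i => (Infinite.natEmbedding {a : s // a ∉ S} i : s)
    let c : Fin (k + l) → s := Fin.append (fun j => ⟨x j, hxs ⟨j, rfl⟩⟩) b
    have hb : ∀ i, b i ∉ S := fun i => (Infinite.natEmbedding {a : s // a ∉ S} i).2
    have hbi : Function.Injective b := fun i j h =>
      Fin.ext ((Infinite.natEmbedding {a : s // a ∉ S}).injective (Subtype.ext h))
    have hcinj : Function.Injective c := by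
      refine Fin.append_injective_iff.2 ⟨fun i j h => hxi (Subtype.ext_iff.1 h), hbi, ?_⟩
      intro i j h
      exact hb j (h ▸ ⟨i, rfl⟩)
    have hit : ∀ (a : s) (i : ℕ), δ^[i] (B (a, 0)) = B (a, i) := by
      intro a i
      induction i with
      | zero => rfl
      | succ i ih => rw [Function.iterate_succ_apply', ih, hδ]
    refine ⟨fun i => B (b i, 0), ?_⟩
    have h1 := hB.1.comp (fun v : Fin (k + l) × ℕ => (c v.1, v.2)) (by
      intro v w hvw
      simp only [Prod.mk.injEq] at hvw
      exact Prod.ext (hcinj hvw.1) hvw.2)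
    refine (funext fun v => ?_ : B ∘ (fun v : Fin (k + l) × ℕ => (c v.1, v.2)) =
      jet δ (Fin.append x fun i => B (b i, 0))) ▸ h1
    change B (c v.1, v.2) = δ^[v.2] (Fin.append x (fun i => B (b i, 0)) v.1)
    rw [← hit]
    congr 1
    refine Fin.addCases (fun j => ?_) (fun j => ?_) v.1
    · rw [Fin.append_left]
      have h2 := he ⟨⟨x j, hxs ⟨j, rfl⟩⟩, ⟨j, rfl⟩⟩
      simp only [c, Fin.append_left, B]
      rw [show ((⟨x j, hxs ⟨j, rfl⟩⟩ : s), 0) = e ⟨x j, hxs ⟨j, rfl⟩⟩ from h2.symm,
        Equiv.symm_apply_apply]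
    · rw [Fin.append_right]
      simp only [c, Fin.append_right]

end Pool.Agent.FN
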