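import Pool.Agent.FN.Defs

/-! # A derivation with given values on a transcendence basis -/

namespace Pool.Agent.FN

open MvPolynomial TensorProduct

/-- extension of a derivation along a formally etale map -/
theorem ext_der (K A T : Type) [CommRing K] [CommRing A] [CommRing T] [Algebra K A] [Algebra K T]
    [Algebra A T] [IsScalarTower K A T] [Algebra.FormallyEtale A T] (d : Derivation K A T) :
    ∃ δ : Derivation K T T, ∀ a : A, δ (algebraMap A T a) = d a := by
  let φ : Ω[A⁄K] →ₗ[A] T := d.liftKaehlerDifferential
  let ψ : T ⊗[A] Ω[A⁄K] →ₗ[T] T := φ.liftBaseChange T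
  let e := KaehlerDifferential.tensorKaehlerEquivOfFormallyEtale K A T
  refine ⟨(ψ.comp e.symm.toLinearMap).compDer (KaehlerDifferential.D K T), fun a => ?_⟩
  change ψ (e.symm (KaehlerDifferential.D K T (algebraMap A T a))) = d a
  rw [KaehlerDifferential.tensorKaehlerEquivOfFormallyEtale_symm_D_algebraMap,
    LinearMap.liftBaseChange_tmul, one_smul]
  exact d.liftKaehlerDifferential_comp_D a

/-- a derivation with given values on a transcendence basis -/
theorem exists_der_basis {K L : Type} [Field K] [Field L] [Algebra K L] [CharZero K] {ι : Type}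
    (B : ι → L) (hB : IsTranscendenceBasis K B) (g : ι → L) :
    ∃ δ : Derivation K L L, ∀ i, δ (B i) = g i := by
  let A := MvPolynomial ι K
  let φ : A →ₐ[K] L := aeval B
  have hinj : Function.Injective φ := hB.1
  let _ : Algebra A L := φ.toRingHom.toAlgebra
  have hsc : IsScalarTower K A L := IsScalarTower.of_algebraMap_eq fun c => by
    change _ = aeval B (algebraMap K A c)
    rw [AlgHom.commutes]
  let F := FractionRing A
  have hfs : FaithfulSMul A L := (faithfulSMul_iff_algebraMap_injective A L).2 hinj
  let _ : Algebra F L := FractionRing.liftAlgebra A L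
  have hsc2 : IsScalarTower A F L := inferInstance
  have hchar : CharZero F := by
    have : CharZero A := inferInstance
    exact IsFractionRing.charZero A
  have hAlgA : Algebra.IsAlgebraic A L := by
    have h1 := hB.isAlgebraic
    refine Algebra.IsAlgebraic.of_ringHom_of_comp_eq (S := Algebra.adjoin K (Set.range B))
      (B := L) hB.1.aevalEquiv.toRingHom (RingHom.id L)
      hB.1.aevalEquiv.surjective Function.injective_id ?_
    refine RingHom.ext fun p => ?_
    rfl
  have hAlg : Algebra.IsAlgebraic F L := (IsFractionRing.comap_isAlgebraic_iff (A := A)).1 hAlgA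
  have h1 : Algebra.FormallyEtale A F := Algebra.FormallyEtale.of_isLocalization (nonZeroDivisors A)
  have h2 : Algebra.FormallyEtale F L := Algebra.FormallyEtale.of_isSeparable F L
  have h3 : Algebra.FormallyEtale A L := Algebra.FormallyEtale.comp A F L
  obtain ⟨δ, hδ⟩ := ext_der K A L (mkDerivation K g)
  refine ⟨δ, fun i => ?_⟩
  have h4 := hδ (X i)
  rw [mkDerivation_X] at h4
  rw [← h4]
  congr 1
  exact (aeval_X B i).symm

end Pool.Agent.FN
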