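import Pool.Agent.FN.DerA

/-! # Derivations and algebraic closures; the kernel of a shift derivation -/

namespace Pool.Agent.FN

open Polynomial

variable {K L : Type} [Field K] [Field L] [Algebra K L]

theorem der_aeval (δ : Derivation K L L) (R : Subalgebra K L) (h : L) (p : R[X]) :
    δ (aeval h p) = (p.sum fun i c => δ (c : L) * h ^ i) + aeval h (derivative p) * δ h := by
  induction p using Polynomial.induction_on' with
  | add p q hp hq =>
    rw [map_add, map_add, hp, hq, derivative_add, map_add,
      Polynomial.sum_add_index p q _ (fun i => by simp) (fun i a b => by simp [add_mul])]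
    ring
  | monomial n a =>
    rw [aeval_monomial, Derivation.leibniz, Derivation.leibniz_pow, derivative_monomial,
      aeval_monomial, Polynomial.sum_monomial_index _ _ (by simp)]
    have e : algebraMap R L a = (a : L) := rfl
    simp only [smul_eq_mul, nsmul_eq_mul, map_mul, map_natCast, e]
    ring

theorem alg_sum {R A : Type} [CommRing R] [IsDomain R] [CommRing A] [Algebra R A] {ι : Type}
    (s : Finset ι) (f : ι → A) (h : ∀ i ∈ s, IsAlgebraic R (f i)) :
    IsAlgebraic R (∑ i ∈ s, f i) := by
  classical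
  induction s using Finset.induction_on with
  | empty =>
    rw [Finset.sum_empty]
    exact isAlgebraic_zero
  | insert a s ha ih =>
    rw [Finset.sum_insert ha]
    exact (h a (Finset.mem_insert_self _ _)).add (ih fun i hi => h i (Finset.mem_insert_of_mem hi))

theorem der_alg [CharZero K] (δ : Derivation K L L) {S T : Set L}
    (hST : ∀ a ∈ S, IsAlgebraic (Algebra.adjoin K T) a)
    (hS : ∀ a ∈ S, IsAlgebraic (Algebra.adjoin K T) (δ a)) {h : L}
    (hh : IsAlgebraic (Algebra.adjoin K S) h) : IsAlgebraic (Algebra.adjoin K T) (δ h) := by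
  have h1 : ∀ a ∈ Algebra.adjoin K S, IsAlgebraic (Algebra.adjoin K T) a ∧
      IsAlgebraic (Algebra.adjoin K T) (δ a) := by
    intro a ha
    induction ha using Algebra.adjoin_induction with
    | mem x hx => exact ⟨hST x hx, hS x hx⟩
    | algebraMap r =>
      refine ⟨isAlgebraic_algebraMap (⟨algebraMap K L r, Subalgebra.algebraMap_mem _ r⟩ :
        Algebra.adjoin K T), ?_⟩
      rw [δ.map_algebraMap]
      exact isAlgebraic_zero
    | add x y _ _ hx hy =>
      rw [map_add]
      exact ⟨hx.1.add hy.1, hx.2.add hy.2⟩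
    | mul x y _ _ hx hy =>
      rw [Derivation.leibniz, smul_eq_mul, smul_eq_mul]
      exact ⟨hx.1.mul hy.1, (hx.1.mul hy.2).add (hy.1.mul hx.2)⟩
  have hh' : IsAlgebraic (Algebra.adjoin K T) h :=
    hh.adjoin_of_forall_isAlgebraic fun x hx => hST x hx.1
  have hL : CharZero L := charZero_of_injective_algebraMap (algebraMap K L).injective
  have hR : CharZero (Algebra.adjoin K S) :=
    charZero_of_injective_algebraMap (FaithfulSMul.algebraMap_injective K (Algebra.adjoin K S))
  -- a relation of minimal degree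
  obtain ⟨p, hp0, hp, hmin⟩ : ∃ p : (Algebra.adjoin K S)[X], p ≠ 0 ∧ aeval h p = 0 ∧
      ∀ q : (Algebra.adjoin K S)[X], q ≠ 0 → aeval h q = 0 → p.natDegree ≤ q.natDegree := by
    classical
    have h2 : ∃ n, ∃ p : (Algebra.adjoin K S)[X], p ≠ 0 ∧ aeval h p = 0 ∧ p.natDegree = n := by
      obtain ⟨p, hp0, hp⟩ := hh
      exact ⟨_, p, hp0, hp, rfl⟩
    obtain ⟨p, hp0, hp, hn⟩ := Nat.find_spec h2
    exact ⟨p, hp0, hp, fun q hq0 hq => hn ▸ Nat.find_min' h2 ⟨q, hq0, hq, rfl⟩⟩
  have hd : aeval h (derivative p) ≠ 0 := by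
    intro h0
    have hpd : p.natDegree ≠ 0 := by
      intro h3
      rw [eq_C_of_natDegree_eq_zero h3, aeval_C] at hp
      have h4 : p.coeff 0 = 0 := Subtype.ext hp
      exact hp0 (by rw [eq_C_of_natDegree_eq_zero h3, h4, C_0])
    have hd0 : derivative p ≠ 0 := by
      intro h5
      have := (derivative_eq_zero (p := p)).1 h5
      exact hpd this
    exact absurd (hmin _ hd0 h0) (not_le.2 (natDegree_derivative_lt hpd))
  have h6 := der_aeval δ _ h p
  rw [hp, map_zero] at h6
  have h7 : δ h = -(p.sum fun i c => δ (c : L) * h ^ i) * (aeval h (derivative p))⁻¹ := by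
    field_simp
    linear_combination -h6
  rw [h7]
  refine IsAlgebraic.mul (IsAlgebraic.neg ?_) (IsAlgebraic.inv ?_)
  · rw [Polynomial.sum_def]
    refine alg_sum _ _ fun i _ => ?_
    exact ((h1 _ (p.coeff i).2).2).mul (hh'.pow i)
  · rw [aeval_eq_sum_range]
    refine alg_sum _ _ fun i _ => ?_
    rw [Algebra.smul_def]
    exact ((h1 _ (((derivative p).coeff i).2)).1).mul (hh'.pow i)

end Pool.Agent.FN
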