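import Pool.Agent.FN.DerB

/-! # The kernel of a shift derivation -/

namespace Pool.Agent.FN

open Set

variable {K L : Type} [Field K] [Field L] [Algebra K L]

theorem mem_cl {S : Set L} {a : L} :
    a ∈ (AlgebraicIndependent.matroid K L).closure S ↔ IsAlgebraic (Algebra.adjoin K S) a := by
  rw [AlgebraicIndependent.matroid_closure_eq]
  exact Iff.rfl

theorem isAlgebraic_bot {f : L} (h : IsAlgebraic (⊥ : Subalgebra K L) f) : IsAlgebraic K f := by
  refine h.of_ringHom_of_comp_eq (algebraMap K (⊥ : Subalgebra K L)) (RingHom.id L) ?_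
    Function.injective_id rfl
  rintro ⟨x, hx⟩
  obtain ⟨c, hc⟩ := Algebra.mem_bot.1 hx
  exact ⟨c, Subtype.ext hc⟩

theorem ker_shift [CharZero K] {κ : Type} (B : κ × ℕ → L) (hB : IsTranscendenceBasis K B)
    (δ : Derivation K L L) (hδ : ∀ v : κ × ℕ, δ (B v) = B (v.1, v.2 + 1)) {f : L}
    (hf : δ f = 0) : IsAlgebraic K f := by
  classical
  by_contra hK
  let M := AlgebraicIndependent.matroid K L
  have hinj : Function.Injective B := hB.1.injective
  have hBI : M.Indep (range B) := by
    rw [AlgebraicIndependent.matroid_indep_iff]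
    exact (algebraicIndependent_subtype_range hinj).2 hB.1
  have hfB : f ∈ M.closure (range B) := by
    rw [mem_cl]
    exact hB.isAlgebraic.isAlgebraic f
  -- a minimal finite subset
  have hex : ∃ n, ∃ I : Finset (κ × ℕ), I.card = n ∧ f ∈ M.closure (B '' I) := by
    obtain ⟨I, hIB, hIf, -, hI⟩ := Matroid.exists_mem_finite_closure_of_mem_closure hfB
    obtain ⟨J, hJ⟩ : ∃ J : Finset (κ × ℕ), B '' J = I := by
      refine ⟨(hIf.preimage hinj.injOn).toFinset, ?_⟩
      rw [Set.Finite.coe_toFinset, Set.image_preimage_eq_of_subset hIB]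
    exact ⟨_, J, rfl, hJ.symm ▸ hI⟩
  obtain ⟨I, hIc, hI⟩ := Nat.find_spec hex
  have hmin : ∀ J : Finset (κ × ℕ), J.card < I.card → f ∉ M.closure (B '' J) := by
    intro J hJ h
    exact absurd (Nat.find_min' hex ⟨J, rfl, h⟩) (not_le.2 (hIc ▸ hJ))
  have hne : I.Nonempty := by
    rw [Finset.nonempty_iff_ne_empty]
    rintro rfl
    refine hK ?_
    rw [Finset.coe_empty, Set.image_empty, mem_cl] at hI
    rw [Algebra.adjoin_empty] at hI
    exact isAlgebraic_bot hI
  obtain ⟨b, hbI, hbmax⟩ := Finset.exists_max_image I (fun v => v.2) hne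
  have hJ : f ∉ M.closure (B '' (I.erase b : Finset (κ × ℕ))) :=
    hmin _ (Finset.card_erase_lt_of_mem hbI)
  have hbI' : insert (B b) (B '' (I.erase b : Finset (κ × ℕ))) = B '' I := by
    rw [← Set.image_insert_eq, ← Finset.coe_insert, Finset.insert_erase hbI]
  have h1 : B b ∈ M.closure (insert f (B '' (I.erase b : Finset (κ × ℕ)))) := by
    refine Matroid.mem_closure_insert hJ ?_
    rw [hbI']
    exact hI
  let σ : κ × ℕ → κ × ℕ := fun v => (v.1, v.2 + 1)
  let T : Set L := insert f (B '' (I.erase b : Finset (κ × ℕ)) ∪ B '' (σ '' (I.erase b : Finset (κ × ℕ))))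
  have h2 : IsAlgebraic (Algebra.adjoin K T) (δ (B b)) := by
    refine der_alg δ (S := insert f (B '' (I.erase b : Finset (κ × ℕ)))) ?_ ?_ (mem_cl.1 h1)
    · intro a ha
      refine isAlgebraic_algebraMap (⟨a, Algebra.subset_adjoin ?_⟩ : Algebra.adjoin K T)
      exact Set.insert_subset_insert Set.subset_union_left ha
    · rintro a (rfl | ⟨v, hv, rfl⟩)
      · rw [hf]
        exact isAlgebraic_zero
      · rw [hδ]
        refine isAlgebraic_algebraMap (⟨B (σ v), Algebra.subset_adjoin ?_⟩ : Algebra.adjoin K T)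
        exact Or.inr (Or.inr ⟨σ v, ⟨v, hv, rfl⟩, rfl⟩)
  rw [hδ, ← mem_cl] at h2
  have h3 : M.closure T ⊆ M.closure (range B \ {B (σ b)}) := by
    refine Matroid.closure_subset_closure_of_subset_closure ?_
    have hsub : ∀ S : Set (κ × ℕ), σ b ∉ S → B '' S ⊆ range B \ {B (σ b)} := by
      rintro S hS - ⟨v, hv, rfl⟩
      refine ⟨⟨v, rfl⟩, ?_⟩
      rintro h
      exact hS (hinj h ▸ hv)
    have hI1 : σ b ∉ (I : Set (κ × ℕ)) := by
      intro h
      have := hbmax _ (Finset.mem_coe.1 h)
      exact absurd this (by simp [σ])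
    rintro a (rfl | ha)
    · exact M.closure_subset_closure (hsub _ hI1) hI
    · refine (Matroid.subset_closure_of_subset M ?_ (Set.subset_univ _) :
        B '' (I.erase b : Finset (κ × ℕ)) ∪ B '' (σ '' (I.erase b : Finset (κ × ℕ))) ⊆
          M.closure (range B \ {B (σ b)})) ha
      refine Set.union_subset (hsub _ fun h => hI1 (Finset.coe_subset.2 (Finset.erase_subset _ _) h))
        (hsub _ ?_)
      rintro ⟨v, hv, hvb⟩
      have : v = b := by
        simp only [σ, Prod.mk.injEq, Nat.add_right_cancel_iff] at hvb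
        exact Prod.ext hvb.1 hvb.2
      rw [this] at hv
      exact absurd rfl (Finset.ne_of_mem_erase (Finset.mem_coe.1 hv))
  exact (hBI.notMem_closure_sdiff_of_mem ⟨σ b, rfl⟩) (h3 h2)

end Pool.Agent.FN
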