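import Pool.Agent.FN.Main

/-! # Groups of finite rank -/

namespace Pool.Agent.FN

open MvPolynomial

/-- from complex to algebraic coefficients -/
theorem exists_proj {K L σ : Type} [Field K] [Field L] [Algebra K L] (Q : MvPolynomial σ L)
    (hQ : Q ≠ 0) : ∃ Q' : MvPolynomial σ K, Q' ≠ 0 ∧ Q'.totalDegree ≤ Q.totalDegree ∧
      ∀ m : σ → K, eval (fun i => algebraMap K L (m i)) Q = 0 → eval m Q' = 0 := by
  classical
  obtain ⟨s0, hs0⟩ := MvPolynomial.ne_zero_iff.1 hQ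
  obtain ⟨φ, hφ⟩ : ∃ φ : Module.Dual K L, φ (Q.coeff s0) ≠ 0 := by
    by_contra h
    push Not at h
    exact hs0 ((Module.forall_dual_apply_eq_zero_iff K _).1 h)
  refine ⟨∑ s ∈ Q.support, monomial s (φ (Q.coeff s)), ?_, ?_, fun m hm => ?_⟩
  · refine MvPolynomial.ne_zero_iff.2 ⟨s0, ?_⟩
    rw [coeff_sum]
    simp only [coeff_monomial]
    rw [Finset.sum_ite_eq' Q.support s0, if_pos (mem_support_iff.2 hs0)]
    exact hφ
  · refine totalDegree_finsetSum_le fun s hs => ?_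
    exact (totalDegree_monomial_le _ _).trans (le_totalDegree hs)
  · rw [eval_eq] at hm
    have h1 := congrArg φ hm
    rw [map_sum, map_zero] at h1
    rw [map_sum, ← h1]
    refine Finset.sum_congr rfl fun s _ => ?_
    rw [eval_monomial, Finsupp.prod]
    have h2 : (∏ i ∈ s.support, algebraMap K L (m i) ^ s i) =
        algebraMap K L (∏ i ∈ s.support, m i ^ s i) := by
      rw [map_prod]
      exact Finset.prod_congr rfl fun i _ => (map_pow _ _ _).symm
    rw [h2, mul_comm (Q.coeff s), ← Algebra.smul_def, map_smul, smul_eq_mul, mul_comm]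

/-- the jets of linearly independent numbers span -/
theorem exists_comb {K L : Type} [Field K] [Field L] [Algebra K L] (δ : Derivation K L L)
    (hδ : CK δ) {r R : ℕ} (hr : r ≤ R) (v : Fin R → L) (hv : LinearIndependent K v)
    (w : Fin r → L) : ∃ c : Fin R → L, ∀ a : Fin r, ∑ j, c j * δ^[(a : ℕ)] (v j) = w a := by
  classical
  have h1 := wr_ne_zero δ hδ (fun j : Fin r => v (Fin.castLE hr j))
    (hv.comp _ (Fin.castLE_injective hr))
  let M : Matrix (Fin r) (Fin r) L := Matrix.of fun i j => δ^[(i : ℕ)] (v (Fin.castLE hr j))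
  have hM : IsUnit M.det := (isUnit_iff_ne_zero).2 h1
  let c0 : Fin r → L := M⁻¹.mulVec w
  have hc0 : M.mulVec c0 = w := by
    rw [Matrix.mulVec_mulVec, Matrix.mul_nonsing_inv _ hM, Matrix.one_mulVec]
  refine ⟨fun j => if h : (j : ℕ) < r then c0 ⟨j, h⟩ else 0, fun a => ?_⟩
  have h2 := congrFun hc0 a
  rw [← h2]
  change _ = ∑ j : Fin r, M a j * c0 j
  rw [← Finset.sum_subset (Finset.subset_univ (Finset.univ.map (Fin.castLEEmb hr)))]
  · rw [Finset.sum_map]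
    refine Finset.sum_congr rfl fun j _ => ?_
    have e : (if h : ((Fin.castLE hr j : Fin R) : ℕ) < r then c0 ⟨_, h⟩ else 0) = c0 j := by
      rw [dif_pos (show ((Fin.castLE hr j : Fin R) : ℕ) < r from j.2)]
      rfl
    change (if h : ((Fin.castLE hr j : Fin R) : ℕ) < r then c0 ⟨_, h⟩ else 0) *
      δ^[(a : ℕ)] (v (Fin.castLE hr j)) = δ^[(a : ℕ)] (v (Fin.castLE hr j)) * c0 j
    rw [e, mul_comm]
  · intro j _ hj
    have e : (if h : (j : ℕ) < r then c0 ⟨_, h⟩ else 0) = 0 := by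
      rw [dif_neg]
      intro h
      exact hj (Finset.mem_map.2 ⟨⟨j, h⟩, Finset.mem_univ _, Fin.ext rfl⟩)
    change (if h : (j : ℕ) < r then c0 ⟨_, h⟩ else 0) * δ^[(a : ℕ)] (v j) = 0
    rw [e, zero_mul]

/-- the exceptional coefficients lie on a hypersurface of bounded degree -/
theorem finR_core {l E r : ℕ} {δ : Derivation KA ℂ ℂ} (hδ : CK δ)
    (Ψ : MvPolynomial (Fin l × ℕ) ℂ) (h0 : Ψ ≠ 0) (hE : Ψ.totalDegree ≤ E)
    (hr : ∀ v ∈ Ψ.vars, v.2 < r) (t : Fin l → ℂ) {R : ℕ} (hR : r ≤ R) (v : Fin l → Fin R → ℂ)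
    (hv : ∀ i, LinearIndependent KA (v i)) :
    ∃ Q : MvPolynomial (Fin l × Fin R) KA, Q ≠ 0 ∧ Q.totalDegree ≤ E ∧
      ∀ m : Fin l × Fin R → KA, eval (jet δ fun i => t i + ∑ j, m (i, j) • v i j) Ψ = 0 →
        eval m Q = 0 := by
  classical
  let η : Fin l × ℕ → MvPolynomial (Fin l × Fin R) ℂ := fun b =>
    C (δ^[b.2] (t b.1)) + ∑ j, C (δ^[b.2] (v b.1 j)) * X (b.1, j)
  have hη : ∀ b, (η b).totalDegree ≤ 1 := by
    intro b
    refine (totalDegree_add _ _).trans (max_le ?_ ?_)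
    · rw [totalDegree_C]
      exact Nat.zero_le _
    · refine totalDegree_finsetSum_le fun j _ => ?_
      refine (totalDegree_mul _ _).trans ?_
      rw [totalDegree_C, totalDegree_X]
  let Q0 : MvPolynomial (Fin l × Fin R) ℂ := bind₁ η Ψ
  have hQ0E : Q0.totalDegree ≤ E := (totalDegree_bind_le η hη Ψ).trans hE
  have hev : ∀ c : Fin l × Fin R → ℂ, eval c Q0 =
      eval (fun b : Fin l × ℕ => δ^[b.2] (t b.1) + ∑ j, c (b.1, j) * δ^[b.2] (v b.1 j)) Ψ := by
    intro c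
    change eval c (bind₁ η Ψ) = _
    rw [← aeval_eq_eval, aeval_bind₁, ← aeval_eq_eval]
    congr 2
    funext b
    simp only [η, map_add, map_sum, map_mul, aeval_C, aeval_X]
    congr 1
    refine Finset.sum_congr rfl fun j _ => ?_
    exact mul_comm _ _
  have hQ0 : Q0 ≠ 0 := by
    intro hQ
    have h2 : ∃ w : Fin l × ℕ → ℂ, eval w Ψ ≠ 0 := by
      by_contra hcon
      push Not at hcon
      exact h0 (MvPolynomial.funext fun w => by rw [hcon w, map_zero])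
    obtain ⟨w, hw⟩ := h2
    have h3 : ∀ i : Fin l, ∃ c : Fin R → ℂ, ∀ a : Fin r,
        ∑ j, c j * δ^[(a : ℕ)] (v i j) = w (i, a) - δ^[(a : ℕ)] (t i) := fun i =>
      exists_comb δ hδ hR (v i) (hv i) _
    choose c hc using h3
    refine hw ?_
    have h4 := hev fun q => c q.1 q.2
    rw [hQ, map_zero] at h4
    refine Eq.trans ?_ h4.symm
    rw [eval_eq, eval_eq]
    refine Finset.sum_congr rfl fun b hb => ?_
    congr 1
    refine Finset.prod_congr rfl fun i hi => ?_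
    have h5 := hc i.1 ⟨i.2, hr i ((mem_vars_iff_mem_support i).2 ⟨b, hb, hi⟩)⟩
    have h6 : w i = δ^[i.2] (t i.1) + ∑ j, c i.1 j * δ^[i.2] (v i.1 j) := by
      rw [h5]
      ring
    rw [h6]
  obtain ⟨Q, hQ, hQE, hQm⟩ := exists_proj (K := KA) Q0 hQ0
  refine ⟨Q, hQ, hQE.trans hQ0E, fun m hm => hQm m ?_⟩
  rw [hev, ← hm]
  congr 2
  funext b
  have hp : ∀ z : ℂ, δ^[b.2] z = ((δ.toLinearMap : Module.End KA ℂ) ^ b.2) z := fun z =>
    (Module.End.pow_apply _ _ _).symm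
  change δ^[b.2] (t b.1) + ∑ j, algebraMap KA ℂ (m (b.1, j)) * δ^[b.2] (v b.1 j) =
    δ^[b.2] (t b.1 + ∑ j, m (b.1, j) • v b.1 j)
  rw [hp (t b.1 + _), map_add, map_sum, ← hp]
  congr 1
  refine Finset.sum_congr rfl fun j _ => ?_
  rw [map_smul, ← hp, Algebra.smul_def]

/-- finite rank -/
theorem finR (k l s : ℕ) : ∃ E r : ℕ, ∀ x : Fin k → ℂ, AlgebraicIndependent ℚ x →
    ∀ (t : Fin l → ℂ) (R : ℕ), r ≤ R → ∀ v : Fin l → Fin R → ℂ,
      (∀ i, LinearIndependent KA (v i)) →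
      ∃ Q : MvPolynomial (Fin l × Fin R) KA, Q ≠ 0 ∧ Q.totalDegree ≤ E ∧
        ∀ m : Fin l × Fin R → KA, RelK s (Fin.append x fun i => t i + ∑ j, m (i, j) • v i j) →
          eval m Q = 0 := by
  obtain ⟨E, r, hk⟩ := key k l s
  refine ⟨E, r, fun x hx t R hR v hv => ?_⟩
  obtain ⟨δ, hδ, Ψ, h0, hE, hr, h⟩ := hk x hx
  obtain ⟨Q, hQ, hQE, hQm⟩ := finR_core hδ Ψ h0 hE hr t hR v hv
  exact ⟨Q, hQ, hQE, fun m hm => hQm m (h _ hm)⟩

end Pool.Agent.FN
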