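import Pool.Agent.FN.Defs

/-! # Relations between jets which hold for all derivations -/

namespace Pool.Agent.FN

open MvPolynomial

/-- one nonzero relation of degree and order `≤ D` holds for the jets of `y`, whatever the derivation -/
def IRel (K : Type) {L : Type} [Field K] [Field L] [Algebra K L] (D : ℕ) {n : ℕ}
    (y : Fin n → L) : Prop :=
  ∃ G : MvPolynomial (Fin n × ℕ) K, G ≠ 0 ∧ Bdd D G ∧
    ∀ δ : Derivation K L L, CK δ → Full δ → aeval (jet δ y) G = 0

/-- the same for the jets of polynomials `u` in `y`; the relation is not an identity -/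
def URel {K L : Type} [Field K] [Field L] [Algebra K L] (D : ℕ) {n N : ℕ}
    (u : Fin N → MvPolynomial (Fin n × ℕ) K) (y : Fin n → L) : Prop :=
  ∃ Φ : MvPolynomial (Fin N × ℕ) K, Bdd D Φ ∧ aeval (jet (sh K n) u) Φ ≠ 0 ∧
    ∀ δ : Derivation K L L, CK δ → Full δ → aeval (jet δ y) (aeval (jet (sh K n) u) Φ) = 0

end Pool.Agent.FN
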