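import Pool.Agent.FN.Defs

/-! # The Wronskian of linearly independent elements -/

namespace Pool.Agent.FN

open MvPolynomial

variable {K L : Type} [Field K] [Field L] [Algebra K L]

theorem wr_key (δ : Derivation K L L) (hδ : CK δ) : ∀ (r : ℕ) (v : Fin r → L),
    LinearIndependent K v → ∀ c : Fin r → L,
      (∀ i : ℕ, i < r → ∑ j, c j * δ^[i] (v j) = 0) → c = 0 := by
  intro r
  induction r with
  | zero =>
    intro v _ c _
    exact funext fun j => j.elim0
  | succ r ih =>
    intro v hv c hc
    by_contra hne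
    obtain ⟨j0, hj0⟩ : ∃ j0, c j0 ≠ 0 := by
      by_contra hcon
      push Not at hcon
      exact hne (funext hcon)
    -- normalise
    obtain ⟨d, hd⟩ : ∃ d : Fin (r + 1) → L, d = fun j => c j / c j0 := ⟨_, rfl⟩
    have hd0 : d j0 = 1 := by rw [hd]; exact div_self hj0
    have hds : ∀ i : ℕ, i < r + 1 → ∑ j, d j * δ^[i] (v j) = 0 := by
      intro i hi
      have h1 := hc i hi
      have h2 : ∑ j, d j * δ^[i] (v j) = (∑ j, c j * δ^[i] (v j)) / c j0 := by
        rw [Finset.sum_div]
        refine Finset.sum_congr rfl fun j _ => ?_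
        rw [hd]
        simp only
        ring
      rw [h2, h1, zero_div]
    have hdd : ∀ i : ℕ, i < r → ∑ j, δ (d j) * δ^[i] (v j) = 0 := by
      intro i hi
      have h1 := congrArg δ (hds i (by omega))
      rw [map_sum, map_zero] at h1
      have h2 : ∀ j, δ (d j * δ^[i] (v j)) = d j * δ^[i + 1] (v j) + δ (d j) * δ^[i] (v j) := by
        intro j
        rw [Derivation.leibniz, Function.iterate_succ_apply', smul_eq_mul, smul_eq_mul]
        ring
      rw [Finset.sum_congr rfl fun j _ => h2 j, Finset.sum_add_distrib, hds (i + 1) (by omega),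
        zero_add] at h1
      exact h1
    have hδ1 : δ (d j0) = 0 := by rw [hd0, Derivation.map_one_eq_zero]
    have hv' : LinearIndependent K (v ∘ j0.succAbove) :=
      hv.comp _ Fin.succAbove_right_injective
    have h3 := ih (v ∘ j0.succAbove) hv' (fun k => δ (d (j0.succAbove k))) (by
      intro i hi
      have h4 := hdd i hi
      rw [Fin.sum_univ_succAbove _ j0, hδ1, zero_mul, zero_add] at h4
      exact h4)
    have h5 : ∀ j, δ (d j) = 0 := by
      intro j
      by_cases hj : j = j0
      · rw [hj, hδ1]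
      · obtain ⟨k, rfl⟩ := Fin.exists_succAbove_eq hj
        exact congrFun h3 k
    choose e he using fun j => hδ _ (h5 j)
    have h6 : ∑ j, e j • v j = 0 := by
      have h7 := hds 0 (by omega)
      simp only [Function.iterate_zero, id_eq] at h7
      rw [← h7]
      refine Finset.sum_congr rfl fun j _ => ?_
      rw [Algebra.smul_def, he]
    have h8 := (Fintype.linearIndependent_iff.1 hv) e h6 j0
    have h9 : d j0 = 0 := by rw [← he j0, h8, map_zero]
    rw [hd0] at h9
    exact one_ne_zero h9

theorem wr_ne_zero (δ : Derivation K L L) (hδ : CK δ) {r : ℕ} (v : Fin r → L)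
    (hv : LinearIndependent K v) : (Matrix.of fun i j : Fin r => δ^[(i : ℕ)] (v j)).det ≠ 0 := by
  intro h
  obtain ⟨c, hc0, hc⟩ := Matrix.exists_mulVec_eq_zero_iff.2 h
  refine hc0 (wr_key δ hδ r v hv c fun i hi => ?_)
  have h1 := congrFun hc ⟨i, hi⟩
  rw [Matrix.mulVec, dotProduct] at h1
  simp only [Matrix.of_apply, Pi.zero_apply] at h1
  rw [← h1]
  exact Finset.sum_congr rfl fun j _ => mul_comm _ _

end Pool.Agent.FN
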