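import Mathlib
import Pool.Agent.FN.Defs
import Pool.Agent.FN.Wr

set_option autoImplicit false

/-!
# Relations with few terms: the Wronskian of the jet monomials
-/

namespace Pool.Agent.FN

open MvPolynomial

namespace PsiA

variable {K L : Type} [Field K] [Field L] [Algebra K L] {n : ℕ}

/-- the derivation of the ring of jet polynomials -/
noncomputable def dd (K : Type) [Field K] (n : ℕ) :
    Derivation K (MvPolynomial (Fin n × ℕ) K) (MvPolynomial (Fin n × ℕ) K) :=
  mkDerivation K fun v => X (v.1, v.2 + 1)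

theorem dd_X (v : Fin n × ℕ) : dd K n (X v) = X (v.1, v.2 + 1) := mkDerivation_X _ _ _

theorem aeval_dd (δ : Derivation K L L) (y : Fin n → L) (P : MvPolynomial (Fin n × ℕ) K) :
    aeval (jet δ y) (dd K n P) = δ (aeval (jet δ y) P) := by
  induction P using MvPolynomial.induction_on with
  | C a =>
    rw [← algebraMap_eq, Derivation.map_algebraMap, map_zero, AlgHom.commutes,
      Derivation.map_algebraMap]
  | add P Q hP hQ => rw [map_add, map_add, map_add, map_add, hP, hQ]
  | mul_X P v hP =>
    rw [Derivation.leibniz, map_mul, Derivation.leibniz, map_add, smul_eq_mul, smul_eq_mul, map_mul,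
      map_mul, hP, dd_X, aeval_X, aeval_X, smul_eq_mul, smul_eq_mul]
    congr 2
    unfold jet
    exact Function.iterate_succ_apply' _ _ _

theorem aeval_dd_iter (δ : Derivation K L L) (y : Fin n → L) (i : ℕ)
    (P : MvPolynomial (Fin n × ℕ) K) :
    aeval (jet δ y) ((dd K n)^[i] P) = δ^[i] (aeval (jet δ y) P) := by
  induction i with
  | zero => rfl
  | succ i ih => rw [Function.iterate_succ_apply', Function.iterate_succ_apply', aeval_dd, ih]

theorem deg_dd (P : MvPolynomial (Fin n × ℕ) K) :
    (dd K n P).totalDegree ≤ P.totalDegree := by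
  classical
  conv_lhs => rw [P.as_sum, map_sum]
  refine totalDegree_finsetSum_le fun s hs => ?_
  unfold dd
  rw [mkDerivation_monomial]
  refine (totalDegree_smul_le _ _).trans ?_
  rw [Finsupp.sum]
  refine totalDegree_finsetSum_le fun i hi => ?_
  rw [smul_eq_mul]
  refine (totalDegree_mul _ _).trans ?_
  refine (add_le_add (totalDegree_monomial_le _ _) (totalDegree_X _).le).trans ?_
  have h1 : s - Finsupp.single i 1 + Finsupp.single i 1 = s :=
    tsub_add_cancel_of_le (by
      rw [Finsupp.single_le_iff]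
      exact Nat.one_le_iff_ne_zero.2 (Finsupp.mem_support_iff.1 hi))
  have h2 : (s.sum fun _ e => e) = ((s - Finsupp.single i 1).sum fun _ e => e) + 1 := by
    conv_lhs => rw [← h1]
    rw [Finsupp.sum_add_index' (fun _ => rfl) (fun _ _ _ => rfl), Finsupp.sum_single_index rfl]
  exact h2.symm.le.trans (le_totalDegree hs)

theorem deg_dd_iter (i : ℕ) (P : MvPolynomial (Fin n × ℕ) K) :
    ((dd K n)^[i] P).totalDegree ≤ P.totalDegree := by
  induction i with
  | zero => exact le_rfl
  | succ i ih =>
    rw [Function.iterate_succ_apply']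
    exact (deg_dd _).trans ih

/-- the polynomials of order at most `o` -/
noncomputable def Or (K : Type) [Field K] (n o : ℕ) : Subalgebra K (MvPolynomial (Fin n × ℕ) K) :=
  supported K {v : Fin n × ℕ | v.2 ≤ o}

theorem Or_mono {o o' : ℕ} (h : o ≤ o') : Or K n o ≤ Or K n o' :=
  supported_mono fun _ hv => le_trans hv h

theorem dd_mem {o : ℕ} {P : MvPolynomial (Fin n × ℕ) K} (h : P ∈ Or K n o) :
    dd K n P ∈ Or K n (o + 1) := by
  have hle : Or K n o ≤ Or K n (o + 1) := Or_mono (Nat.le_succ o)
  induction h using Algebra.adjoin_induction with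
  | mem x hx =>
    obtain ⟨v, hv, rfl⟩ := hx
    rw [dd_X]
    exact Algebra.subset_adjoin ⟨_, Nat.succ_le_succ hv, rfl⟩
  | algebraMap a =>
    rw [Derivation.map_algebraMap]
    exact zero_mem _
  | add P Q _ _ hP hQ =>
    rw [map_add]
    exact add_mem hP hQ
  | mul P Q hP' hQ' hP hQ =>
    rw [Derivation.leibniz]
    exact add_mem (mul_mem (hle hP') hQ) (mul_mem (hle hQ') hP)

theorem dd_iter_mem {o : ℕ} {P : MvPolynomial (Fin n × ℕ) K} (h : P ∈ Or K n o) (i : ℕ) :
    (dd K n)^[i] P ∈ Or K n (o + i) := by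
  induction i with
  | zero => exact h
  | succ i ih =>
    rw [Function.iterate_succ_apply']
    exact dd_mem ih

/-- the index set of the jet monomials -/
abbrev Ix (n D : ℕ) : Type := Fin n × Fin (D + 1) → Fin (D + 1)

/-- the embedding of the variables -/
def emb (n D : ℕ) : Fin n × Fin (D + 1) ↪ Fin n × ℕ :=
  ⟨fun v => (v.1, (v.2 : ℕ)), fun v w h => by
    simp only [Prod.mk.injEq] at h
    exact Prod.ext h.1 (Fin.ext h.2)⟩

/-- the exponent of a jet monomial -/
noncomputable def ex {n D : ℕ} (α : Ix n D) : Fin n × ℕ →₀ ℕ :=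
  Finsupp.embDomain (emb n D) (Finsupp.equivFunOnFinite.symm fun v => (α v : ℕ))

theorem ex_apply {D : ℕ} (α : Ix n D) (v : Fin n × Fin (D + 1)) :
    ex α (emb n D v) = α v := by
  unfold ex
  rw [Finsupp.embDomain_apply_self]
  rfl

theorem ex_inj {D : ℕ} : Function.Injective (ex : Ix n D → _) := by
  intro α β h
  funext v
  have h1 := DFunLike.congr_fun h (emb n D v)
  rw [ex_apply, ex_apply] at h1
  exact Fin.ext h1

theorem ex_surj {D : ℕ} (s : Fin n × ℕ →₀ ℕ) (h1 : ∀ v, s v ≤ D)
    (h2 : ∀ v, s v ≠ 0 → v.2 ≤ D) : ∃ α : Ix n D, ex α = s := by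
  refine ⟨fun v => ⟨s (emb n D v), Nat.lt_succ_of_le (h1 _)⟩, ?_⟩
  ext w
  by_cases hw : w ∈ Set.range (emb n D)
  · obtain ⟨v, rfl⟩ := hw
    rw [ex_apply]
  · unfold ex
    rw [Finsupp.embDomain_of_notMem_range _ _ _ hw]
    by_contra hne
    exact hw ⟨(w.1, ⟨w.2, Nat.lt_succ_of_le (h2 w (Ne.symm hne))⟩), rfl⟩

/-- the jet monomials -/
noncomputable def mo (K : Type) [Field K] {n D : ℕ} (α : Ix n D) : MvPolynomial (Fin n × ℕ) K :=
  monomial (ex α) 1

theorem mo_mem {D : ℕ} (α : Ix n D) : mo K α ∈ Or K n D := by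
  unfold Or mo
  rw [mem_supported]
  intro v hv
  rw [Finset.mem_coe, vars_monomial one_ne_zero, Finsupp.mem_support_iff] at hv
  by_contra hlt
  refine hv ?_
  unfold ex
  refine Finsupp.embDomain_of_notMem_range _ _ _ ?_
  rintro ⟨w, rfl⟩
  exact hlt (Nat.le_of_lt_succ w.2.2)

theorem mo_deg {D : ℕ} (α : Ix n D) : (mo K α).totalDegree ≤ n * (D + 1) * D := by
  unfold mo
  refine (totalDegree_monomial_le _ _).trans ?_
  unfold ex
  rw [Finsupp.sum_embDomain, Finsupp.sum_fintype _ _ (fun _ => rfl)]
  calc ∑ v : Fin n × Fin (D + 1), (α v : ℕ)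
      ≤ ∑ _v : Fin n × Fin (D + 1), D := Finset.sum_le_sum fun v _ => Nat.le_of_lt_succ (α v).2
    _ = n * (D + 1) * D := by simp

theorem mo_indep {D : ℕ} : LinearIndependent K (mo K : Ix n D → _) := by
  have h := (basisMonomials (Fin n × ℕ) K).linearIndependent.comp ex (ex_inj (n := n) (D := D))
  exact h

/-- a polynomial of degree and order at most `D` is a combination of the jet monomials -/
theorem expand {D : ℕ} (G : MvPolynomial (Fin n × ℕ) K) (h1 : G.totalDegree ≤ D)
    (h2 : ∀ v ∈ G.vars, v.2 ≤ D) : G = ∑ α : Ix n D, G.coeff (ex α) • mo K α := by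
  classical
  have h3 : ∀ s ∈ G.support, ∃ α : Ix n D, ex α = s := by
    intro s hs
    refine ex_surj s (fun v => ?_) (fun v hv => ?_)
    · by_cases hv : v ∈ s.support
      · exact (Finset.single_le_sum (f := fun v => s v) (fun _ _ => Nat.zero_le _) hv).trans
          ((le_totalDegree hs).trans h1)
      · rw [Finsupp.notMem_support_iff.1 hv]
        exact Nat.zero_le _
    · exact h2 v ((mem_vars_iff_mem_support v).2 ⟨s, hs, Finsupp.mem_support_iff.2 hv⟩)
  have h4 : ∑ α : Ix n D, G.coeff (ex α) • mo K α =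
      ∑ s ∈ Finset.univ.image (ex : Ix n D → _), monomial s (G.coeff s) := by
    rw [Finset.sum_image fun α _ β _ h => ex_inj h]
    refine Finset.sum_congr rfl fun α _ => ?_
    unfold mo
    rw [smul_monomial, smul_eq_mul, mul_one]
  rw [h4]
  conv_lhs => rw [G.as_sum]
  refine Finset.sum_subset (fun s hs => ?_) (fun s _ hs => ?_)
  · obtain ⟨α, rfl⟩ := h3 s hs
    exact Finset.mem_image_of_mem _ (Finset.mem_univ _)
  · rw [notMem_support_iff.1 hs, monomial_zero]

/-- the Wronskian of the jet monomials -/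
noncomputable def wro (K : Type) [Field K] (n D : ℕ) : MvPolynomial (Fin n × ℕ) K :=
  (Matrix.of fun i j : Fin (Fintype.card (Ix n D)) =>
    (dd K n)^[(i : ℕ)] (mo K ((Fintype.equivFin (Ix n D)).symm j))).det

theorem aeval_wro (δ : Derivation K L L) (D : ℕ) (y : Fin n → L) :
    aeval (jet δ y) (wro K n D) = (Matrix.of fun i j : Fin (Fintype.card (Ix n D)) =>
      δ^[(i : ℕ)] (aeval (jet δ y) (mo K ((Fintype.equivFin (Ix n D)).symm j)))).det := by
  unfold wro
  rw [AlgHom.map_det]
  congr 1
  ext i j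
  simp only [AlgHom.mapMatrix_apply, Matrix.map_apply, Matrix.of_apply]
  exact aeval_dd_iter δ y i _

end PsiA

open PsiA

/-- The Wronskian of all the jet monomials of degree and order at most `D`. -/
theorem psi (n D : ℕ) : ∃ E r : ℕ, ∀ {K L : Type} [Field K] [Field L] [Algebra K L] [CharZero K]
    (δ : Derivation K L L), CK δ → Full δ → ∃ W : MvPolynomial (Fin n × ℕ) K, W ≠ 0 ∧
      W.totalDegree ≤ E ∧ (∀ v ∈ W.vars, v.2 < r) ∧
        ∀ y : Fin n → L, DRel δ D y → aeval (jet δ y) W = 0 := by
  classical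
  refine ⟨Fintype.card (Ix n D) * (n * (D + 1) * D), D + Fintype.card (Ix n D) + 1, ?_⟩
  intro K L _ _ _ _ δ hδ hF
  refine ⟨wro K n D, ?_, ?_, ?_, ?_⟩
  · intro h0
    obtain ⟨z, hz⟩ := hF n
    have h1 : LinearIndependent K fun j : Fin (Fintype.card (Ix n D)) =>
        aeval (jet δ z) (mo K ((Fintype.equivFin (Ix n D)).symm j)) := by
      have h2 : LinearIndependent K fun α : Ix n D => aeval (jet δ z) (mo K α) := by
        have h3 := (mo_indep (K := K) (n := n) (D := D)).map' (aeval (jet δ z)).toLinearMap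
          (LinearMap.ker_eq_bot.2 hz)
        exact h3
      exact h2.comp _ (Fintype.equivFin (Ix n D)).symm.injective
    refine wr_ne_zero δ hδ _ h1 ?_
    rw [← aeval_wro, h0, map_zero]
  · unfold wro
    rw [Matrix.det_apply]
    refine totalDegree_finsetSum_le fun σ _ => ?_
    refine (totalDegree_smul_le _ _).trans ?_
    refine (totalDegree_finsetProd _ _).trans ?_
    calc ∑ j : Fin (Fintype.card (Ix n D)), (Matrix.of (fun i j : Fin (Fintype.card (Ix n D)) =>
          (dd K n)^[(i : ℕ)] (mo K ((Fintype.equivFin (Ix n D)).symm j))) (σ j) j).totalDegree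
        ≤ ∑ _j : Fin (Fintype.card (Ix n D)), n * (D + 1) * D :=
          Finset.sum_le_sum fun j _ => (deg_dd_iter _ _).trans (mo_deg _)
      _ = Fintype.card (Ix n D) * (n * (D + 1) * D) := by simp
  · have h1 : wro K n D ∈ Or K n (D + Fintype.card (Ix n D)) := by
      unfold wro
      rw [Matrix.det_apply]
      refine sum_mem fun σ _ => ?_
      refine zsmul_mem (prod_mem fun j _ => ?_) _
      exact Or_mono (Nat.add_le_add_left (Fin.is_lt _).le _) (dd_iter_mem (mo_mem _) _)
    intro v hv
    have h2 := (mem_supported.1 h1) (Finset.mem_coe.2 hv)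
    exact Nat.lt_succ_of_le h2
  · rintro y ⟨G, hG0, hG1, hG2, hG3⟩
    rw [aeval_wro]
    rw [expand G hG1 hG2, map_sum] at hG3
    have hne : ∃ α : Ix n D, G.coeff (ex α) ≠ 0 := by
      by_contra hall
      push Not at hall
      refine hG0 ?_
      rw [expand G hG1 hG2]
      exact Finset.sum_eq_zero fun α _ => by rw [hall, zero_smul]
    rw [← Matrix.exists_mulVec_eq_zero_iff]
    refine ⟨fun j => algebraMap K L (G.coeff (ex ((Fintype.equivFin (Ix n D)).symm j))), ?_, ?_⟩
    · obtain ⟨α, hα⟩ := hne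
      intro h0
      have h1 := congrFun h0 (Fintype.equivFin (Ix n D) α)
      simp only [Equiv.symm_apply_apply, Pi.zero_apply] at h1
      exact hα ((map_eq_zero _).1 h1)
    · funext i
      simp only [Matrix.mulVec, dotProduct, Matrix.of_apply, Pi.zero_apply]
      have h1 : ∀ (i : ℕ) (c : K) (a : L), δ^[i] (c • a) = c • δ^[i] a := by
        intro i c a
        induction i with
        | zero => rfl
        | succ i ih => rw [Function.iterate_succ_apply', ih, Derivation.map_smul, Function.iterate_succ_apply']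
      have h2 : ∀ (i : ℕ) (f : Ix n D → L), δ^[i] (∑ α, f α) = ∑ α, δ^[i] (f α) := by
        intro i f
        induction i with
        | zero => rfl
        | succ i ih =>
          rw [Function.iterate_succ_apply', ih, map_sum]
          exact Finset.sum_congr rfl fun α _ => (Function.iterate_succ_apply' _ _ _).symm
      have h3 := congrArg (δ^[(i : ℕ)]) hG3
      rw [h2] at h3
      have h4 : δ^[(i : ℕ)] (0 : L) = 0 := by
        have := h1 (i : ℕ) 0 0
        rwa [zero_smul, zero_smul] at this
      rw [h4] at h3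
      rw [← h3, ← (Fintype.equivFin (Ix n D)).symm.sum_comp]
      refine Finset.sum_congr rfl fun j _ => ?_
      rw [map_smul, h1, Algebra.smul_def, mul_comm]

end Pool.Agent.FN
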