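import Pool.Agent.FN.Defs

/-! # Specialization at algebraically independent numbers -/

namespace Pool.Agent.FN

open MvPolynomial

theorem totalDegree_bind_le {σ τ R : Type} [CommRing R] (θ : σ → MvPolynomial τ R)
    (h : ∀ v, (θ v).totalDegree ≤ 1) (P : MvPolynomial σ R) :
    (bind₁ θ P).totalDegree ≤ P.totalDegree := by
  classical
  change (aeval θ P).totalDegree ≤ _
  rw [aeval_def, eval₂_eq]
  refine totalDegree_finsetSum_le fun s hs => ?_
  rw [algebraMap_eq]
  refine (totalDegree_mul _ _).trans ?_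
  rw [totalDegree_C, zero_add]
  refine (totalDegree_finsetProd _ _).trans ?_
  refine le_trans (Finset.sum_le_sum fun i _ => ?_) (le_totalDegree hs)
  refine (totalDegree_pow _ _).trans ?_
  exact (Nat.mul_le_mul_left _ (h i)).trans (mul_one _).le

variable {K L : Type} [Field K] [Field L] [Algebra K L]

theorem spec {δ : Derivation K L L} {k : ℕ} {x : Fin k → L} (hx : Gen δ x) (l E r : ℕ)
    (W : MvPolynomial (Fin (k + l) × ℕ) K) (h0 : W ≠ 0) (hE : W.totalDegree ≤ E)
    (hr : ∀ v ∈ W.vars, v.2 < r) :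
    ∃ Ψ : MvPolynomial (Fin l × ℕ) L, Ψ ≠ 0 ∧ Ψ.totalDegree ≤ E ∧ (∀ v ∈ Ψ.vars, v.2 < r) ∧
      ∀ y : Fin l → L, eval (jet δ y) Ψ = aeval (jet δ (Fin.append x y)) W := by
  classical
  let θ : Fin (k + l) × ℕ → MvPolynomial (Fin l × ℕ) L := fun v =>
    Fin.append (fun j : Fin k => (C (δ^[v.2] (x j)) : MvPolynomial (Fin l × ℕ) L))
      (fun j : Fin l => X (j, v.2)) v.1
  have hθ : ∀ v : Fin (k + l) × ℕ, (∃ c : L, θ v = C c) ∨ ∃ j : Fin l, θ v = X (j, v.2) := by
    rintro ⟨i, a⟩
    refine Fin.addCases (fun j => ?_) (fun j => ?_) i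
    · exact Or.inl ⟨δ^[a] (x j), by simp only [θ, Fin.append_left]⟩
    · exact Or.inr ⟨j, by simp only [θ, Fin.append_right]⟩
  let Ψ := bind₁ θ (map (algebraMap K L) W)
  have hev : ∀ y : Fin l → L, eval (jet δ y) Ψ = aeval (jet δ (Fin.append x y)) W := by
    intro y
    change eval (jet δ y) (bind₁ θ (map (algebraMap K L) W)) = _
    rw [← aeval_eq_eval, aeval_bind₁, aeval_map_algebraMap]
    congr 2
    funext v
    obtain ⟨i, a⟩ := v
    refine Fin.addCases (fun j => ?_) (fun j => ?_) i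
    · simp only [θ, Fin.append_left, jet, aeval_C]
      rfl
    · simp only [θ, Fin.append_right, jet, aeval_X]
  refine ⟨Ψ, ?_, ?_, ?_, hev⟩
  · intro h
    obtain ⟨z, hz⟩ := hx l
    have h1 : aeval (jet δ (Fin.append x z)) W = 0 := by
      rw [← hev z, h]
      exact map_zero _
    exact h0 ((algebraicIndependent_iff.1 hz) W h1)
  · have hm : (map (algebraMap K L) W).totalDegree ≤ W.totalDegree := by
      unfold totalDegree
      exact Finset.sup_mono (support_map_subset _ _)
    refine (totalDegree_bind_le θ (fun v => ?_) _).trans (hm.trans hE)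
    rcases hθ v with ⟨c, h⟩ | ⟨j, h⟩
    · rw [h, totalDegree_C]
      exact Nat.zero_le _
    · rw [h, totalDegree_X]
  · intro v hv
    obtain ⟨i, hi, hv⟩ := mem_vars_bind₁ _ _ hv
    have hi' := hr i (vars_map _ _ hi)
    rcases hθ i with ⟨c, h⟩ | ⟨j, h⟩
    · rw [h, vars_C] at hv
      exact absurd hv (Finset.notMem_empty _)
    · rw [h, vars_X, Finset.mem_singleton] at hv
      rw [hv]
      exact hi'

end Pool.Agent.FN
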