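import Pool.Agent.FN.Cnt
import Pool.Agent.QDen.TupT

/-! # Several logarithms: the number of the exceptional tuples -/

namespace Pool.Agent.FN

open MvPolynomial

/-- variables replaced by variables or constants: the degree does not grow -/
theorem totalDegree_subst {R σ τ : Type} [CommRing R] (f : σ → MvPolynomial τ R)
    (hf : ∀ i, (f i).totalDegree ≤ 1) (P : MvPolynomial σ R) :
    (aeval f P).totalDegree ≤ P.totalDegree := by
  classical
  rw [aeval_def, eval₂_eq]
  refine totalDegree_finsetSum_le fun m hm => ?_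
  refine (totalDegree_mul _ _).trans ?_
  rw [MvPolynomial.algebraMap_eq, totalDegree_C, zero_add]
  refine (totalDegree_finsetProd _ _).trans ?_
  refine le_trans (Finset.sum_le_sum (g := fun i => m i) fun i _ => ?_) (le_totalDegree hm)
  exact (totalDegree_pow _ _).trans ((Nat.mul_le_mul_left _ (hf i)).trans (by rw [mul_one]))

/-- the head block replaced by constants -/
noncomputable def tailP {l r : ℕ} (w : Fin r → ℂ) (P : MvPolynomial (Fin (l + 1) × Fin r) ℂ) :
    MvPolynomial (Fin l × Fin r) ℂ :=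
  aeval (fun v => Fin.cases (motive := fun _ => MvPolynomial (Fin l × Fin r) ℂ) (C (w v.2))
    (fun i => X (i, v.2)) v.1) P

/-- the other blocks replaced by constants -/
noncomputable def headP {l r : ℕ} (w : Fin l × Fin r → ℂ)
    (P : MvPolynomial (Fin (l + 1) × Fin r) ℂ) : MvPolynomial (Fin r) ℂ :=
  aeval (fun v => Fin.cases (motive := fun _ => MvPolynomial (Fin r) ℂ) (X v.2)
    (fun i => C (w (i, v.2))) v.1) P

theorem eval_tailP {l r : ℕ} (w : Fin (l + 1) × Fin r → ℂ)
    (P : MvPolynomial (Fin (l + 1) × Fin r) ℂ) :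
    eval (fun v => w (v.1.succ, v.2)) (tailP (fun j => w (0, j)) P) = eval w P := by
  rw [tailP, ← MvPolynomial.coe_aeval_eq_eval, ← MvPolynomial.coe_aeval_eq_eval]
  rw [RingHom.coe_coe, RingHom.coe_coe, ← AlgHom.comp_apply, comp_aeval]
  congr 2
  funext v
  obtain ⟨i, j⟩ := v
  refine Fin.cases ?_ (fun i => ?_) i
  · simp
  · simp

theorem eval_headP {l r : ℕ} (w : Fin (l + 1) × Fin r → ℂ)
    (P : MvPolynomial (Fin (l + 1) × Fin r) ℂ) :
    eval (fun j => w (0, j)) (headP (fun v => w (v.1.succ, v.2)) P) = eval w P := by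
  rw [headP, ← MvPolynomial.coe_aeval_eq_eval, ← MvPolynomial.coe_aeval_eq_eval]
  rw [RingHom.coe_coe, RingHom.coe_coe, ← AlgHom.comp_apply, comp_aeval]
  congr 2
  funext v
  obtain ⟨i, j⟩ := v
  refine Fin.cases ?_ (fun i => ?_) i
  · simp
  · simp

theorem deg_tailP {l r : ℕ} (w : Fin r → ℂ) (P : MvPolynomial (Fin (l + 1) × Fin r) ℂ) :
    (tailP w P).totalDegree ≤ P.totalDegree := by
  refine totalDegree_subst _ (fun v => ?_) P
  obtain ⟨i, j⟩ := v
  refine Fin.cases ?_ (fun i => ?_) i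
  · simp
  · simp

theorem deg_headP {l r : ℕ} (w : Fin l × Fin r → ℂ) (P : MvPolynomial (Fin (l + 1) × Fin r) ℂ) :
    (headP w P).totalDegree ≤ P.totalDegree := by
  refine totalDegree_subst _ (fun v => ?_) P
  obtain ⟨i, j⟩ := v
  refine Fin.cases ?_ (fun i => ?_) i
  · simp
  · simp

/-- the bound decreases -/
theorem bound_mono (C : ℝ) (hC : 0 < C) (m : ℕ) {X N : ℕ} (hX : 3 ≤ X)
    (h1 : max (m : ℝ) 1 ≤ Real.log (Real.log X)) (hXN : X ≤ N) :
    C * Real.log (Real.log N) ^ m * Real.exp (-Real.log (Real.log N)) ≤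
      C * Real.log (Real.log X) ^ m * Real.exp (-Real.log (Real.log X)) := by
  have hX3 : (3 : ℝ) ≤ X := by exact_mod_cast hX
  have hXN' : (X : ℝ) ≤ N := by exact_mod_cast hXN
  have hlog : 1 < Real.log X := by
    rw [Real.lt_log_iff_exp_lt (by linarith)]
    linarith [Real.exp_one_lt_d9]
  have h2 : Real.log (Real.log X) ≤ Real.log (Real.log N) :=
    Real.log_le_log (by linarith) (Real.log_le_log (by linarith) hXN')
  rw [mul_assoc, mul_assoc]
  refine mul_le_mul_of_nonneg_left ?_ hC.le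
  exact Pool.Agent.QDen.pow_exp_mono m (by linarith [le_max_right (m : ℝ) 1])
    ((le_max_left _ _).trans h1) h2

/-- the exceptional tuples for one differential polynomial, finitely many variables -/
theorem cntf (E r : ℕ) : ∀ l : ℕ, ∃ (C : ℝ) (m X0 : ℕ), 0 < C ∧
    ∀ δ : Derivation (algebraicClosure ℚ ℂ) ℂ ℂ, CK δ →
      ∀ Ψ : MvPolynomial (Fin l × Fin r) ℂ, Ψ ≠ 0 →
      Ψ.totalDegree ≤ E → ∀ (t : Fin l → ℂ) (X : ℕ), X0 ≤ X →
        ∀ N : Fin l → ℕ, (∀ i, X ≤ N i) →
        ({a : Fin l → ℕ | (∀ i, 1 ≤ a i ∧ a i ≤ N i) ∧ eval (fun v : Fin l × Fin r =>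
          δ^[(v.2 : ℕ)] (t v.1 + ((Real.log (a v.1 : ℝ) : ℝ) : ℂ))) Ψ = 0}.ncard : ℝ) ≤
            (∏ i, (N i : ℝ)) *
              (C * Real.log (Real.log X) ^ m * Real.exp (-Real.log (Real.log X))) := by
  classical
  intro l
  induction l with
  | zero =>
    refine ⟨1, 0, 0, one_pos, fun δ _ Ψ hΨ _ t X _ N _ => ?_⟩
    have h0 : ∃ w, eval w Ψ ≠ 0 := by
      by_contra h
      push Not at h
      exact hΨ (MvPolynomial.funext fun w => by rw [h w, map_zero])
    obtain ⟨w, hw⟩ := h0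
    have h1 : {a : Fin 0 → ℕ | (∀ i, 1 ≤ a i ∧ a i ≤ N i) ∧ eval (fun v : Fin 0 × Fin r =>
          δ^[(v.2 : ℕ)] (t v.1 + ((Real.log (a v.1 : ℝ) : ℝ) : ℂ))) Ψ = 0} = ∅ := by
      refine Set.eq_empty_iff_forall_notMem.2 fun a ha => hw ?_
      have h2 : w = fun v : Fin 0 × Fin r =>
          δ^[(v.2 : ℕ)] (t v.1 + ((Real.log (a v.1 : ℝ) : ℝ) : ℂ)) := by
        funext v
        exact v.1.elim0
      rw [h2]
      exact ha.2
    rw [h1, Set.ncard_empty, Nat.cast_zero]
    positivity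
  | succ l ih =>
    obtain ⟨C1, m1, X1, hC1, h1⟩ := cnt1 E r
    obtain ⟨C2, m2, X2, hC2, h2⟩ := ih
    obtain ⟨X3, hX3⟩ := Filter.eventually_atTop.1
      (Pool.Agent.QDen.tendsto_loglog.eventually (Filter.eventually_ge_atTop (max (m1 : ℝ) 1)))
    refine ⟨C1 + C2, max m1 m2, max (max X1 X2) (max X3 3), by positivity,
      fun δ hδ Ψ hΨ hE t X hX N hN => ?_⟩
    have hXX1 : X1 ≤ X := (le_max_left _ _).trans ((le_max_left _ _).trans hX)
    have hXX2 : X2 ≤ X := (le_max_right _ _).trans ((le_max_left _ _).trans hX)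
    have hXX3 : X3 ≤ X := (le_max_left _ _).trans ((le_max_right _ _).trans hX)
    have hX3' : 3 ≤ X := (le_max_right _ _).trans ((le_max_right _ _).trans hX)
    have hy := hX3 X hXX3
    have hy1 : 1 ≤ Real.log (Real.log X) := (le_max_right _ _).trans hy
    -- a point where the polynomial does not vanish
    have h0 : ∃ w, eval w Ψ ≠ 0 := by
      by_contra h
      push Not at h
      exact hΨ (MvPolynomial.funext fun w => by rw [h w, map_zero])
    obtain ⟨w, hw⟩ := h0
    have hT0 : tailP (fun j => w (0, j)) Ψ ≠ 0 := by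
      intro h
      have h3 := eval_tailP w Ψ
      rw [h, map_zero] at h3
      exact hw h3.symm
    let Q : (Fin l → ℕ) → Prop := fun a' => eval (fun v : Fin l × Fin r =>
      δ^[(v.2 : ℕ)] (t v.1.succ + ((Real.log (a' v.1 : ℝ) : ℝ) : ℂ)))
        (tailP (fun j => w (0, j)) Ψ) = 0
    let P : (Fin (l + 1) → ℕ) → Prop := fun a => eval (fun v : Fin (l + 1) × Fin r =>
      δ^[(v.2 : ℕ)] (t v.1 + ((Real.log (a v.1 : ℝ) : ℝ) : ℂ))) Ψ = 0
    have hmain := Pool.Agent.QDen.TupT_fibre (0 : Fin (l + 1)) N P Q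
      (C1 * Real.log (Real.log X) ^ m1 * Real.exp (-Real.log (Real.log X)))
      (C2 * Real.log (Real.log X) ^ m2 * Real.exp (-Real.log (Real.log X)))
      (by positivity) (fun a' ha' => ?_) ?_
    · rw [Pool.Agent.QDen.ncard_box N]
      refine hmain.trans ?_
      rw [mul_comm]
      refine mul_le_mul_of_nonneg_left ?_ (by positivity)
      have e1 : Real.log (Real.log X) ^ m1 ≤ Real.log (Real.log X) ^ max m1 m2 :=
        pow_le_pow_right₀ hy1 (le_max_left _ _)
      have e2 : Real.log (Real.log X) ^ m2 ≤ Real.log (Real.log X) ^ max m1 m2 :=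
        pow_le_pow_right₀ hy1 (le_max_right _ _)
      rw [add_mul, add_mul]
      gcongr
    · -- the fibre over a good tuple
      let w' : Fin l × Fin r → ℂ := fun v =>
        δ^[(v.2 : ℕ)] (t v.1.succ + ((Real.log (a' v.1 : ℝ) : ℝ) : ℂ))
      let wa : Fin (l + 1) × Fin r → ℂ := fun v => Fin.cases (motive := fun _ => ℂ) (w (0, v.2))
        (fun i => w' (i, v.2)) v.1
      have hH0 : headP w' Ψ ≠ 0 := by
        intro h
        have h3 := eval_headP wa Ψ
        have h4 := eval_tailP wa Ψ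
        have h5 : (fun v : Fin l × Fin r => wa (v.1.succ, v.2)) = w' := rfl
        have h6 : (fun j : Fin r => wa (0, j)) = fun j => w (0, j) := rfl
        rw [h5, h6] at h3 h4
        rw [h, map_zero] at h3
        exact ha' (h4.trans h3.symm)
      have h3 := h1 δ hδ (headP w' Ψ) hH0 ((deg_headP _ _).trans hE) (t 0) (N 0)
        (hXX1.trans (hN 0))
      have h4 := bound_mono C1 hC1 m1 hX3' hy (hN 0)
      have h5 : {a : ℕ | (1 ≤ a ∧ a ≤ N 0) ∧ eval (fun i : Fin r =>
          δ^[(i : ℕ)] (t 0 + ((Real.log (a : ℝ) : ℝ) : ℂ))) (headP w' Ψ) = 0} =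
          ((Finset.Icc 1 (N 0)).filter fun a0 => P ((0 : Fin (l + 1)).insertNth a0 a') : Finset ℕ) := by
        ext a0
        rw [Finset.coe_filter, Set.mem_ofPred_eq, Set.mem_ofPred_eq, Finset.mem_Icc]
        refine and_congr_right fun _ => ?_
        let wb : Fin (l + 1) × Fin r → ℂ := fun v => δ^[(v.2 : ℕ)] (t v.1 +
          ((Real.log (((0 : Fin (l + 1)).insertNth a0 a' : Fin (l + 1) → ℕ) v.1 : ℝ) : ℝ) : ℂ))
        have h6 : (fun v : Fin l × Fin r => wb (v.1.succ, v.2)) = w' := by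
          funext v
          simp [wb, w']
        have h7 : (fun i : Fin r => wb (0, i)) = fun i : Fin r =>
            δ^[(i : ℕ)] (t 0 + ((Real.log (a0 : ℝ) : ℝ) : ℂ)) := by
          funext i
          simp [wb]
        have h8 := eval_headP wb Ψ
        rw [h6, h7] at h8
        rw [h8]
      rw [h5, Set.ncard_coe_finset] at h3
      refine h3.trans ?_
      rw [mul_comm]
      exact mul_le_mul_of_nonneg_right h4 (by positivity)
    · have h3 := h2 δ hδ (tailP (fun j => w (0, j)) Ψ) hT0 ((deg_tailP _ _).trans hE)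
        (fun i => t i.succ) X hXX2 (fun i => N i.succ) (fun i => hN _)
      rw [Pool.Agent.QDen.ncard_box] at h3
      rw [mul_comm] at h3
      exact h3

/-- **the exceptional tuples for one differential polynomial** -/
theorem cntl (E r l : ℕ) : ∃ (C : ℝ) (m X0 : ℕ), 0 < C ∧
    ∀ δ : Derivation (algebraicClosure ℚ ℂ) ℂ ℂ, CK δ → ∀ Ψ : MvPolynomial (Fin l × ℕ) ℂ, Ψ ≠ 0 →
      Ψ.totalDegree ≤ E → (∀ v ∈ Ψ.vars, v.2 < r) → ∀ (t : Fin l → ℂ) (X : ℕ), X0 ≤ X →
        ∀ N : Fin l → ℕ, (∀ i, X ≤ N i) →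
        ({a : Fin l → ℕ | (∀ i, 1 ≤ a i ∧ a i ≤ N i) ∧ eval (jet δ fun i =>
          t i + ((Real.log (a i : ℝ) : ℝ) : ℂ)) Ψ = 0}.ncard : ℝ) ≤
            (∏ i, (N i : ℝ)) *
              (C * Real.log (Real.log X) ^ m * Real.exp (-Real.log (Real.log X))) := by
  classical
  obtain ⟨C, m, X0, hC, h⟩ := cntf E r l
  refine ⟨C, m, X0, hC, fun δ hδ Ψ hΨ hE hv t X hX N hN => ?_⟩
  let f : Fin l × Fin r → Fin l × ℕ := fun v => (v.1, (v.2 : ℕ))
  have hf : Function.Injective f := by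
    intro v v' hvv
    simp only [f, Prod.mk.injEq] at hvv
    exact Prod.ext hvv.1 (Fin.ext hvv.2)
  obtain ⟨q, rfl⟩ := MvPolynomial.exists_rename_eq_of_vars_subset_range Ψ f hf (by
    intro v hv'
    exact ⟨(v.1, ⟨v.2, hv v hv'⟩), rfl⟩)
  have hq0 : q ≠ 0 := by
    rintro rfl
    exact hΨ (map_zero _)
  have hqd : q.totalDegree ≤ E := by
    refine le_trans ?_ hE
    rw [totalDegree, totalDegree, support_rename_of_injective hf, Finset.sup_image]
    refine Finset.sup_mono_fun fun m _ => ?_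
    simp only [Function.comp_apply]
    rw [Finsupp.sum_mapDomain_index (fun _ => rfl) (fun _ _ _ => rfl)]
  have h1 := h δ hδ q hq0 hqd t X hX N hN
  refine le_trans (le_of_eq ?_) h1
  congr 2
  ext a
  rw [Set.mem_ofPred_eq, Set.mem_ofPred_eq, eval_rename]
  rfl

end Pool.Agent.FN
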