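import Pool.Agent.FN.Prog
import Pool.Agent.FN.Psi
import Pool.Agent.FN.Der
import Pool.Agent.FN.Spec
import Pool.Agent.FN.Tup

/-! # Relations of bounded complexity between logarithms: the density theorem -/

namespace Pool.Agent.FN

open MvPolynomial

/-- the algebraic numbers -/
noncomputable abbrev KA : IntermediateField ℚ ℂ := algebraicClosure ℚ ℂ

/-- a relation computed by a program of length `≤ s` -/
def RelK (s : ℕ) {n : ℕ} (y : Fin n → ℂ) : Prop :=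
  ∃ l : List (MvPolynomial (Fin n) KA), Prog l ∧ l.length ≤ s ∧
    ∃ P ∈ l, P ≠ 0 ∧ aeval y P = 0

theorem isAlgClosed_KA : IsAlgClosed KA :=
  (algebraicClosure.isAlgClosure ℚ ℂ).isAlgClosed

theorem countable_KA : Countable KA := by
  have h1 : {x : ℂ | IsAlgebraic ℚ x}.Countable := Algebraic.countable ℚ ℂ
  exact (h1.mono fun c hc => mem_algebraicClosure_iff.1 hc).to_subtype

/-- one differential polynomial for all relations -/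
theorem key (k l s : ℕ) : ∃ E r : ℕ, ∀ x : Fin k → ℂ, AlgebraicIndependent ℚ x →
    ∃ δ : Derivation KA ℂ ℂ, CK δ ∧ ∃ Ψ : MvPolynomial (Fin l × ℕ) ℂ, Ψ ≠ 0 ∧
      Ψ.totalDegree ≤ E ∧ (∀ v ∈ Ψ.vars, v.2 < r) ∧
        ∀ y : Fin l → ℂ, RelK s (Fin.append x y) → eval (jet δ y) Ψ = 0 := by
  obtain ⟨D, hD⟩ := prog (k + l) s
  obtain ⟨E, r, hE⟩ := psi (k + l) D
  refine ⟨E, r, fun x hx => ?_⟩
  have := isAlgClosed_KA
  have := countable_KA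
  have hxK : AlgebraicIndependent KA x := by
    have : Algebra.IsAlgebraic ℚ KA := algebraicClosure.isAlgebraic ℚ ℂ
    exact hx.extendScalars KA
  obtain ⟨δ, hδ, hg⟩ := exists_der x hxK
  obtain ⟨W, h0, hWE, hWr, hW⟩ := hE δ hδ hg.full
  obtain ⟨Ψ, hΨ0, hΨE, hΨr, hΨ⟩ := spec hg l E r W h0 hWE hWr
  refine ⟨δ, hδ, Ψ, hΨ0, hΨE, hΨr, fun y hy => ?_⟩
  obtain ⟨L, hL, hLs, P, hP, hP0, hPy⟩ := hy
  rw [hΨ]
  exact hW _ (hD δ hδ hg.full _ L hL hLs P hP hP0 hPy)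

/-- the density theorem -/
theorem main (k l s : ℕ) : ∃ (C : ℝ) (m X0 : ℕ), 0 < C ∧
    ∀ x : Fin k → ℂ, AlgebraicIndependent ℚ x → ∀ (t : Fin l → ℂ) (X : ℕ), X0 ≤ X →
      ∀ N : Fin l → ℕ, (∀ i, X ≤ N i) →
        ({a : Fin l → ℕ | (∀ i, 1 ≤ a i ∧ a i ≤ N i) ∧ RelK s (Fin.append x fun i =>
          t i + ((Real.log (a i : ℝ) : ℝ) : ℂ))}.ncard : ℝ) ≤
            (∏ i, (N i : ℝ)) *
              (C * Real.log (Real.log X) ^ m * Real.exp (-Real.log (Real.log X))) := by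
  obtain ⟨E, r, hk⟩ := key k l s
  obtain ⟨C, m, X0, hC, hc⟩ := cntl E r l
  refine ⟨C, m, X0, hC, fun x hx t X hX N hN => ?_⟩
  obtain ⟨δ, hδ, Ψ, h0, hE, hr, h⟩ := hk x hx
  refine le_trans ?_ (hc δ hδ Ψ h0 hE hr t X hX N hN)
  have hfin : {a : Fin l → ℕ | (∀ i, 1 ≤ a i ∧ a i ≤ N i) ∧ eval (jet δ fun i =>
      t i + ((Real.log (a i : ℝ) : ℝ) : ℂ)) Ψ = 0}.Finite := by
    refine (Set.Finite.pi' fun i => Set.finite_Icc 1 (N i)).subset ?_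
    rintro a ⟨ha, -⟩ i
    exact ha i
  have hsub : {a : Fin l → ℕ | (∀ i, 1 ≤ a i ∧ a i ≤ N i) ∧ RelK s (Fin.append x fun i =>
      t i + ((Real.log (a i : ℝ) : ℝ) : ℂ))} ⊆ {a : Fin l → ℕ | (∀ i, 1 ≤ a i ∧ a i ≤ N i) ∧
        eval (jet δ fun i => t i + ((Real.log (a i : ℝ) : ℝ) : ℂ)) Ψ = 0} :=
    fun a ha => ⟨ha.1, h _ ha.2⟩
  exact_mod_cast Set.ncard_le_ncard hsub hfin

end Pool.Agent.FN
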