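import Pool.Agent.FN.Main

/-! # Programs with algebraic constants -/

namespace Pool.Agent.FN

open MvPolynomial

/-- `Program l`: the list `l` of polynomials in `n` variables is a computation: each entry is a
variable, an algebraic number, or the sum, the product or a power (with any exponent) of entries
further down the list -/
inductive Program {n : ℕ} : List (MvPolynomial (Fin n) ℂ) → Prop
  | nil : Program []
  | var (l : List (MvPolynomial (Fin n) ℂ)) (i : Fin n) : Program l → Program (X i :: l)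
  | const (l : List (MvPolynomial (Fin n) ℂ)) (c : ℂ) : IsAlgebraic ℚ c → Program l →
      Program (C c :: l)
  | add (l : List (MvPolynomial (Fin n) ℂ)) (P Q : MvPolynomial (Fin n) ℂ) : P ∈ l → Q ∈ l →
      Program l → Program ((P + Q) :: l)
  | mul (l : List (MvPolynomial (Fin n) ℂ)) (P Q : MvPolynomial (Fin n) ℂ) : P ∈ l → Q ∈ l →
      Program l → Program ((P * Q) :: l)
  | pow (l : List (MvPolynomial (Fin n) ℂ)) (P : MvPolynomial (Fin n) ℂ) (m : ℕ) : P ∈ l →
      Program l → Program (P ^ m :: l)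

/-- lift to the field of algebraic numbers -/
theorem Program.lift {n : ℕ} {l : List (MvPolynomial (Fin n) ℂ)} (h : Program l) :
    ∃ l' : List (MvPolynomial (Fin n) KA), Prog l' ∧ l'.map (map (algebraMap KA ℂ)) = l := by
  induction h with
  | nil => exact ⟨[], Prog.nil, rfl⟩
  | var l i _ ih =>
    obtain ⟨l', h', rfl⟩ := ih
    exact ⟨X i :: l', Prog.var l' i h', by rw [List.map_cons, map_X]⟩
  | const l c hc _ ih =>
    obtain ⟨l', h', rfl⟩ := ih
    refine ⟨C ⟨c, mem_algebraicClosure_iff.2 hc⟩ :: l', Prog.const l' _ h', ?_⟩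
    rw [List.map_cons, map_C]
    rfl
  | add l P Q hP hQ _ ih =>
    obtain ⟨l', h', rfl⟩ := ih
    obtain ⟨P', hP', rfl⟩ := List.mem_map.1 hP
    obtain ⟨Q', hQ', rfl⟩ := List.mem_map.1 hQ
    exact ⟨(P' + Q') :: l', Prog.add l' P' Q' hP' hQ' h', by rw [List.map_cons, map_add]⟩
  | mul l P Q hP hQ _ ih =>
    obtain ⟨l', h', rfl⟩ := ih
    obtain ⟨P', hP', rfl⟩ := List.mem_map.1 hP
    obtain ⟨Q', hQ', rfl⟩ := List.mem_map.1 hQ
    exact ⟨(P' * Q') :: l', Prog.mul l' P' Q' hP' hQ' h', by rw [List.map_cons, map_mul]⟩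
  | pow l P m hP _ ih =>
    obtain ⟨l', h', rfl⟩ := ih
    obtain ⟨P', hP', rfl⟩ := List.mem_map.1 hP
    exact ⟨P' ^ m :: l', Prog.pow l' P' m hP' h', by rw [List.map_cons, map_pow]⟩

/-- the programs of length `≤ s` -/
theorem Program.exists_lift {n s : ℕ} {l : List (MvPolynomial (Fin n) ℂ)} (h : Program l)
    (hs : l.length ≤ s) {P : MvPolynomial (Fin n) ℂ} (hP : P ∈ l) :
    ∃ (l' : List (MvPolynomial (Fin n) KA)) (P' : MvPolynomial (Fin n) KA), Prog l' ∧
      l'.length ≤ s ∧ P' ∈ l' ∧ map (algebraMap KA ℂ) P' = P := by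
  obtain ⟨l', h', rfl⟩ := h.lift
  obtain ⟨P', hP', rfl⟩ := List.mem_map.1 hP
  rw [List.length_map] at hs
  exact ⟨l', P', h', hs, hP', rfl⟩

end Pool.Agent.FN
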