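import Pool.Agent.FN.TupU

/-! # Several logarithms: the exceptional tuples, exponent 2: the count -/

namespace Pool.Agent.FN

open MvPolynomial Pool.Agent.QDen

/-- the algebraic numbers -/
theorem countable_alg : Countable (algebraicClosure ℚ ℂ) := by
  have h1 : ((algebraicClosure ℚ ℂ : IntermediateField ℚ ℂ) : Set ℂ).Countable := by
    refine (Algebraic.countable ℚ ℂ).mono fun x hx => ?_
    exact mem_algebraicClosure_iff.1 hx
  exact h1.to_subtype

theorem exists_full {k : ℕ} (x : Fin k → ℂ) (hx : AlgebraicIndependent (algebraicClosure ℚ ℂ) x) :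
    ∃ δ : Derivation (algebraicClosure ℚ ℂ) ℂ ℂ, CK δ ∧ Gen δ x := by
  have h1 : IsAlgClosed (algebraicClosure ℚ ℂ) :=
    (algebraicClosure.isAlgClosure ℚ ℂ).isAlgClosed
  have h2 := countable_alg
  exact exists_der x hx

theorem irel_one {D : ℕ} {y : Fin 1 → ℂ} (h : IRel (algebraicClosure ℚ ℂ) D y) :
    IsAlgebraic (algebraicClosure ℚ ℂ) (y 0) := by
  by_contra hcon
  have h1 : AlgebraicIndependent (algebraicClosure ℚ ℂ) y :=
    algebraicIndependent_unique_type_iff.2 hcon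
  obtain ⟨δ, hδ, hG⟩ := exists_full y h1
  obtain ⟨G, hG0, -, hG1⟩ := h
  obtain ⟨z, hz⟩ := hG 0
  have h2 := hz.comp (fun v : Fin 1 × ℕ => (Fin.castAdd 0 v.1, v.2)) (by
    intro v w hvw
    simp only [Prod.mk.injEq] at hvw
    exact Prod.ext (Fin.castAdd_injective _ _ hvw.1) hvw.2)
  have h3 : jet δ (Fin.append y z) ∘ (fun v : Fin 1 × ℕ => (Fin.castAdd 0 v.1, v.2)) =
      jet δ y := by
    funext v
    change δ^[v.2] (Fin.append y z (Fin.castAdd 0 v.1)) = _
    rw [Fin.append_left]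
    rfl
  rw [h3] at h2
  exact hG0 ((injective_iff_map_eq_zero _).1 h2 G (hG1 δ hδ hG.full))

/-- the difference of two logarithms of integers is transcendental or zero -/
theorem log_unique {t : ℂ} {a a' : ℕ} (ha : 1 ≤ a) (ha' : 1 ≤ a')
    (h : IsAlgebraic (algebraicClosure ℚ ℂ) (t + ((Real.log (a : ℝ) : ℝ) : ℂ)))
    (h' : IsAlgebraic (algebraicClosure ℚ ℂ) (t + ((Real.log (a' : ℝ) : ℝ) : ℂ))) : a = a' := by
  by_contra hne
  have hexp : ∀ p : ℕ, 1 ≤ p → IsAlgebraic ℚ (Complex.exp ((Real.log (p : ℝ) : ℝ) : ℂ)) := by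
    intro p hp
    rw [← Complex.ofReal_exp, Real.exp_log (by exact_mod_cast hp)]
    exact_mod_cast isAlgebraic_natCast (R := ℚ) (A := ℂ) p
  have h1 : IsAlgebraic ℚ (((Real.log (a : ℝ) : ℝ) : ℂ) - ((Real.log (a' : ℝ) : ℝ) : ℂ)) := by
    have h2 : IsAlgebraic (algebraicClosure ℚ ℂ)
        (((Real.log (a : ℝ) : ℝ) : ℂ) - ((Real.log (a' : ℝ) : ℝ) : ℂ)) := by
      have := h.sub h'
      rwa [add_sub_add_left_eq_sub] at this
    have : Algebra.IsAlgebraic ℚ (algebraicClosure ℚ ℂ) := algebraicClosure.isAlgebraic ℚ ℂ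
    exact h2.restrictScalars ℚ
  have h0 : ((Real.log (a : ℝ) : ℝ) : ℂ) - ((Real.log (a' : ℝ) : ℝ) : ℂ) ≠ 0 := by
    intro h3
    have h4 : Real.log (a : ℝ) = Real.log (a' : ℝ) := by exact_mod_cast sub_eq_zero.1 h3
    have h5 : (a : ℝ) = a' := Real.log_injOn_pos
      (Set.mem_Ioi.2 (by exact_mod_cast ha)) (Set.mem_Ioi.2 (by exact_mod_cast ha')) h4
    exact hne (by exact_mod_cast h5)
  have h3 := Pool.Agent.BKR.baker (ι := Unit)
    (fun _ => ((Real.log (a : ℝ) : ℝ) : ℂ) - ((Real.log (a' : ℝ) : ℝ) : ℂ))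
    (linearIndependent_unique_iff.2 h0) (fun _ => by
      rw [Complex.exp_sub]
      exact (hexp a ha).mul (hexp a' ha').inv) (fun _ => 1)
    (-(((Real.log (a : ℝ) : ℝ) : ℂ) - ((Real.log (a' : ℝ) : ℝ) : ℂ)))
    (fun _ => isAlgebraic_one) h1.neg (by simp)
  exact one_ne_zero (h3.2 ())

/-- the bound for the exceptional `l`-tuples -/
def TBU (l D : ℕ) : Prop :=
  ∃ (C : ℝ) (m X0 : ℕ), 0 < C ∧ ∀ t : Fin l → ℂ,
    ∀ M : ℕ, X0 ≤ M → ∀ X : Fin l → ℕ, (∀ i, M ≤ X i) →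
    ({a : Fin l → ℕ | (∀ i, 1 ≤ a i ∧ a i ≤ X i) ∧
      IRel (algebraicClosure ℚ ℂ) D (fun i => t i + ((Real.log (a i : ℝ) : ℝ) : ℂ))}.ncard : ℝ) ≤
      (C * Real.log (Real.log M) ^ m * Real.exp (-(2 * Real.log (Real.log M)))) *
        ∏ i, (X i : ℝ)

theorem TBU_one (D : ℕ) : TBU 1 D := by
  refine ⟨4, 0, 3, by norm_num, fun t M hM X hX => ?_⟩
  have h1 : {a : Fin 1 → ℕ | (∀ i, 1 ≤ a i ∧ a i ≤ X i) ∧
      IRel (algebraicClosure ℚ ℂ) D
        (fun i => t i + ((Real.log (a i : ℝ) : ℝ) : ℂ))}.Subsingleton := by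
    rintro a ⟨ha1, ha⟩ a' ⟨ha1', ha'⟩
    funext i
    rw [Subsingleton.elim i 0]
    exact log_unique (ha1 0).1 (ha1' 0).1 (irel_one ha) (irel_one ha')
  have h2 : ({a : Fin 1 → ℕ | (∀ i, 1 ≤ a i ∧ a i ≤ X i) ∧
      IRel (algebraicClosure ℚ ℂ) D
        (fun i => t i + ((Real.log (a i : ℝ) : ℝ) : ℂ))}.ncard : ℝ) ≤ 1 := by
    have hfin := h1.finite
    have h7 := (Set.ncard_le_one hfin).2 (fun a ha b hb => h1 ha hb)
    exact_mod_cast h7
  refine h2.trans ?_
  have hM3 : (3 : ℝ) ≤ M := by exact_mod_cast hM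
  have hlog : 1 < Real.log M := by
    rw [Real.lt_log_iff_exp_lt (by linarith)]
    linarith [Real.exp_one_lt_d9]
  have hs : 0 < Real.sqrt M := Real.sqrt_pos.2 (by linarith)
  have h4 : Real.log M ≤ 2 * Real.sqrt M := by
    have h5 : Real.log M = 2 * Real.log (Real.sqrt M) := by
      rw [Real.log_sqrt (by linarith)]
      ring
    have h6 := Real.log_le_sub_one_of_pos hs
    linarith
  have h5 : Real.log M ^ 2 ≤ 4 * M := by
    have h6 : Real.log M ^ 2 ≤ (2 * Real.sqrt M) ^ 2 := pow_le_pow_left₀ (by linarith) h4 2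
    rw [mul_pow, Real.sq_sqrt (by linarith)] at h6
    linarith
  have h6 : Real.exp (-(2 * Real.log (Real.log M))) = (Real.log M ^ 2)⁻¹ := by
    rw [Real.exp_neg, mul_comm, Real.exp_mul, Real.exp_log (by linarith)]
    norm_num
  have h7 : (M : ℝ) ≤ X 0 := by exact_mod_cast hX 0
  have h8 : 0 < Real.log M ^ 2 := by positivity
  rw [h6, pow_zero, mul_one, Fin.prod_univ_one, ← div_eq_mul_inv, div_mul_eq_mul_div,
    le_div_iff₀ h8]
  linarith

/-- one more logarithm -/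
theorem oneU (n D : ℕ) : ∃ (D' : ℕ) (F : ℕ → Set ℕ) (C : ℝ) (m X0 : ℕ), 0 < C ∧
      ∀ X : ℕ, X0 ≤ X →
      ({a : ℕ | (1 ≤ a ∧ a ≤ X) ∧ a ∈ F X}.ncard : ℝ) ≤
        X * (C * Real.log (Real.log X) ^ m * Real.exp (-Real.log (Real.log X))) ∧
      ∀ x : Fin n → ℂ, ¬ IRel (algebraicClosure ℚ ℂ) D' x → ∀ t : ℂ,
        ({a : ℕ | (1 ≤ a ∧ a ≤ X) ∧ a ∉ F X ∧ IRel (algebraicClosure ℚ ℂ) D
          (Fin.cons (t + ((Real.log (a : ℝ) : ℝ) : ℂ)) x : Fin (n + 1) → ℂ)}.ncard : ℝ) ≤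
          X * (C * Real.log (Real.log X) ^ m * Real.exp (-(2 * Real.log (Real.log X)))) := by
  obtain ⟨E, r, D', hst⟩ := step n D
  obtain ⟨F, C, m, X0, hC, h⟩ := cntF (E + r + 1) (by omega)
  refine ⟨D', F, C, m, X0, hC, fun X hX => ⟨(h X hX).1, fun x hx t => ?_⟩⟩
  have hex : ∃ δ : Derivation (algebraicClosure ℚ ℂ) ℂ ℂ, CK δ ∧ Full δ := by
    obtain ⟨δ, h1, h2⟩ := exists_full (fun i : Fin 0 => i.elim0)
      (algebraicIndependent_empty_type_iff.2 (FaithfulSMul.algebraMap_injective _ _))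
    exact ⟨δ, h1, h2.full⟩
  obtain ⟨δ, Ψ, hδ, hΨ0, hΨE, hΨ⟩ := hst hex x hx
  have h1 := (h X hX).2 {z | eval (fun i : Fin r => δ^[(i : ℕ)] z) Ψ = 0}
    (fun y v hv => cube δ hδ r E Ψ hΨ0 hΨE (by omega) v hv y) t
  refine le_trans ?_ h1
  rw [Nat.cast_le]
  refine Set.ncard_le_ncard ?_ ((Set.finite_Icc 1 X).subset fun a ha => ha.1)
  rintro a ⟨ha1, ha2, ha3⟩
  exact ⟨ha1, ha2, hΨ _ ha3⟩

theorem irel_insertNth {n D : ℕ} (j : Fin (n + 1)) (b : ℂ) (z : Fin n → ℂ) (f : Fin (n + 1) → ℂ)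
    (hj : f j = b) (hz : ∀ i, f (j.succAbove i) = z i) (h : IRel (algebraicClosure ℚ ℂ) D f) :
    IRel (algebraicClosure ℚ ℂ) D (Fin.cons b z : Fin (n + 1) → ℂ) := by
  refine irel_of_injective (Fin.insertNth (α := fun _ : Fin (n + 1) => Fin (n + 1)) j
    (0 : Fin (n + 1)) fun i => i.succ) ?_ ?_
  · intro i1 i2 h12
    rcases Fin.eq_self_or_eq_succAbove j i1 with h1 | ⟨i1', h1⟩ <;>
      rcases Fin.eq_self_or_eq_succAbove j i2 with h2 | ⟨i2', h2⟩
    · rw [h1, h2]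
    · rw [h1, h2] at h12
      simp only [Fin.insertNth_apply_same, Fin.insertNth_apply_succAbove] at h12
      exact absurd h12.symm (Fin.succ_ne_zero _)
    · rw [h1, h2] at h12
      simp only [Fin.insertNth_apply_same, Fin.insertNth_apply_succAbove] at h12
      exact absurd h12 (Fin.succ_ne_zero _)
    · rw [h1, h2] at h12
      simp only [Fin.insertNth_apply_succAbove] at h12
      rw [h1, h2, Fin.succ_injective _ h12]
  · have e : ((Fin.cons b z : Fin (n + 1) → ℂ) ∘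
        (Fin.insertNth (α := fun _ : Fin (n + 1) => Fin (n + 1)) j
          (0 : Fin (n + 1)) fun i => i.succ)) = f := by
      funext i
      rcases Fin.eq_self_or_eq_succAbove j i with h1 | ⟨i', h1⟩
      · rw [h1, Function.comp_apply, Fin.insertNth_apply_same, Fin.cons_zero, hj]
      · rw [h1, Function.comp_apply, Fin.insertNth_apply_succAbove, Fin.cons_succ, hz]
    rw [e]
    exact h

open Classical in
theorem TBU_succ (n d : ℕ) (hn : 0 < n) (ih : ∀ D, TBU n D) : TBU (n + 1) d := by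
  obtain ⟨D, F, C, m, X1, hC, hone⟩ := oneU n d
  obtain ⟨C', m', X2, hC', hih⟩ := ih D
  have hev := (tendsto_loglog.eventually ((ev_poly_exp C m (show (0 : ℝ) < 1 by norm_num)).and
    (Filter.eventually_ge_atTop ((m : ℝ) + 1))))
  obtain ⟨X3, hX3⟩ := Filter.eventually_atTop.1 hev
  refine ⟨C ^ 2 + (n + 1) * (C + C'), 2 * m + m', max (max X1 X2) (max X3 3), by positivity,
    fun lam M hM X hX => ?_⟩
  have hM1 : X1 ≤ M := (le_max_left _ _).trans ((le_max_left _ _).trans hM)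
  have hM2 : X2 ≤ M := (le_max_right _ _).trans ((le_max_left _ _).trans hM)
  have hM3 : X3 ≤ M := (le_max_left _ _).trans ((le_max_right _ _).trans hM)
  have hM4 : 3 ≤ M := (le_max_right _ _).trans ((le_max_right _ _).trans hM)
  have hM5 : (3 : ℝ) ≤ M := by exact_mod_cast hM4
  have hlogM : 1 < Real.log M := by
    rw [Real.lt_log_iff_exp_lt (by linarith)]
    linarith [Real.exp_one_lt_d9]
  obtain ⟨hy1, hy2⟩ := hX3 M hM3
  set y : ℝ := Real.log (Real.log M) with hy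
  have hm0 : (0 : ℝ) ≤ m := Nat.cast_nonneg _
  have hy3 : 1 ≤ y := by linarith
  have hy0 : 0 < y := by linarith
  -- the numbers `log log (X i)`
  have hyi : ∀ i, y ≤ Real.log (Real.log (X i)) := by
    intro i
    have h4 : (M : ℝ) ≤ X i := by exact_mod_cast hX i
    exact Real.log_le_log (by linarith) (Real.log_le_log (by linarith) h4)
  set δ1 : ℝ := C * y ^ m * Real.exp (-y) with hδ1
  set δ2 : ℝ := C * y ^ m * Real.exp (-(2 * y)) with hδ2
  set δ' : ℝ := C' * y ^ m' * Real.exp (-(2 * y)) with hδ'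
  have hδ1n : 0 ≤ δ1 := by positivity
  have hδ2n : 0 ≤ δ2 := by positivity
  have hδ1l : δ1 ≤ 1 := by
    have h := hy1
    simp only [one_mul, zero_mul, neg_zero, Real.exp_zero, mul_one] at h
    linarith
  have hb1 : ∀ i, C * Real.log (Real.log (X i)) ^ m * Real.exp (-Real.log (Real.log (X i))) ≤
      δ1 := by
    intro i
    have h := pow_exp_mono m hy0 (by linarith) (hyi i)
    rw [hδ1, mul_assoc, mul_assoc]
    exact mul_le_mul_of_nonneg_left h hC.le
  have hb2 : ∀ i, C * Real.log (Real.log (X i)) ^ m *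
      Real.exp (-(2 * Real.log (Real.log (X i)))) ≤ δ2 := by
    intro i
    have h := pow_exp_mono m hy0 (by linarith) (hyi i)
    have h' : Real.exp (-Real.log (Real.log (X i))) ≤ Real.exp (-y) :=
      Real.exp_le_exp.2 (by linarith [hyi i])
    have e : ∀ t : ℝ, Real.exp (-(2 * t)) = Real.exp (-t) * Real.exp (-t) := fun t => by
      rw [← Real.exp_add]
      ring_nf
    rw [hδ2, e, e, mul_assoc, mul_assoc, ← mul_assoc (_ ^ m), ← mul_assoc (_ ^ m)]
    refine mul_le_mul_of_nonneg_left ?_ hC.le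
    exact mul_le_mul h h' (Real.exp_pos _).le (by positivity)
  set Bx := Fintype.piFinset fun i => Finset.Icc 1 (X i) with hBx
  rw [ncard_box X]
  set S := Bx.filter fun a => IRel (algebraicClosure ℚ ℂ) d
    (fun i => lam i + ((Real.log (a i : ℝ) : ℝ) : ℂ)) with hS
  set SF := Fintype.piFinset fun i => (Finset.Icc 1 (X i)).filter (· ∈ F (X i)) with hSF
  set Sj : Fin (n + 1) → Finset (Fin (n + 1) → ℕ) := fun j => Bx.filter fun a =>
    a j ∉ F (X j) ∧ IRel (algebraicClosure ℚ ℂ) d (fun i => lam i + ((Real.log (a i : ℝ) : ℝ) : ℂ)) with hSj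
  have hsub : S ⊆ SF ∪ Finset.univ.biUnion Sj := by
    intro a ha
    rw [hS, Finset.mem_filter] at ha
    rw [Finset.mem_union]
    by_cases h : ∀ i, a i ∈ F (X i)
    · left
      rw [hSF, Fintype.mem_piFinset]
      intro i
      rw [Finset.mem_filter]
      exact ⟨(Fintype.mem_piFinset.1 ha.1) i, h i⟩
    · right
      obtain ⟨j, hj⟩ := not_forall.1 h
      rw [Finset.mem_biUnion]
      refine ⟨j, Finset.mem_univ _, ?_⟩
      rw [hSj, Finset.mem_filter]
      exact ⟨ha.1, hj, ha.2⟩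
  have hP0 : (0 : ℝ) ≤ ∏ i, (X i : ℝ) := Finset.prod_nonneg fun i _ => Nat.cast_nonneg _
  -- all coordinates exceptional
  have hSFc : (SF.card : ℝ) ≤ δ1 ^ 2 * ∏ i, (X i : ℝ) := by
    rw [hSF, Fintype.card_piFinset]
    push_cast
    calc ∏ i, (((Finset.Icc 1 (X i)).filter (· ∈ F (X i))).card : ℝ) ≤
          ∏ i, ((X i : ℝ) * δ1) := by
          refine Finset.prod_le_prod (fun i _ => Nat.cast_nonneg _) fun i _ => ?_
          have h := (hone (X i) (hM1.trans (hX i))).1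
          rw [ncard_Icc] at h
          exact h.trans (mul_le_mul_of_nonneg_left (hb1 i) (Nat.cast_nonneg _))
      _ = δ1 ^ (n + 1) * ∏ i, (X i : ℝ) := by
          rw [Finset.prod_mul_distrib, Finset.prod_const, Finset.card_univ, Fintype.card_fin,
            mul_comm]
      _ ≤ δ1 ^ 2 * ∏ i, (X i : ℝ) :=
          mul_le_mul_of_nonneg_right (pow_le_pow_of_le_one hδ1n hδ1l (by omega)) hP0
  -- one coordinate not exceptional
  have hSjc : ∀ j, ((Sj j).card : ℝ) ≤ (δ2 + δ') * ∏ i, (X i : ℝ) := by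
    intro j
    refine TupT_fibre j X (fun a => a j ∉ F (X j) ∧ IRel (algebraicClosure ℚ ℂ) d
      (fun i => lam i + ((Real.log (a i : ℝ) : ℝ) : ℂ)))
      (fun a' => IRel (algebraicClosure ℚ ℂ) D (fun i => lam (j.succAbove i) +
        ((Real.log (a' i : ℝ) : ℝ) : ℂ))) δ2 δ' hδ2n ?_ ?_
    · intro a' hQ
      have h := (hone (X j) (hM1.trans (hX j))).2 _ hQ (lam j)
      rw [ncard_Icc] at h
      have h' := h.trans (mul_le_mul_of_nonneg_left (hb2 j) (Nat.cast_nonneg _))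
      rw [mul_comm] at h'
      refine le_trans ?_ h'
      refine Nat.cast_le.2 (Finset.card_le_card fun a0 ha0 => ?_)
      rw [Finset.mem_filter] at ha0 ⊢
      obtain ⟨h1, h2, h3⟩ := ha0
      rw [Fin.insertNth_apply_same] at h2
      refine ⟨h1, h2, irel_insertNth j _ _ _ ?_ (fun i => ?_) h3⟩
      · rw [Fin.insertNth_apply_same]
      · rw [Fin.insertNth_apply_succAbove]
    · have h := hih (fun i => lam (j.succAbove i)) M hM2
        (fun i => X (j.succAbove i)) fun i => hX _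
      rw [ncard_box (fun i => X (j.succAbove i))] at h
      exact h
  have hcard : (S.card : ℝ) ≤ δ1 ^ 2 * ∏ i, (X i : ℝ) +
      (n + 1) * ((δ2 + δ') * ∏ i, (X i : ℝ)) := by
    have h1 : S.card ≤ SF.card + ∑ j, (Sj j).card :=
      (Finset.card_le_card hsub).trans ((Finset.card_union_le _ _).trans
        (Nat.add_le_add_left Finset.card_biUnion_le _))
    have h2 : (S.card : ℝ) ≤ SF.card + ∑ j, ((Sj j).card : ℝ) := by exact_mod_cast h1
    refine h2.trans (add_le_add hSFc ?_)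
    refine (Finset.sum_le_sum fun j _ => hSjc j).trans (le_of_eq ?_)
    rw [Finset.sum_const, Finset.card_univ, Fintype.card_fin, nsmul_eq_mul]
    push_cast
    ring
  refine hcard.trans ?_
  have hfin : δ1 ^ 2 + (n + 1) * (δ2 + δ') ≤
      (C ^ 2 + (n + 1) * (C + C')) * y ^ (2 * m + m') * Real.exp (-(2 * y)) := by
    have e1 : δ1 ^ 2 = C ^ 2 * y ^ (2 * m) * Real.exp (-(2 * y)) := by
      rw [hδ1, mul_pow, mul_pow, ← pow_mul, mul_comm m 2, ← Real.exp_nat_mul]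
      push_cast
      ring_nf
    have p1 : y ^ (2 * m) ≤ y ^ (2 * m + m') := pow_le_pow_right₀ hy3 (by omega)
    have p2 : y ^ m ≤ y ^ (2 * m + m') := pow_le_pow_right₀ hy3 (by omega)
    have p3 : y ^ m' ≤ y ^ (2 * m + m') := pow_le_pow_right₀ hy3 (by omega)
    have q1 : δ1 ^ 2 ≤ C ^ 2 * y ^ (2 * m + m') * Real.exp (-(2 * y)) := by
      rw [e1]
      gcongr
    have q2 : δ2 ≤ C * y ^ (2 * m + m') * Real.exp (-(2 * y)) := by
      rw [hδ2]
      gcongr
    have q3 : δ' ≤ C' * y ^ (2 * m + m') * Real.exp (-(2 * y)) := by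
      rw [hδ']
      gcongr
    have q4 : ((n : ℝ) + 1) * (δ2 + δ') ≤ (n + 1) * (C * y ^ (2 * m + m') * Real.exp (-(2 * y)) +
        C' * y ^ (2 * m + m') * Real.exp (-(2 * y))) :=
      mul_le_mul_of_nonneg_left (add_le_add q2 q3) (by positivity)
    refine (add_le_add q1 q4).trans (le_of_eq ?_)
    ring
  calc δ1 ^ 2 * ∏ i, (X i : ℝ) + (n + 1) * ((δ2 + δ') * ∏ i, (X i : ℝ)) =
        (δ1 ^ 2 + (n + 1) * (δ2 + δ')) * ∏ i, (X i : ℝ) := by ring
    _ ≤ _ := mul_le_mul_of_nonneg_right hfin hP0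

theorem TBU_all (l d : ℕ) (hl : 1 ≤ l) : TBU l d := by
  induction l, hl using Nat.le_induction generalizing d with
  | base => exact TBU_one d
  | succ n hn ih => exact TBU_succ n d hn ih

/-- **the exceptional tuples**: uniform relations, exponent 2 -/
theorem tupU (l D : ℕ) (hl : 1 ≤ l) : ∃ (C : ℝ) (m X0 : ℕ), 0 < C ∧
    ∀ (t : Fin l → ℂ) (X : ℕ), X0 ≤ X → ∀ N : Fin l → ℕ, (∀ i, X ≤ N i) →
      ({a : Fin l → ℕ | (∀ i, 1 ≤ a i ∧ a i ≤ N i) ∧ IRel (algebraicClosure ℚ ℂ) D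
        (fun i => t i + ((Real.log (a i : ℝ) : ℝ) : ℂ))}.ncard : ℝ) ≤
        (C * Real.log (Real.log X) ^ m * Real.exp (-(2 * Real.log (Real.log X)))) *
          ∏ i, (N i : ℝ) :=
  TBU_all l D hl

end Pool.Agent.FN
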