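import Pool.Agent.FN.ProgU
import Pool.Agent.FN.TupV
import Pool.Agent.FN.ProgC
import Pool.Agent.FN.Consts

/-! # Relations between logarithms computed by short programs: exponent 2 -/

namespace Pool.Agent.FN

open MvPolynomial

theorem exists_ck_full : ∃ δ : Derivation (algebraicClosure ℚ ℂ) ℂ ℂ, CK δ ∧ Full δ := by
  obtain ⟨δ, h1, h2⟩ := exists_full (fun i : Fin 0 => i.elim0)
    (algebraicIndependent_empty_type_iff.2 (FaithfulSMul.algebraMap_injective _ _))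
  exact ⟨δ, h1, h2.full⟩

theorem main_one (l s : ℕ) (hl : 1 ≤ l) : ∃ (C : ℝ) (m X0 : ℕ), 0 < C ∧
    ∀ (t : Fin l → ℂ) (X : ℕ), X0 ≤ X → ∀ N : Fin l → ℕ, (∀ i, X ≤ N i) →
      ({a : Fin l → ℕ | (∀ i, 1 ≤ a i ∧ a i ≤ N i) ∧
        ∃ L : List (MvPolynomial (Fin l) (algebraicClosure ℚ ℂ)), Prog L ∧ L.length ≤ s ∧
          ∃ P ∈ L, P ≠ 0 ∧ aeval (fun i => t i + ((Real.log (a i : ℝ) : ℝ) : ℂ)) P = 0}.ncard : ℝ) ≤
        (C * Real.log (Real.log X) ^ m * Real.exp (-(2 * Real.log (Real.log X)))) *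
          ∏ i, (N i : ℝ) := by
  obtain ⟨D, hD⟩ := progU l s
  obtain ⟨C, m, X0, hC, h⟩ := tupU l D hl
  refine ⟨C, m, X0, hC, fun t X hX N hN => (Nat.cast_le.2 ?_).trans (h t X hX N hN)⟩
  have hfin : {a : Fin l → ℕ | (∀ i, 1 ≤ a i ∧ a i ≤ N i) ∧ IRel (algebraicClosure ℚ ℂ) D
        (fun i => t i + ((Real.log (a i : ℝ) : ℝ) : ℂ))}.Finite := by
    refine (Fintype.piFinset fun i => Finset.Icc 1 (N i)).finite_toSet.subset fun a ha => ?_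
    rw [Finset.mem_coe, Fintype.mem_piFinset]
    exact fun i => Finset.mem_Icc.2 (ha.1 i)
  refine Set.ncard_le_ncard ?_ hfin
  rintro a ⟨ha, L, hL, hLs, P, hP, hP0, hPe⟩
  exact ⟨ha, hD exists_ck_full _ L hL hLs P hP hP0 hPe⟩

theorem few_one (l s : ℕ) (hl : 2 ≤ l) : ∃ C : ℕ, ∀ (t : Fin l → ℂ) (X : ℕ), 16 ≤ X →
    ∀ N : Fin l → ℕ, (∀ i, X ≤ N i) →
      ({a : Fin l → ℕ | (∀ i, 1 ≤ a i ∧ a i ≤ N i) ∧
        ∃ p : List (MvPolynomial (Fin l) ℂ), Program p ∧ p.length ≤ s ∧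
          ∃ P ∈ p, P ≠ 0 ∧
            MvPolynomial.eval (fun i => t i + ((Real.log (a i : ℝ) : ℝ) : ℂ)) P = 0}.ncard : ℝ) ≤
        C * Real.log (Real.log X) ^ C / Real.log X ^ 2 * ∏ i, (N i : ℝ) := by
  obtain ⟨C1, m, X0, hC1, h⟩ := main_one l s (by omega)
  obtain ⟨C, hC⟩ := all_X (l := l) 2 C1 m X0
  refine ⟨C, fun t X hX N hN => hC _ X hX N fun hX0 => ?_⟩
  have h3 := h t X hX0 N hN
  rw [show ((2 : ℕ) : ℝ) = 2 from Nat.cast_ofNat]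
  refine le_trans (Nat.cast_le.2 (Set.ncard_le_ncard ?_ (finite_box N _))) h3
  rintro a ⟨ha, p, hp, hps, P, hP, hP0, hPe⟩
  obtain ⟨l', P', h', hs', hP', rfl⟩ := hp.exists_lift hps hP
  refine ⟨ha, l', h', hs', P', hP', ?_, ?_⟩
  · rintro rfl
    exact hP0 (map_zero _)
  · rw [eval_map] at hPe
    exact hPe

end Pool.Agent.FN
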