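import Pool.Agent.FN.Bdd

/-! # Elimination of a polynomial step -/

namespace Pool.Agent.FN

open MvPolynomial

variable {K L : Type} [Field K] [Field L] [Algebra K L]

theorem RelAt.mono {δ : Derivation K L L} {D E n N : ℕ} {u : Fin N → MvPolynomial (Fin n × ℕ) K}
    {y : Fin n → L} (h : D ≤ E) (hr : RelAt δ D u y) : RelAt δ E u y := by
  obtain ⟨Φ, h1, h2, h3⟩ := hr
  exact ⟨Φ, Bdd.mono h h1, h2, h3⟩

theorem sh_iter_X {n : ℕ} (i : Fin n) (a b : ℕ) :
    (sh K n)^[a] (X (i, b)) = X (i, b + a) := by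
  induction a with
  | zero => rfl
  | succ a ih =>
    rw [Function.iterate_succ_apply', ih]
    simp [sh, mkDerivation_X, add_assoc]

theorem sh_iter_jet {L' : Type} [CommRing L'] [Algebra K L'] (δ : Derivation K L' L') {N : ℕ}
    (u : Fin N → L') (φ : MvPolynomial (Fin N × ℕ) K) (a : ℕ) :
    aeval (jet δ u) ((sh K N)^[a] φ) = δ^[a] (aeval (jet δ u) φ) := by
  induction a with
  | zero => rfl
  | succ a ih =>
    rw [Function.iterate_succ_apply', Function.iterate_succ_apply', ← ih, sh_aeval_jet]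

theorem rel_base {δ : Derivation K L L} {D n : ℕ} {y : Fin n → L}
    (h : RelAt δ D (fun i : Fin n => (X (i, 0) : MvPolynomial (Fin n × ℕ) K)) y) :
    DRel δ D y := by
  obtain ⟨Φ, h1, h2, h3⟩ := h
  have h4 : jet (sh K n) (fun i : Fin n => (X (i, 0) : MvPolynomial (Fin n × ℕ) K)) = X := by
    funext v
    rw [jet, sh_iter_X, zero_add]
  rw [h4, aeval_X_left_apply] at h2 h3
  exact ⟨Φ, h2, h1.1, h1.2, h3⟩

/-- a polynomial in the `u` as a polynomial in the jets of order zero -/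
noncomputable def up {N : ℕ} (q : MvPolynomial (Fin N) K) : MvPolynomial (Fin N × ℕ) K :=
  aeval (fun i => (X (i, 0) : MvPolynomial (Fin N × ℕ) K)) q

theorem up_eq_rename {N : ℕ} (q : MvPolynomial (Fin N) K) :
    up q = rename (fun i : Fin N => (i, 0)) q := by
  rw [up, rename_eq_aeval]
  rfl

theorem bdd_up {N e : ℕ} {q : MvPolynomial (Fin N) K} (h : q.totalDegree ≤ e) :
    Bdd e (up q) := by
  rw [up_eq_rename]
  refine ⟨(totalDegree_rename_le _ _).trans h, fun v hv => ?_⟩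
  have := vars_rename _ _ hv
  rw [Finset.mem_image] at this
  obtain ⟨i, _, rfl⟩ := this
  exact Nat.zero_le _

theorem aeval_jet_up {L' : Type} [CommRing L'] [Algebra K L'] (δ : Derivation K L' L') {N : ℕ}
    (u : Fin N → L') (q : MvPolynomial (Fin N) K) : aeval (jet δ u) (up q) = aeval u q := by
  rw [up_eq_rename, aeval_rename]
  rfl

theorem rel_poly (D e n N : ℕ) : ∃ D' : ℕ, ∀ {K L : Type} [Field K] [Field L] [Algebra K L]
    [CharZero K] (δ : Derivation K L L) (u : Fin N → MvPolynomial (Fin n × ℕ) K) (y : Fin n → L)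
    (q : MvPolynomial (Fin N) K), q.totalDegree ≤ e →
      RelAt δ D (Fin.snoc u (aeval u q) : Fin (N + 1) → MvPolynomial (Fin n × ℕ) K) y →
        RelAt δ D' u y := by
  refine ⟨D * (e + D + 1), fun {K L} _ _ _ _ δ u y q hq h => ?_⟩
  obtain ⟨Φ, h1, h2, h3⟩ := h
  obtain ⟨θ, hθ⟩ : ∃ θ : Fin (N + 1) × ℕ → MvPolynomial (Fin N × ℕ) K, θ = fun v =>
      (Fin.snoc (fun i : Fin N => (X (i, v.2) : MvPolynomial (Fin N × ℕ) K))
        ((sh K N)^[v.2] (up q)) : Fin (N + 1) → MvPolynomial (Fin N × ℕ) K) v.1 := ⟨_, rfl⟩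
  have key : ∀ v, aeval (jet (sh K n) u) (θ v) =
      jet (sh K n) (Fin.snoc u (aeval u q) : Fin (N + 1) → MvPolynomial (Fin n × ℕ) K) v := by
    rintro ⟨i, a⟩
    rw [hθ]
    simp only [jet]
    refine Fin.lastCases ?_ (fun i => ?_) i
    · rw [Fin.snoc_last, Fin.snoc_last, sh_iter_jet, aeval_jet_up]
    · rw [Fin.snoc_castSucc, Fin.snoc_castSucc, aeval_X]
      rfl
  have key2 : aeval (jet (sh K n) u) (aeval θ Φ) = aeval (jet (sh K n)
      (Fin.snoc u (aeval u q) : Fin (N + 1) → MvPolynomial (Fin n × ℕ) K)) Φ := by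
    rw [comp_aeval_apply, funext key]
  refine ⟨aeval θ Φ, Bdd.subst Φ θ h1 fun v hv => ?_, ?_, ?_⟩
  · obtain ⟨i, a⟩ := v
    simp only at hv
    rw [hθ]
    simp only
    refine Fin.lastCases ?_ (fun i => ?_) i
    · rw [Fin.snoc_last]
      exact Bdd.mono (by omega) (Bdd.iter a (bdd_up hq))
    · rw [Fin.snoc_castSucc]
      exact Bdd.X _ (by simp only; omega) (by omega)
  · rw [key2]
    exact h2
  · rw [key2]
    exact h3

end Pool.Agent.FN
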