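import Pool.Agent.FN.Pow0
import Pool.Agent.FN.Bdd
import Pool.Agent.FN.Wr

/-! # Elimination of one power -/

namespace Pool.Agent.FN

open MvPolynomial

section PowAux

variable {K : Type} [Field K]

/-- numerators of the derivatives of `(u i ^ m) ^ b * R` -/
noncomputable def qP {N : ℕ} (i : Fin N) (c : ℕ) (R : MvPolynomial (Fin N × ℕ) K) (a : ℕ) :
    MvPolynomial (Fin N × ℕ) K :=
  qrec (sh K N) ((c : MvPolynomial (Fin N × ℕ) K) * sh K N (X (i, 0))) (X (i, 0)) R a

theorem qP_bdd {N : ℕ} (i : Fin N) (c : ℕ) {R : MvPolynomial (Fin N × ℕ) K} {D : ℕ}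
    (hR : Bdd D R) (a : ℕ) : Bdd (D + 2 * a) (qP i c R a) := by
  have hX : Bdd 1 (sh K N (X (i, 0))) := by
    have : sh K N (X (i, 0)) = (X (i, 1) : MvPolynomial (Fin N × ℕ) K) := by
      simp [sh]
    rw [this]
    exact Bdd.X _ (by simp) le_rfl
  have hn : ∀ k : ℕ, Bdd 0 ((k : ℕ) : MvPolynomial (Fin N × ℕ) K) := by
    intro k
    have : ((k : ℕ) : MvPolynomial (Fin N × ℕ) K) = C (k : K) := by simp
    rw [this]
    exact Bdd.C _
  induction a with
  | zero => simpa [qP, qrec] using hR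
  | succ a ih =>
    rw [qP, qrec]
    have h1 : Bdd 1 ((c : MvPolynomial (Fin N × ℕ) K) * sh K N (X (i, 0)) -
        (a : MvPolynomial (Fin N × ℕ) K) * sh K N (X (i, 0))) := by
      refine Bdd.sub ?_ ?_
      · simpa using (hn c).mul hX
      · simpa using (hn a).mul hX
    have h2 := h1.mul ih
    have h3 := (Bdd.X (K := K) (D := 1) (i, 0) (by simp) le_rfl).mul ih.sh
    exact (h2.mono (by omega)).add (h3.mono (by omega))

theorem qP_ev {N : ℕ} {S : Type} [CommRing S] [Algebra K S] (δ : Derivation K S S)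
    (u : Fin N → S) (i : Fin N) (m b : ℕ) (R : MvPolynomial (Fin N × ℕ) K) (a : ℕ) :
    u i ^ a * δ^[a] ((u i ^ m) ^ b * aeval (jet δ u) R) =
      (u i ^ m) ^ b * aeval (jet δ u) (qP i (m * b) R a) := by
  have h1 := qrec_spec δ ((u i ^ m) ^ b) (((m * b : ℕ) : S) * δ (u i)) (u i)
    (aeval (jet δ u) R) (pow_log δ (u i) m b) a
  rw [h1]
  congr 1
  have h2 := qrec_map (aeval (jet δ u) : MvPolynomial (Fin N × ℕ) K →ₐ[K] S).toRingHom
    (sh K N) δ (fun x => (sh_aeval_jet δ u x).symm)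
    (((m * b : ℕ) : MvPolynomial (Fin N × ℕ) K) * sh K N (X (i, 0))) (X (i, 0)) R a
  have h3 : (aeval (jet δ u) : MvPolynomial (Fin N × ℕ) K →ₐ[K] S).toRingHom
      (X (i, 0)) = u i := by
    change aeval (jet δ u) (X (i, 0)) = u i
    rw [aeval_X]; rfl
  have h4 : (aeval (jet δ u) : MvPolynomial (Fin N × ℕ) K →ₐ[K] S).toRingHom
      (((m * b : ℕ) : MvPolynomial (Fin N × ℕ) K) * sh K N (X (i, 0))) =
        ((m * b : ℕ) : S) * δ (u i) := by
    change aeval (jet δ u) (((m * b : ℕ) : MvPolynomial (Fin N × ℕ) K) * sh K N (X (i, 0))) = _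
    rw [map_mul, map_natCast, ← sh_aeval_jet, aeval_X]; rfl
  rw [h3, h4] at h2
  exact h2.symm

/-- one monomial -/
theorem mono_exp {N D : ℕ} {S : Type} [CommRing S] [Algebra K S] (δ : Derivation K S S)
    (u : Fin N → S) (i : Fin N) (m : ℕ) : ∀ (k : ℕ) (μ : (Fin (N + 1) × ℕ) →₀ ℕ),
    μ.degree = k → (∀ v ∈ μ.support, v.2 ≤ D) →
    ∃ (b : ℕ) (ρ : MvPolynomial (Fin N × ℕ) K), b ≤ k ∧ Bdd (k * (2 * D + 2)) ρ ∧
      u i ^ (k * D) * aeval (jet δ (Fin.snoc u (u i ^ m) : Fin (N + 1) → S))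
        (monomial μ (1 : K)) = (u i ^ m) ^ b * aeval (jet δ u) ρ := by
  intro k
  induction k with
  | zero =>
    intro μ hμ _
    have h0 : μ = 0 := (Finsupp.degree_eq_zero_iff μ).1 hμ
    refine ⟨0, 1, le_rfl, ?_, ?_⟩
    · have := Bdd.C (N := N) (D := 0) (1 : K)
      simpa using this
    · subst h0
      simp
  | succ k ih =>
    intro μ hμ hD
    have hne : μ ≠ 0 := by
      rintro rfl
      simp at hμ
    obtain ⟨v, hv⟩ : ∃ v, v ∈ μ.support := by
      by_contra hcon
      push Not at hcon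
      exact hne (Finsupp.support_eq_empty.1 (Finset.eq_empty_of_forall_notMem hcon))
    have hv0 : μ v ≠ 0 := Finsupp.mem_support_iff.1 hv
    obtain ⟨ν, hν⟩ : ∃ ν, μ = ν + Finsupp.single v 1 := by
      refine ⟨μ - Finsupp.single v 1, ?_⟩
      ext w
      by_cases hw : w = v
      · subst hw
        simp
        omega
      · simp [Ne.symm hw]
    have hdeg : ν.degree = k := by
      have := hμ
      rw [hν, map_add, Finsupp.degree_single] at this
      omega
    have hνD : ∀ w ∈ ν.support, w.2 ≤ D := by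
      intro w hw
      refine hD w ?_
      rw [Finsupp.mem_support_iff] at hw ⊢
      rw [hν, Finsupp.add_apply]
      omega
    obtain ⟨b, ρ, hb, hρ, he⟩ := ih ν hdeg hνD
    have hvD := hD v hv
    have hmon : (monomial μ (1 : K)) = monomial ν 1 * X v := by
      rw [hν, X, monomial_mul, one_mul]
    have hstep : ∃ (c : ℕ) (τ : MvPolynomial (Fin N × ℕ) K), c ≤ 1 ∧ Bdd (2 * D + 2) τ ∧
        u i ^ D * jet δ (Fin.snoc u (u i ^ m) : Fin (N + 1) → S) v =
          (u i ^ m) ^ c * aeval (jet δ u) τ := by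
      obtain ⟨j, a⟩ := v
      simp only at hvD
      induction j using Fin.lastCases with
      | last =>
        refine ⟨1, X (i, 0) ^ (D - a) * qP i m 1 a, le_rfl, ?_, ?_⟩
        · have h1 := (Bdd.X (K := K) (D := 1) (i, 0) (by simp) le_rfl).pow (D - a)
          have h2 : Bdd (0 + 2 * a) (qP i m (1 : MvPolynomial (Fin N × ℕ) K) a) := by
            refine qP_bdd i m ?_ a
            have := Bdd.C (N := N) (D := 0) (1 : K)
            simpa using this
          exact (h1.mul h2).mono (by omega)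
        · have h3 := qP_ev δ u i m 1 1 a
          rw [map_one, mul_one, pow_one, mul_one] at h3
          have h4 : jet δ (Fin.snoc u (u i ^ m) : Fin (N + 1) → S) (Fin.last N, a) =
              δ^[a] (u i ^ m) := by
            simp [jet]
          rw [h4, map_mul, map_pow, aeval_X]
          have h5 : jet δ u (i, 0) = u i := rfl
          rw [h5]
          have h6 : u i ^ D = u i ^ (D - a) * u i ^ a := by
            rw [← pow_add]; congr 1; omega
          rw [h6, pow_one]
          linear_combination u i ^ (D - a) * h3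
      | cast j =>
        refine ⟨0, X (i, 0) ^ D * X (j, a), by omega, ?_, ?_⟩
        · have h1 := (Bdd.X (K := K) (D := 1) (i, 0) (by simp) le_rfl).pow D
          have h2 : Bdd (D + 1) (X (j, a) : MvPolynomial (Fin N × ℕ) K) :=
            Bdd.X _ (by simp; omega) (by omega)
          exact (h1.mul h2).mono (by omega)
        · have h4 : jet δ (Fin.snoc u (u i ^ m) : Fin (N + 1) → S) (Fin.castSucc j, a) =
              δ^[a] (u j) := by
            simp [jet]
          rw [h4, map_mul, map_pow, aeval_X, aeval_X]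
          have h5 : jet δ u (i, 0) = u i := rfl
          have h6 : jet δ u (j, a) = δ^[a] (u j) := rfl
          rw [h5, h6]
          ring
    obtain ⟨c, τ, hc, hτ, hs⟩ := hstep
    refine ⟨b + c, ρ * τ, by omega, ?_, ?_⟩
    · exact (hρ.mul hτ).mono (le_of_eq (by ring))
    · rw [hmon, map_mul, aeval_X, map_mul]
      have h7 : u i ^ ((k + 1) * D) = u i ^ (k * D) * u i ^ D := by
        rw [← pow_add]; congr 1; ring
      rw [h7, pow_add]
      linear_combination (u i ^ D * jet δ (Fin.snoc u (u i ^ m) : Fin (N + 1) → S) v) * he +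
        ((u i ^ m) ^ b * aeval (jet δ u) ρ) * hs

/-- the expansion in powers of `u i ^ m` -/
theorem full_exp {N D : ℕ} {S : Type} [CommRing S] [Algebra K S] (δ : Derivation K S S)
    (u : Fin N → S) (i : Fin N) (m : ℕ) (Φ : MvPolynomial (Fin (N + 1) × ℕ) K)
    (hΦ : Bdd D Φ) :
    ∃ R : ℕ → MvPolynomial (Fin N × ℕ) K, (∀ b, Bdd (D * (2 * D + 2)) (R b)) ∧
      ∑ b : Fin (D + 1), (u i ^ m) ^ (b : ℕ) * aeval (jet δ u) (R b) =
        u i ^ (D * D) * aeval (jet δ (Fin.snoc u (u i ^ m) : Fin (N + 1) → S)) Φ := by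
  classical
  have h1 : ∀ μ : (Fin (N + 1) × ℕ) →₀ ℕ, ∃ (b : ℕ) (ρ : MvPolynomial (Fin N × ℕ) K),
      μ ∈ Φ.support → (b ≤ D ∧ Bdd (D * (2 * D + 2)) ρ ∧
      u i ^ (D * D) * aeval (jet δ (Fin.snoc u (u i ^ m) : Fin (N + 1) → S))
        (monomial μ (1 : K)) = (u i ^ m) ^ b * aeval (jet δ u) ρ) := by
    intro μ
    by_cases hμ : μ ∈ Φ.support
    · have hk : μ.degree ≤ D := (le_totalDegree hμ).trans hΦ.1
      have hs : ∀ v ∈ μ.support, v.2 ≤ D := by
        intro v hv
        exact hΦ.2 v (((mem_vars_iff_mem_support v).2 ⟨μ, hμ, hv⟩))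
      obtain ⟨b, ρ, hb, hρ, he⟩ := mono_exp δ u i m μ.degree μ rfl hs
      refine ⟨b, X (i, 0) ^ ((D - μ.degree) * D) * ρ, fun _ => ⟨hb.trans hk, ?_, ?_⟩⟩
      · have h2 := ((Bdd.X (K := K) (D := 1) (i, 0) (by simp) le_rfl).pow
          ((D - μ.degree) * D)).mul hρ
        refine h2.mono ?_
        obtain ⟨c, hc⟩ := Nat.exists_eq_add_of_le hk
        rw [hc]
        simp only [Nat.add_sub_cancel_left, mul_one]
        nlinarith [Nat.zero_le c, Nat.zero_le μ.degree,
          Nat.zero_le (c * (μ.degree + c))]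
      · rw [map_mul, map_pow, aeval_X]
        have h5 : jet δ u (i, 0) = u i := rfl
        rw [h5]
        have h6 : u i ^ (D * D) = u i ^ ((D - μ.degree) * D) * u i ^ (μ.degree * D) := by
          rw [← pow_add, ← Nat.add_mul, Nat.sub_add_cancel hk]
        rw [h6]
        linear_combination u i ^ ((D - μ.degree) * D) * he
    · exact ⟨0, 0, fun h => absurd h hμ⟩
  choose bb ρ hbρ using h1
  refine ⟨fun b => ∑ μ ∈ Φ.support.filter (fun μ => bb μ = b), coeff μ Φ • ρ μ, ?_, ?_⟩
  · intro b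
    refine Bdd.sum _ _ fun μ hμ => ?_
    exact ((hbρ μ (Finset.mem_filter.1 hμ).1).2.1).smul _
  · rw [Fin.sum_univ_eq_sum_range (fun b => (u i ^ m) ^ b * aeval (jet δ u)
      (∑ μ ∈ Φ.support.filter (fun μ => bb μ = b), coeff μ Φ • ρ μ)) (D + 1)]
    have h2 : ∀ b, (u i ^ m) ^ b * aeval (jet δ u)
        (∑ μ ∈ Φ.support.filter (fun μ => bb μ = b), coeff μ Φ • ρ μ) =
        ∑ μ ∈ Φ.support.filter (fun μ => bb μ = b), u i ^ (D * D) *
          aeval (jet δ (Fin.snoc u (u i ^ m) : Fin (N + 1) → S)) (monomial μ (coeff μ Φ)) := by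
      intro b
      rw [map_sum, Finset.mul_sum]
      refine Finset.sum_congr rfl fun μ hμ => ?_
      obtain ⟨hμ1, hμ2⟩ := Finset.mem_filter.1 hμ
      have h3 := (hbρ μ hμ1).2.2
      have h4 : monomial μ (coeff μ Φ) = coeff μ Φ • monomial μ (1 : K) := by
        rw [smul_monomial, smul_eq_mul, mul_one]
      rw [h4, map_smul, map_smul, mul_smul_comm, mul_smul_comm, h3, hμ2]
    simp only [h2]
    rw [Finset.sum_fiberwise_of_maps_to (g := bb) (fun μ hμ => by
      have := (hbρ μ hμ).1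
      exact Finset.mem_range.2 (by omega))]
    rw [← Finset.mul_sum, ← map_sum]
    congr 2
    exact Φ.as_sum.symm

end PowAux

section Det

variable {K L : Type} [Field K] [Field L] [Algebra K L]

theorem iter_aeval_jet {S : Type} [CommRing S] [Algebra K S] (δ : Derivation K S S) {n : ℕ}
    (y : Fin n → S) (F : MvPolynomial (Fin n × ℕ) K) (a : ℕ) :
    δ^[a] (aeval (jet δ y) F) = aeval (jet δ y) ((sh K n)^[a] F) := by
  induction a with
  | zero => rfl
  | succ a ih =>
    rw [Function.iterate_succ_apply', Function.iterate_succ_apply', ih, sh_aeval_jet]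

theorem det_ne (δ : Derivation K L L) (hδ : CK δ) (hF : Full δ) {n r : ℕ}
    (F : Fin r → MvPolynomial (Fin n × ℕ) K) (h : LinearIndependent K F) :
    (Matrix.of fun a k : Fin r => (sh K n)^[(a : ℕ)] (F k)).det ≠ 0 := by
  obtain ⟨z, hz⟩ := hF n
  have hinj : Function.Injective (aeval (jet δ z) : MvPolynomial (Fin n × ℕ) K →ₐ[K] L) := hz
  have h1 : LinearIndependent K (fun k => aeval (jet δ z) (F k)) :=
    h.map' (aeval (jet δ z) : MvPolynomial (Fin n × ℕ) K →ₐ[K] L).toLinearMap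
      (LinearMap.ker_eq_bot.2 hinj)
  have h2 := wr_ne_zero δ hδ _ h1
  intro h3
  apply h2
  have h4 := congrArg (aeval (jet δ z) : MvPolynomial (Fin n × ℕ) K →ₐ[K] L) h3
  rw [map_zero, AlgHom.map_det] at h4
  rw [← h4]
  congr 1
  ext a k
  simp only [Matrix.of_apply, AlgHom.mapMatrix_apply, Matrix.map_apply]
  exact iter_aeval_jet δ z (F k) a

theorem det_zero (δ : Derivation K L L) {r : ℕ} (F : Fin r → L) (c : Fin r → K)
    (hc : ∃ k, c k ≠ 0) (h : ∑ k, c k • F k = 0) :
    (Matrix.of fun a k : Fin r => δ^[(a : ℕ)] (F k)).det = 0 := by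
  rw [← Matrix.exists_mulVec_eq_zero_iff]
  refine ⟨fun k => algebraMap K L (c k), ?_, ?_⟩
  · obtain ⟨k, hk⟩ := hc
    intro h0
    have := congrFun h0 k
    simp only [Pi.zero_apply, map_eq_zero] at this
    exact hk this
  · ext a
    have h1 : ∀ a : ℕ, ∑ k, c k • δ^[a] (F k) = 0 := by
      intro a
      induction a with
      | zero => simpa using h
      | succ a ih =>
        have := congrArg δ ih
        rw [map_zero, map_sum] at this
        simpa [Function.iterate_succ_apply'] using this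
    have := h1 a
    simp only [Matrix.mulVec, dotProduct, Matrix.of_apply, Pi.zero_apply]
    rw [← this]
    refine Finset.sum_congr rfl fun k _ => ?_
    rw [Algebra.smul_def]; ring

end Det

theorem rel_pow (D n N : ℕ) : ∃ D' : ℕ, ∀ {K L : Type} [Field K] [Field L] [Algebra K L]
    [CharZero K] (δ : Derivation K L L), CK δ → Full δ →
    ∀ (u : Fin N → MvPolynomial (Fin n × ℕ) K) (y : Fin n → L) (i : Fin N) (m : ℕ), u i ≠ 0 →
      RelAt δ D (Fin.snoc u (u i ^ m) : Fin (N + 1) → _) y → RelAt δ D' u y := by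
  refine ⟨(D + 1) * (D * (2 * D + 2) + 2 * D) + 1, ?_⟩
  intro K L _ _ _ _ δ hδ hF u y i m hi ⟨Φ, hΦ, hne, h0⟩
  by_cases hy : aeval (jet δ y) (u i) = 0
  · refine ⟨X (i, 0), Bdd.X _ (by simp) (by omega), ?_, ?_⟩
    · rw [aeval_X]; exact hi
    · rw [aeval_X]; exact hy
  obtain ⟨R, hR, hsum⟩ := full_exp (sh K n) u i m Φ hΦ
  obtain ⟨r, e, c, hind, hc⟩ := subfam (K := K)
    (fun b : Fin (D + 1) => (u i ^ m) ^ (b : ℕ) * aeval (jet (sh K n) u) (R b))
  rw [hsum] at hc
  have hr : r ≤ D + 1 := by simpa using Fintype.card_le_of_embedding e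
  have hdet := det_ne δ hδ hF _ hind
  have hc0 : ∃ k, c k ≠ 0 := by
    by_contra hcon
    push Not at hcon
    have : u i ^ (D * D) * aeval (jet (sh K n) (Fin.snoc u (u i ^ m) : Fin (N + 1) → _)) Φ = 0 := by
      rw [← hc]
      refine Finset.sum_eq_zero fun k _ => ?_
      rw [hcon k, zero_smul]
    exact (mul_ne_zero (pow_ne_zero _ hi) hne) this
  obtain ⟨Q, hQ⟩ : ∃ Q : Matrix (Fin r) (Fin r) (MvPolynomial (Fin N × ℕ) K),
      Q = Matrix.of fun a k : Fin r => qP i (m * (e k : ℕ)) (R (e k)) (a : ℕ) := ⟨_, rfl⟩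
  have hrc : (∏ a : Fin r, u i ^ (a : ℕ)) * (Matrix.of fun a k : Fin r =>
      (sh K n)^[(a : ℕ)] ((u i ^ m) ^ ((e k : Fin (D + 1)) : ℕ) *
        aeval (jet (sh K n) u) (R (e k)))).det =
      (∏ k : Fin r, (u i ^ m) ^ ((e k : Fin (D + 1)) : ℕ)) *
        aeval (jet (sh K n) u) Q.det := by
    have h1 : aeval (jet (sh K n) u) Q.det = (Matrix.of fun a k : Fin r =>
        aeval (jet (sh K n) u) (qP i (m * (e k : ℕ)) (R (e k)) a)).det := by
      rw [AlgHom.map_det, hQ]
      congr 1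
    rw [h1]
    refine det_rc _ _ _ _ fun a k => ?_
    simp only [Matrix.of_apply]
    exact qP_ev (sh K n) u i m (e k) (R (e k)) a
  refine ⟨Q.det, ?_, ?_, ?_⟩
  · have h1 : Bdd (r * (D * (2 * D + 2) + 2 * D)) Q.det := by
      refine Bdd.det _ fun a k => ?_
      rw [hQ]
      simp only [Matrix.of_apply]
      refine (qP_bdd i _ (hR (e k)) a).mono ?_
      have := a.2
      omega
    refine h1.mono ?_
    exact (Nat.mul_le_mul_right _ hr).trans (Nat.le_succ _)
  · intro h1
    rw [h1, mul_zero] at hrc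
    rcases mul_eq_zero.1 hrc with h2 | h2
    · exact (Finset.prod_ne_zero_iff.2 fun a _ => pow_ne_zero _ hi) h2
    · exact hdet h2
  · have h1 := congrArg (aeval (jet δ y) : MvPolynomial (Fin n × ℕ) K →ₐ[K] L) hrc
    rw [map_mul, map_mul, AlgHom.map_det] at h1
    have h2 : ((aeval (jet δ y) : MvPolynomial (Fin n × ℕ) K →ₐ[K] L).mapMatrix
        (Matrix.of fun a k : Fin r =>
        (sh K n)^[(a : ℕ)] ((u i ^ m) ^ ((e k : Fin (D + 1)) : ℕ) *
        aeval (jet (sh K n) u) (R (e k))))).det = 0 := by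
      have h3 := det_zero δ (fun k : Fin r => aeval (jet δ y)
        ((u i ^ m) ^ ((e k : Fin (D + 1)) : ℕ) * aeval (jet (sh K n) u) (R (e k)))) c hc0 (by
          have h4 := congrArg (aeval (jet δ y) : MvPolynomial (Fin n × ℕ) K →ₐ[K] L) hc
          rw [map_sum, map_mul, h0, mul_zero] at h4
          rw [← h4]
          refine Finset.sum_congr rfl fun k _ => ?_
          rw [map_smul])
      rw [← h3]
      congr 1
      ext a k
      simp only [Matrix.of_apply, AlgHom.mapMatrix_apply, Matrix.map_apply]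
      exact (iter_aeval_jet δ y _ a).symm
    rw [h2, mul_zero] at h1
    rcases mul_eq_zero.1 h1.symm with h5 | h5
    · exfalso
      rw [map_prod] at h5
      obtain ⟨k, _, hk⟩ := Finset.prod_eq_zero_iff.1 h5
      rw [map_pow, map_pow] at hk
      exact hy (pow_eq_zero_iff'.1 (pow_eq_zero_iff'.1 hk).1).1
    · exact h5

end Pool.Agent.FN
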