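import Pool.Agent.FN.Defs

/-! # Elimination of one power: algebra -/

namespace Pool.Agent.FN

open MvPolynomial

/-- the recursion: `Λ ^ a * D^[a] (g * R) = g * qrec D M Λ R a` if `Λ * D g = M * g` -/
def qrec {R : Type*} [CommRing R] (D : R → R) (M Λ R0 : R) : ℕ → R
  | 0 => R0
  | a + 1 => (M - (a : R) * D Λ) * qrec D M Λ R0 a + Λ * D (qrec D M Λ R0 a)

theorem qrec_spec {A R : Type*} [CommRing A] [CommRing R] [Algebra A R] (D : Derivation A R R)
    (g M Λ R0 : R) (h : Λ * D g = M * g) (a : ℕ) :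
    Λ ^ a * (D^[a] (g * R0)) = g * qrec D M Λ R0 a := by
  induction a with
  | zero => simp [qrec]
  | succ a ih =>
    have h1 := congrArg D ih
    rw [Derivation.leibniz, Derivation.leibniz, Derivation.leibniz_pow] at h1
    simp only [smul_eq_mul, nsmul_eq_mul] at h1
    rw [Function.iterate_succ_apply', qrec]
    have h2 : (a : R) * Λ ^ a = Λ * ((a : R) * Λ ^ (a - 1)) := by
      cases a with
      | zero => simp
      | succ b => simp only [Nat.add_sub_cancel]; ring
    have h3 : D^[a] (g * R0) * ((a : R) * Λ ^ a * D Λ) =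
        (a : R) * D Λ * (g * qrec D M Λ R0 a) := by
      rw [← ih]; ring
    linear_combination Λ * h1 + D^[a] (g * R0) * D Λ * h2 + qrec D M Λ R0 a * h - h3

theorem qrec_map {R S : Type*} [CommRing R] [CommRing S] (φ : R →+* S) (D : R → R) (E : S → S)
    (h : ∀ x, φ (D x) = E (φ x)) (M Λ R0 : R) (a : ℕ) :
    φ (qrec D M Λ R0 a) = qrec E (φ M) (φ Λ) (φ R0) a := by
  induction a with
  | zero => simp [qrec]
  | succ a ih => simp [qrec, h, ih]

/-- powers: `h * D (h ^ m) ^ b = (m b D h) * (h ^ m) ^ b` -/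
theorem pow_log {A R : Type*} [CommRing A] [CommRing R] [Algebra A R] (D : Derivation A R R)
    (h : R) (m b : ℕ) : h * D ((h ^ m) ^ b) = (((m * b : ℕ) : R) * D h) * (h ^ m) ^ b := by
  rw [← pow_mul, Derivation.leibniz_pow]
  simp only [smul_eq_mul, nsmul_eq_mul]
  cases hm : m * b with
  | zero => simp
  | succ c => simp only [Nat.add_sub_cancel]; ring

/-- the determinant of a family multiplied by row and column factors -/
theorem det_rc {R : Type*} [CommRing R] {r : ℕ} (u v : Fin r → R) (A B : Matrix (Fin r) (Fin r) R)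
    (h : ∀ a k, u a * A a k = v k * B a k) :
    (∏ a, u a) * A.det = (∏ k, v k) * B.det := by
  rw [← Matrix.det_mul_column, ← Matrix.det_mul_row]
  congr 1
  ext a k
  simpa using h a k

/-- a sum is a combination of an independent subfamily -/
theorem subfam {K V : Type*} [Field K] [AddCommGroup V] [Module K V] {s : ℕ} (f : Fin s → V) :
    ∃ (r : ℕ) (e : Fin r ↪ Fin s) (c : Fin r → K), LinearIndependent K (fun k => f (e k)) ∧
      ∑ k, c k • f (e k) = ∑ i, f i := by
  classical
  have hne : ∃ N : ℕ, ∃ (I : Finset (Fin s)) (c : Fin s → K), I.card = N ∧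
      ∑ i ∈ I, c i • f i = ∑ i, f i :=
    ⟨_, Finset.univ, fun _ => 1, rfl, by simp⟩
  obtain ⟨I, c, hI, hc⟩ := Nat.find_spec hne
  have hmin : ∀ (J : Finset (Fin s)) (g : Fin s → K), ∑ i ∈ J, g i • f i = ∑ i, f i →
      I.card ≤ J.card := by
    intro J g hg
    rw [hI]
    exact Nat.find_min' hne ⟨J, g, rfl, hg⟩
  have hind : ∀ g : Fin s → K, ∑ i ∈ I, g i • f i = 0 → ∀ i ∈ I, g i = 0 := by
    intro g hg i hi
    by_contra hgi
    have h1 : ∑ k ∈ I.erase i, (c k - c i / g i * g k) • f k = ∑ i, f i := by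
      have h2 : ∑ k ∈ I, (c k - c i / g i * g k) • f k = ∑ i, f i := by
        simp only [sub_smul, mul_smul, Finset.sum_sub_distrib, ← Finset.smul_sum]
        rw [hg, hc]; simp
      rw [← h2, ← Finset.add_sum_erase I _ hi]
      rw [div_mul_cancel₀ _ hgi]
      simp
    have h3 := hmin _ _ h1
    rw [Finset.card_erase_of_mem hi] at h3
    have : 0 < I.card := Finset.card_pos.2 ⟨i, hi⟩
    omega
  refine ⟨I.card, (I.orderEmbOfFin rfl).toEmbedding, fun k => c (I.orderEmbOfFin rfl k), ?_, ?_⟩
  · rw [Fintype.linearIndependent_iff]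
    intro g hg k
    have h1 := hind (fun i => if hi : ∃ k, I.orderEmbOfFin rfl k = i then g hi.choose else 0) ?_
      (I.orderEmbOfFin rfl k) (I.orderEmbOfFin_mem rfl k)
    · have hex : ∃ k', I.orderEmbOfFin rfl k' = I.orderEmbOfFin rfl k := ⟨k, rfl⟩
      simp only [hex, ↓reduceDIte] at h1
      have := (I.orderEmbOfFin rfl).injective hex.choose_spec
      rwa [this] at h1
    · rw [← hg]
      symm
      refine Finset.sum_bij (fun k _ => I.orderEmbOfFin rfl k)
        (fun k _ => I.orderEmbOfFin_mem rfl k)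
        (fun a _ b _ hab => (I.orderEmbOfFin rfl).injective hab) ?_ ?_
      · intro b hb
        have : b ∈ Set.range (I.orderEmbOfFin rfl) := by
          rw [Finset.range_orderEmbOfFin]; exact hb
        obtain ⟨k, hk⟩ := this
        exact ⟨k, Finset.mem_univ _, hk⟩
      · intro k _
        have hex : ∃ k', I.orderEmbOfFin rfl k' = I.orderEmbOfFin rfl k := ⟨k, rfl⟩
        simp only [hex, ↓reduceDIte]
        have := (I.orderEmbOfFin rfl).injective hex.choose_spec
        rw [this]
        rfl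
  · rw [← hc]
    refine Finset.sum_bij (fun k _ => I.orderEmbOfFin rfl k)
      (fun k _ => I.orderEmbOfFin_mem rfl k)
      (fun a _ b _ hab => (I.orderEmbOfFin rfl).injective hab) ?_ ?_
    · intro b hb
      have : b ∈ Set.range (I.orderEmbOfFin rfl) := by
        rw [Finset.range_orderEmbOfFin]; exact hb
      obtain ⟨k, hk⟩ := this
      exact ⟨k, Finset.mem_univ _, hk⟩
    · intro k _
      rfl

end Pool.Agent.FN
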