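import Pool.Agent.FN.Pow
import Pool.Agent.FN.IDefs

/-! # Elimination of one power, uniformly in the derivation -/

namespace Pool.Agent.FN

open MvPolynomial

theorem pow_core {D n N : ℕ} {K L : Type} [Field K] [Field L] [Algebra K L]
    (δ₀ : Derivation K L L) (hδ : CK δ₀) (hF : Full δ₀)
    (u : Fin N → MvPolynomial (Fin n × ℕ) K) (i : Fin N) (m : ℕ) (hi : u i ≠ 0)
    (Φ : MvPolynomial (Fin (N + 1) × ℕ) K) (hΦ : Bdd D Φ)
    (hne : aeval (jet (sh K n) (Fin.snoc u (u i ^ m) : Fin (N + 1) → _)) Φ ≠ 0) :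
    ∃ Φ' : MvPolynomial (Fin N × ℕ) K, Bdd ((D + 1) * (D * (2 * D + 2) + 2 * D) + 1) Φ' ∧
      aeval (jet (sh K n) u) Φ' ≠ 0 ∧ ∀ (δ : Derivation K L L) (y : Fin n → L),
        aeval (jet δ y) (aeval (jet (sh K n) (Fin.snoc u (u i ^ m) : Fin (N + 1) → _)) Φ) = 0 →
          aeval (jet δ y) (aeval (jet (sh K n) u) Φ') = 0 := by
  obtain ⟨R, hR, hsum⟩ := full_exp (sh K n) u i m Φ hΦ
  obtain ⟨r, e, c, hind, hc⟩ := subfam (K := K)
    (fun b : Fin (D + 1) => (u i ^ m) ^ (b : ℕ) * aeval (jet (sh K n) u) (R b))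
  rw [hsum] at hc
  have hr : r ≤ D + 1 := by simpa using Fintype.card_le_of_embedding e
  have hdet := det_ne δ₀ hδ hF _ hind
  have hc0 : ∃ k, c k ≠ 0 := by
    by_contra hcon
    push Not at hcon
    have : u i ^ (D * D) * aeval (jet (sh K n) (Fin.snoc u (u i ^ m) : Fin (N + 1) → _)) Φ = 0 := by
      rw [← hc]
      refine Finset.sum_eq_zero fun k _ => ?_
      rw [hcon k, zero_smul]
    exact (mul_ne_zero (pow_ne_zero _ hi) hne) this
  obtain ⟨Q, hQ⟩ : ∃ Q : Matrix (Fin r) (Fin r) (MvPolynomial (Fin N × ℕ) K),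
      Q = Matrix.of fun a k : Fin r => qP i (m * (e k : ℕ)) (R (e k)) (a : ℕ) := ⟨_, rfl⟩
  have hrc : (∏ a : Fin r, u i ^ (a : ℕ)) * (Matrix.of fun a k : Fin r =>
      (sh K n)^[(a : ℕ)] ((u i ^ m) ^ ((e k : Fin (D + 1)) : ℕ) *
        aeval (jet (sh K n) u) (R (e k)))).det =
      (∏ k : Fin r, (u i ^ m) ^ ((e k : Fin (D + 1)) : ℕ)) *
        aeval (jet (sh K n) u) Q.det := by
    have h1 : aeval (jet (sh K n) u) Q.det = (Matrix.of fun a k : Fin r =>
        aeval (jet (sh K n) u) (qP i (m * (e k : ℕ)) (R (e k)) a)).det := by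
      rw [AlgHom.map_det, hQ]
      congr 1
    rw [h1]
    refine det_rc _ _ _ _ fun a k => ?_
    simp only [Matrix.of_apply]
    exact qP_ev (sh K n) u i m (e k) (R (e k)) a
  refine ⟨X (i, 0) * Q.det, ?_, ?_, ?_⟩
  · have h1 : Bdd (r * (D * (2 * D + 2) + 2 * D)) Q.det := by
      refine Bdd.det _ fun a k => ?_
      rw [hQ]
      simp only [Matrix.of_apply]
      refine (qP_bdd i _ (hR (e k)) a).mono ?_
      have := a.2
      omega
    have h2 := (Bdd.X (K := K) (D := 1) (i, 0) (by simp) le_rfl).mul h1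
    refine h2.mono ?_
    rw [add_comm]
    exact Nat.add_le_add_right (Nat.mul_le_mul_right _ hr) 1
  · rw [map_mul, aeval_X]
    refine mul_ne_zero hi ?_
    intro h1
    rw [h1, mul_zero] at hrc
    rcases mul_eq_zero.1 hrc with h2 | h2
    · exact (Finset.prod_ne_zero_iff.2 fun a _ => pow_ne_zero _ hi) h2
    · exact hdet h2
  · intro δ y h0
    rw [map_mul, map_mul, aeval_X]
    have hX : jet (sh K n) u (i, 0) = u i := rfl
    rw [hX]
    by_cases hy : aeval (jet δ y) (u i) = 0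
    · rw [hy, zero_mul]
    have h1 := congrArg (aeval (jet δ y) : MvPolynomial (Fin n × ℕ) K →ₐ[K] L) hrc
    rw [map_mul, map_mul, AlgHom.map_det] at h1
    have h2 : ((aeval (jet δ y) : MvPolynomial (Fin n × ℕ) K →ₐ[K] L).mapMatrix
        (Matrix.of fun a k : Fin r =>
        (sh K n)^[(a : ℕ)] ((u i ^ m) ^ ((e k : Fin (D + 1)) : ℕ) *
        aeval (jet (sh K n) u) (R (e k))))).det = 0 := by
      have h3 := det_zero δ (fun k : Fin r => aeval (jet δ y)
        ((u i ^ m) ^ ((e k : Fin (D + 1)) : ℕ) * aeval (jet (sh K n) u) (R (e k)))) c hc0 (by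
          have h4 := congrArg (aeval (jet δ y) : MvPolynomial (Fin n × ℕ) K →ₐ[K] L) hc
          rw [map_sum, map_mul, h0, mul_zero] at h4
          rw [← h4]
          refine Finset.sum_congr rfl fun k _ => ?_
          rw [map_smul])
      rw [← h3]
      congr 1
      ext a k
      simp only [Matrix.of_apply, AlgHom.mapMatrix_apply, Matrix.map_apply]
      exact (iter_aeval_jet δ y _ a).symm
    rw [h2, mul_zero] at h1
    rcases mul_eq_zero.1 h1.symm with h5 | h5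
    · exfalso
      rw [map_prod] at h5
      obtain ⟨k, _, hk⟩ := Finset.prod_eq_zero_iff.1 h5
      rw [map_pow, map_pow] at hk
      exact hy (pow_eq_zero_iff'.1 (pow_eq_zero_iff'.1 hk).1).1
    · rw [h5, mul_zero]

theorem urel_pow (D n N : ℕ) : ∃ D' : ℕ, ∀ {K L : Type} [Field K] [Field L] [Algebra K L]
    [CharZero K], (∃ δ : Derivation K L L, CK δ ∧ Full δ) →
    ∀ (u : Fin N → MvPolynomial (Fin n × ℕ) K) (y : Fin n → L) (i : Fin N) (m : ℕ), u i ≠ 0 →
      URel D (Fin.snoc u (u i ^ m) : Fin (N + 1) → _) y → URel D' u y := by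
  refine ⟨(D + 1) * (D * (2 * D + 2) + 2 * D) + 1, ?_⟩
  intro K L _ _ _ _ ⟨δ₀, hδ, hF⟩ u y i m hi ⟨Φ, hΦ, hne, h0⟩
  obtain ⟨Φ', h1, h2, h3⟩ := pow_core δ₀ hδ hF u i m hi Φ hΦ hne
  exact ⟨Φ', h1, h2, fun δ hd hf => h3 δ y (h0 δ hd hf)⟩

end Pool.Agent.FN
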