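import Pool.Agent.FN.Poly
import Pool.Agent.FN.Pow

/-! # Relations computed by straight-line programs with arbitrary powers -/

namespace Pool.Agent.FN

open MvPolynomial

/-- straight-line programs with `+`, `×` and arbitrary powers -/
inductive Prog {K : Type} [Field K] {n : ℕ} : List (MvPolynomial (Fin n) K) → Prop
  | nil : Prog []
  | var (l) (i : Fin n) : Prog l → Prog (X i :: l)
  | const (l) (c : K) : Prog l → Prog (C c :: l)
  | add (l P Q) : P ∈ l → Q ∈ l → Prog l → Prog ((P + Q) :: l)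
  | mul (l P Q) : P ∈ l → Q ∈ l → Prog l → Prog ((P * Q) :: l)
  | pow (l P) (m : ℕ) : P ∈ l → Prog l → Prog (P ^ m :: l)

variable {K L : Type} [Field K] [Field L] [Algebra K L]

/-- the variables and the polynomials of the program -/
noncomputable def vec {n : ℕ} : (l : List (MvPolynomial (Fin n) K)) →
    Fin (n + l.length) → MvPolynomial (Fin n × ℕ) K
  | [] => fun i => X (i, 0)
  | P :: l => (Fin.snoc (vec l) (up P) : Fin (n + l.length + 1) → MvPolynomial (Fin n × ℕ) K)

theorem vec_var {n : ℕ} (l : List (MvPolynomial (Fin n) K)) (i : Fin n) :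
    ∃ j, vec l j = X (i, 0) := by
  induction l with
  | nil => exact ⟨i, rfl⟩
  | cons P l ih =>
    obtain ⟨j, hj⟩ := ih
    refine ⟨Fin.castSucc j, ?_⟩
    rw [← hj]
    exact Fin.snoc_castSucc (α := fun _ => MvPolynomial (Fin n × ℕ) K) (up P) (vec l) j

theorem vec_mem {n : ℕ} (l : List (MvPolynomial (Fin n) K)) {P : MvPolynomial (Fin n) K}
    (h : P ∈ l) : ∃ j, vec l j = up P := by
  induction l with
  | nil => simp at h
  | cons Q l ih =>
    rcases List.mem_cons.1 h with rfl | h1
    · exact ⟨Fin.last _, Fin.snoc_last (α := fun _ => MvPolynomial (Fin n × ℕ) K) _ _⟩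
    · obtain ⟨j, hj⟩ := ih h1
      refine ⟨Fin.castSucc j, ?_⟩
      rw [← hj]
      exact Fin.snoc_castSucc (α := fun _ => MvPolynomial (Fin n × ℕ) K) (up Q) (vec l) j

theorem up_pow {n : ℕ} (P : MvPolynomial (Fin n) K) (m : ℕ) : up (P ^ m) = up P ^ m := by
  rw [up, map_pow, ← up]

/-- one step of a program -/
theorem step_elim (D n N : ℕ) : ∃ D' : ℕ, ∀ {K L : Type} [Field K] [Field L] [Algebra K L]
    [CharZero K] (δ : Derivation K L L), CK δ → Full δ → ∀ (y : Fin n → L)
      (P : MvPolynomial (Fin n) K) (l : List (MvPolynomial (Fin n) K)), l.length = N →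
        Prog (P :: l) → RelAt δ D (vec (P :: l)) y → RelAt δ D' (vec l) y := by
  obtain ⟨D1, h1⟩ := rel_poly D 2 n (n + N)
  obtain ⟨D2, h2⟩ := rel_pow D n (n + N)
  refine ⟨max D1 D2, fun {K L} _ _ _ _ δ hδ hF y P l hl hp h => ?_⟩
  subst hl
  have hpoly : ∀ q : MvPolynomial (Fin (n + l.length)) K, q.totalDegree ≤ 2 →
      up P = aeval (vec l) q → RelAt δ (max D1 D2) (vec l) y := by
    intro q hq he
    refine (h1 δ (vec l) y q hq ?_).mono (le_max_left _ _)
    rw [← he]
    exact h
  have hX1 : ∀ j : Fin (n + l.length), (X j : MvPolynomial (Fin (n + l.length)) K).totalDegree ≤ 1 :=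
    fun j => by rw [totalDegree_X]
  cases hp with
  | var _ i _ =>
    obtain ⟨j, hj⟩ := vec_var l i
    refine hpoly (X j) ((hX1 j).trans (by norm_num)) ?_
    rw [aeval_X, hj, up, aeval_X]
  | const _ c _ =>
    refine hpoly (C c) (by rw [totalDegree_C]; exact Nat.zero_le _) ?_
    rw [up, aeval_C, aeval_C]
  | add _ A B hA hB _ =>
    obtain ⟨i, hi⟩ := vec_mem l hA
    obtain ⟨j, hj⟩ := vec_mem l hB
    refine hpoly (X i + X j) ((totalDegree_add _ _).trans (max_le ((hX1 i).trans (by norm_num))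
      ((hX1 j).trans (by norm_num)))) ?_
    rw [map_add, aeval_X, aeval_X, hi, hj, up, map_add]
    rfl
  | mul _ A B hA hB _ =>
    obtain ⟨i, hi⟩ := vec_mem l hA
    obtain ⟨j, hj⟩ := vec_mem l hB
    refine hpoly (X i * X j) ((totalDegree_mul _ _).trans (by
      have := hX1 i
      have := hX1 j
      omega)) ?_
    rw [map_mul, aeval_X, aeval_X, hi, hj, up, map_mul]
    rfl
  | pow _ A m hA _ =>
    obtain ⟨i, hi⟩ := vec_mem l hA
    by_cases h0 : vec l i = 0
    · refine hpoly (C (0 ^ m)) (by rw [totalDegree_C]; exact Nat.zero_le _) ?_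
      rw [up_pow, ← hi, h0, aeval_C, map_pow, map_zero]
    · refine (h2 δ hδ hF (vec l) y i m h0 ?_).mono (le_max_right _ _)
      rw [hi, ← up_pow]
      exact h

theorem prog_elim (n m : ℕ) : ∀ D : ℕ, ∃ D' : ℕ, ∀ {K L : Type} [Field K] [Field L]
    [Algebra K L] [CharZero K] (δ : Derivation K L L), CK δ → Full δ → ∀ (y : Fin n → L)
      (l : List (MvPolynomial (Fin n) K)), l.length = m → Prog l → RelAt δ D (vec l) y →
        DRel δ D' y := by
  induction m with
  | zero =>
    intro D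
    refine ⟨D, fun {K L} _ _ _ _ δ hδ hF y l hl hp h => ?_⟩
    obtain rfl := List.length_eq_zero_iff.1 hl
    exact rel_base h
  | succ m ih =>
    intro D
    obtain ⟨D1, h1⟩ := step_elim D n m
    obtain ⟨D2, h2⟩ := ih D1
    refine ⟨D2, fun {K L} _ _ _ _ δ hδ hF y l hl hp h => ?_⟩
    cases l with
    | nil => simp at hl
    | cons P l =>
      have hl' : l.length = m := by simpa using hl
      refine h2 δ hδ hF y l hl' ?_ (h1 δ hδ hF y P l hl' hp h)
      cases hp <;> assumption

theorem DRel.mono {δ : Derivation K L L} {D E n : ℕ} {y : Fin n → L} (h : D ≤ E)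
    (hr : DRel δ D y) : DRel δ E y := by
  obtain ⟨G, h0, h1, h2, h3⟩ := hr
  exact ⟨G, h0, h1.trans h, fun v hv => (h2 v hv).trans h, h3⟩

theorem up_injective {n : ℕ} {P : MvPolynomial (Fin n) K} (h : up P = 0) : P = 0 := by
  rw [up_eq_rename] at h
  exact rename_injective (fun i : Fin n => ((i, 0) : Fin n × ℕ))
    (fun i j hij => (Prod.mk.inj hij).1) (by rw [h, map_zero])

theorem prog (n s : ℕ) : ∃ D : ℕ, ∀ {K L : Type} [Field K] [Field L] [Algebra K L] [CharZero K]
    (δ : Derivation K L L), CK δ → Full δ → ∀ (y : Fin n → L) (l : List (MvPolynomial (Fin n) K)),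
      Prog l → l.length ≤ s → ∀ P ∈ l, P ≠ 0 → aeval y P = 0 → DRel δ D y := by
  choose D hD using fun m => prog_elim n m 1
  refine ⟨∑ m ∈ Finset.range (s + 1), D m, fun {K L} _ _ _ _ δ hδ hF y l hp hl P hP hP0 hy => ?_⟩
  obtain ⟨j, hj⟩ := vec_mem l hP
  have h1 : RelAt δ 1 (vec l) y := by
    refine ⟨X (j, 0), Bdd.X _ (Nat.zero_le _) le_rfl, ?_, ?_⟩
    · rw [aeval_X]
      change vec l j ≠ 0
      rw [hj]
      exact fun h => hP0 (up_injective h)
    · rw [aeval_X]
      change aeval (jet δ y) (vec l j) = 0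
      rw [hj, aeval_jet_up, hy]
  refine (hD l.length δ hδ hF y l rfl hp h1).mono ?_
  exact Finset.single_le_sum (f := D) (fun _ _ => Nat.zero_le _)
    (Finset.mem_range.2 (Nat.lt_succ_of_le hl))

end Pool.Agent.FN
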