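import Pool.Agent.FN.PsiU
import Pool.Agent.FN.Der
import Pool.Agent.FN.Den2
import Pool.Agent.FN.Tup

/-! # Several logarithms: the exceptional tuples, exponent 2 -/

namespace Pool.Agent.FN

open MvPolynomial

section gen

variable {K L : Type} [Field K] [Field L] [Algebra K L]

theorem IRel.mono {D E n : ℕ} {y : Fin n → L} (h : D ≤ E) (hr : IRel K D y) : IRel K E y := by
  obtain ⟨G, h1, h2, h3⟩ := hr
  exact ⟨G, h1, ⟨h2.1.trans h, fun v hv => (h2.2 v hv).trans h⟩, h3⟩

theorem irel_of_injective {D n m : ℕ} (φ : Fin n → Fin m) (hφ : Function.Injective φ)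
    {y : Fin m → L} (h : IRel K D (y ∘ φ)) : IRel K D y := by
  obtain ⟨G, h1, h2, h3⟩ := h
  have hinj : Function.Injective fun v : Fin n × ℕ => (φ v.1, v.2) := by
    intro v w hvw
    simp only [Prod.mk.injEq] at hvw
    exact Prod.ext (hφ hvw.1) hvw.2
  refine ⟨rename (fun v : Fin n × ℕ => (φ v.1, v.2)) G, fun h => h1 (rename_injective _ hinj
    (by rw [h, map_zero])), ⟨(totalDegree_rename_le _ _).trans h2.1, fun v hv => ?_⟩,
    fun δ hδ hF => ?_⟩
  · classical
    have := vars_rename _ _ hv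
    rw [Finset.mem_image] at this
    obtain ⟨w, hw, rfl⟩ := this
    exact h2.2 w hw
  · rw [aeval_rename]
    exact h3 δ hδ hF

/-- the head block replaced by constants -/
noncomputable def tailK {l r : ℕ} (w : Fin r → K) (P : MvPolynomial (Fin (l + 1) × Fin r) K) :
    MvPolynomial (Fin l × Fin r) K :=
  aeval (fun v => Fin.cases (motive := fun _ => MvPolynomial (Fin l × Fin r) K) (C (w v.2))
    (fun i => X (i, v.2)) v.1) P

/-- the other blocks replaced by elements of `L` -/
noncomputable def headL {l r : ℕ} (w : Fin l × Fin r → L)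
    (P : MvPolynomial (Fin (l + 1) × Fin r) K) : MvPolynomial (Fin r) L :=
  aeval (fun v => Fin.cases (motive := fun _ => MvPolynomial (Fin r) L) (X v.2)
    (fun i => C (w (i, v.2))) v.1) P

theorem aeval_tailK {l r : ℕ} (w : Fin r → K) (z : Fin l × Fin r → L)
    (P : MvPolynomial (Fin (l + 1) × Fin r) K) :
    aeval z (tailK w P) = aeval (fun v : Fin (l + 1) × Fin r => Fin.cases (motive := fun _ => L)
      (algebraMap K L (w v.2)) (fun i => z (i, v.2)) v.1) P := by
  rw [tailK, ← AlgHom.comp_apply, comp_aeval]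
  congr 2
  funext v
  obtain ⟨i, j⟩ := v
  refine Fin.cases ?_ (fun i => ?_) i
  · simp
  · simp

theorem eval_headL {l r : ℕ} (w : Fin (l + 1) × Fin r → L)
    (P : MvPolynomial (Fin (l + 1) × Fin r) K) :
    eval (fun j => w (0, j)) (headL (fun v => w (v.1.succ, v.2)) P) = aeval w P := by
  have h1 : ∀ Q : MvPolynomial (Fin r) L, eval (fun j => w (0, j)) Q =
      (aeval (R := L) (fun j => w (0, j)) Q : L) := fun Q => by
    rw [← MvPolynomial.coe_aeval_eq_eval]
    rfl
  rw [h1, headL]
  have h2 := comp_aeval_apply (R := K) (φ := (aeval (R := L) (fun j => w (0, j)) :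
    MvPolynomial (Fin r) L →ₐ[L] L).restrictScalars K)
    (fun v : Fin (l + 1) × Fin r => Fin.cases (motive := fun _ => MvPolynomial (Fin r) L) (X v.2)
    (fun i => C (w (i.succ, v.2))) v.1) P
  refine h2.trans ?_
  congr 2
  funext v
  obtain ⟨i, j⟩ := v
  refine Fin.cases ?_ (fun i => ?_) i
  · simp
  · simp

theorem deg_tailK {l r : ℕ} (w : Fin r → K) (P : MvPolynomial (Fin (l + 1) × Fin r) K) :
    (tailK w P).totalDegree ≤ P.totalDegree := by
  refine totalDegree_subst _ (fun v => ?_) P
  obtain ⟨i, j⟩ := v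
  refine Fin.cases ?_ (fun i => ?_) i
  · simp
  · simp

theorem deg_headL {l r : ℕ} (w : Fin l × Fin r → L) (P : MvPolynomial (Fin (l + 1) × Fin r) K) :
    (headL w P).totalDegree ≤ P.totalDegree := by
  classical
  rw [headL, aeval_def, eval₂_eq]
  refine totalDegree_finsetSum_le fun m hm => ?_
  refine (totalDegree_mul _ _).trans ?_
  rw [IsScalarTower.algebraMap_apply K L (MvPolynomial (Fin r) L), MvPolynomial.algebraMap_eq,
    totalDegree_C, zero_add]
  refine (totalDegree_finsetProd _ _).trans ?_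
  refine le_trans (Finset.sum_le_sum (g := fun i => m i) fun v _ => ?_) (le_totalDegree hm)
  refine (totalDegree_pow _ _).trans ((Nat.mul_le_mul_left _ ?_).trans (by rw [mul_one]))
  obtain ⟨i, j⟩ := v
  refine Fin.cases ?_ (fun i => ?_) i
  · simp
  · simp

/-- **one more variable**: if `x` has no uniform relation, the relations of `x` with one more number `z` are
differential equations for `z` -/
theorem step (n D : ℕ) : ∃ E r D' : ℕ, ∀ {K L : Type} [Field K] [Field L] [Algebra K L] [CharZero K],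
    (∃ δ : Derivation K L L, CK δ ∧ Full δ) → ∀ x : Fin n → L, ¬ IRel K D' x →
      ∃ (δ : Derivation K L L) (Ψ : MvPolynomial (Fin r) L), CK δ ∧ Ψ ≠ 0 ∧ Ψ.totalDegree ≤ E ∧
        ∀ z : L, IRel K D (Fin.cons z x : Fin (n + 1) → L) →
          eval (fun i : Fin r => δ^[(i : ℕ)] z) Ψ = 0 := by
  classical
  obtain ⟨E, r, h⟩ := psiU (n + 1) D
  refine ⟨E, r, max E r, fun {K L} _ _ _ _ hδ x hx => ?_⟩
  obtain ⟨W, hW0, hWE, hWv, hW⟩ := h (K := K) (L := L) hδ
  -- finitely many variables
  let f : Fin (n + 1) × Fin r → Fin (n + 1) × ℕ := fun v => (v.1, (v.2 : ℕ))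
  have hf : Function.Injective f := by
    intro v v' hvv
    simp only [f, Prod.mk.injEq] at hvv
    exact Prod.ext hvv.1 (Fin.ext hvv.2)
  obtain ⟨q, rfl⟩ := MvPolynomial.exists_rename_eq_of_vars_subset_range W f hf (by
    intro v hv'
    exact ⟨(v.1, ⟨v.2, hWv v hv'⟩), rfl⟩)
  have hq0 : q ≠ 0 := by
    rintro rfl
    exact hW0 (map_zero _)
  have hqd : q.totalDegree ≤ E := by
    refine le_trans ?_ hWE
    rw [totalDegree, totalDegree, support_rename_of_injective hf, Finset.sup_image]
    refine Finset.sup_mono_fun fun m _ => ?_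
    simp only [Function.comp_apply]
    rw [Finsupp.sum_mapDomain_index (fun _ => rfl) (fun _ _ _ => rfl)]
  -- a point
  have hinf : Infinite K := inferInstance
  have h0 : ∃ w, eval w q ≠ 0 := by
    by_contra h
    push Not at h
    exact hq0 (MvPolynomial.funext fun w => by rw [h w, map_zero])
  obtain ⟨w, hw⟩ := h0
  let T : MvPolynomial (Fin n × Fin r) K := tailK (fun j => w (0, j)) q
  have hT0 : T ≠ 0 := by
    intro h
    have h1 := aeval_tailK (L := K) (fun j => w (0, j)) (fun v => w (v.1.succ, v.2)) q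
    change aeval _ T = _ at h1
    rw [h, map_zero] at h1
    apply hw
    rw [h1, ← MvPolynomial.coe_aeval_eq_eval, RingHom.coe_coe]
    congr 2
    funext v
    obtain ⟨i, j⟩ := v
    refine Fin.cases ?_ (fun i => ?_) i
    · simp
    · simp
  have hT1 : ¬ ∀ δ : Derivation K L L, CK δ → Full δ →
      aeval (fun v : Fin n × Fin r => jet δ x (v.1, (v.2 : ℕ))) T = 0 := by
    intro hall
    refine hx ⟨rename (fun v : Fin n × Fin r => (v.1, (v.2 : ℕ))) T, ?_, ⟨?_, ?_⟩, ?_⟩
    · intro h
      refine hT0 (rename_injective _ ?_ (by rw [h, map_zero]))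
      intro v v' hvv
      simp only [Prod.mk.injEq] at hvv
      exact Prod.ext hvv.1 (Fin.ext hvv.2)
    · exact (totalDegree_rename_le _ _).trans ((deg_tailK _ _).trans
        (hqd.trans (le_max_left _ _)))
    · intro v hv
      have := vars_rename _ _ hv
      rw [Finset.mem_image] at this
      obtain ⟨v', -, rfl⟩ := this
      exact (v'.2.is_lt.le).trans (le_max_right _ _)
    · intro δ hδ hF
      rw [aeval_rename]
      exact hall δ hδ hF
  push Not at hT1
  obtain ⟨δ, hδ1, hδ2, hδ3⟩ := hT1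
  refine ⟨δ, headL (fun v : Fin n × Fin r => jet δ x (v.1, (v.2 : ℕ))) q, hδ1, ?_,
    (deg_headL _ _).trans hqd, fun z hz => ?_⟩
  · intro h
    let wa : Fin (n + 1) × Fin r → L := fun v => Fin.cases (motive := fun _ => L)
      (algebraMap K L (w (0, v.2))) (fun i => jet δ x (i, (v.2 : ℕ))) v.1
    have h3 := eval_headL wa q
    have h5 : (fun v : Fin n × Fin r => wa (v.1.succ, v.2)) =
      fun v : Fin n × Fin r => jet δ x (v.1, (v.2 : ℕ)) := rfl
    rw [h5, h, map_zero] at h3
    apply hδ3
    change aeval _ (tailK (fun j => w (0, j)) q) = 0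
    rw [aeval_tailK]
    exact h3.symm
  · have h1 := hW _ hz δ hδ1 hδ2
    rw [aeval_rename] at h1
    let wb : Fin (n + 1) × Fin r → L := fun v =>
      jet δ (Fin.cons z x : Fin (n + 1) → L) (v.1, (v.2 : ℕ))
    have h3 := eval_headL wb q
    have h5 : (fun v : Fin n × Fin r => wb (v.1.succ, v.2)) =
      fun v : Fin n × Fin r => jet δ x (v.1, (v.2 : ℕ)) := by
      funext v
      simp [wb, jet]
    have h6 : (fun i : Fin r => wb (0, i)) = fun i : Fin r => δ^[(i : ℕ)] z := by
      funext i
      simp [wb, jet]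
    rw [h5, h6] at h3
    rw [h3]
    exact h1

end gen

end Pool.Agent.FN
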