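import Pool.Agent.FN.IDefs
import Pool.Agent.FN.PowU
import Pool.Agent.FN.Prog
import Pool.Agent.FN.TupU

/-! # Relations computed by straight-line programs: one relation for all derivations -/

namespace Pool.Agent.FN

open MvPolynomial

variable {K L : Type} [Field K] [Field L] [Algebra K L]

theorem URel.mono {D E n N : ℕ} {u : Fin N → MvPolynomial (Fin n × ℕ) K}
    {y : Fin n → L} (h : D ≤ E) (hr : URel D u y) : URel E u y := by
  obtain ⟨Φ, h1, h2, h3⟩ := hr
  exact ⟨Φ, Bdd.mono h h1, h2, h3⟩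

theorem urel_base {D n : ℕ} {y : Fin n → L}
    (h : URel D (fun i : Fin n => (X (i, 0) : MvPolynomial (Fin n × ℕ) K)) y) :
    IRel K D y := by
  obtain ⟨Φ, h1, h2, h3⟩ := h
  have h4 : jet (sh K n) (fun i : Fin n => (X (i, 0) : MvPolynomial (Fin n × ℕ) K)) = X := by
    funext v
    rw [jet, sh_iter_X, zero_add]
  rw [h4, aeval_X_left_apply] at h2 h3
  exact ⟨Φ, h2, h1, h3⟩

theorem urel_poly (D e n N : ℕ) : ∃ D' : ℕ, ∀ {K L : Type} [Field K] [Field L] [Algebra K L]
    [CharZero K] (u : Fin N → MvPolynomial (Fin n × ℕ) K) (y : Fin n → L)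
    (q : MvPolynomial (Fin N) K), q.totalDegree ≤ e →
      URel D (Fin.snoc u (aeval u q) : Fin (N + 1) → MvPolynomial (Fin n × ℕ) K) y →
        URel D' u y := by
  refine ⟨D * (e + D + 1), fun {K L} _ _ _ _ u y q hq h => ?_⟩
  obtain ⟨Φ, h1, h2, h3⟩ := h
  obtain ⟨θ, hθ⟩ : ∃ θ : Fin (N + 1) × ℕ → MvPolynomial (Fin N × ℕ) K, θ = fun v =>
      (Fin.snoc (fun i : Fin N => (X (i, v.2) : MvPolynomial (Fin N × ℕ) K))
        ((sh K N)^[v.2] (up q)) : Fin (N + 1) → MvPolynomial (Fin N × ℕ) K) v.1 := ⟨_, rfl⟩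
  have key : ∀ v, aeval (jet (sh K n) u) (θ v) =
      jet (sh K n) (Fin.snoc u (aeval u q) : Fin (N + 1) → MvPolynomial (Fin n × ℕ) K) v := by
    rintro ⟨i, a⟩
    rw [hθ]
    simp only [jet]
    refine Fin.lastCases ?_ (fun i => ?_) i
    · rw [Fin.snoc_last, Fin.snoc_last, sh_iter_jet, aeval_jet_up]
    · rw [Fin.snoc_castSucc, Fin.snoc_castSucc, aeval_X]
      rfl
  have key2 : aeval (jet (sh K n) u) (aeval θ Φ) = aeval (jet (sh K n)
      (Fin.snoc u (aeval u q) : Fin (N + 1) → MvPolynomial (Fin n × ℕ) K)) Φ := by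
    rw [comp_aeval_apply, funext key]
  refine ⟨aeval θ Φ, Bdd.subst Φ θ h1 fun v hv => ?_, ?_, ?_⟩
  · obtain ⟨i, a⟩ := v
    simp only at hv
    rw [hθ]
    simp only
    refine Fin.lastCases ?_ (fun i => ?_) i
    · rw [Fin.snoc_last]
      exact Bdd.mono (by omega) (Bdd.iter a (bdd_up hq))
    · rw [Fin.snoc_castSucc]
      exact Bdd.X _ (by simp only; omega) (by omega)
  · rw [key2]
    exact h2
  · intro δ hδ hF
    rw [key2]
    exact h3 δ hδ hF

/-- one step of a program -/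
theorem ustep_elim (D n N : ℕ) : ∃ D' : ℕ, ∀ {K L : Type} [Field K] [Field L] [Algebra K L]
    [CharZero K], (∃ δ : Derivation K L L, CK δ ∧ Full δ) → ∀ (y : Fin n → L)
      (P : MvPolynomial (Fin n) K) (l : List (MvPolynomial (Fin n) K)), l.length = N →
        Prog (P :: l) → URel D (vec (P :: l)) y → URel D' (vec l) y := by
  obtain ⟨D1, h1⟩ := urel_poly D 2 n (n + N)
  obtain ⟨D2, h2⟩ := urel_pow D n (n + N)
  refine ⟨max D1 D2, fun {K L} _ _ _ _ hE y P l hl hp h => ?_⟩
  subst hl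
  have hpoly : ∀ q : MvPolynomial (Fin (n + l.length)) K, q.totalDegree ≤ 2 →
      up P = aeval (vec l) q → URel (max D1 D2) (vec l) y := by
    intro q hq he
    refine (h1 (vec l) y q hq ?_).mono (le_max_left _ _)
    rw [← he]
    exact h
  have hX1 : ∀ j : Fin (n + l.length), (X j : MvPolynomial (Fin (n + l.length)) K).totalDegree ≤ 1 :=
    fun j => by rw [totalDegree_X]
  cases hp with
  | var _ i _ =>
    obtain ⟨j, hj⟩ := vec_var l i
    refine hpoly (X j) ((hX1 j).trans (by norm_num)) ?_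
    rw [aeval_X, hj, up, aeval_X]
  | const _ c _ =>
    refine hpoly (C c) (by rw [totalDegree_C]; exact Nat.zero_le _) ?_
    rw [up, aeval_C, aeval_C]
  | add _ A B hA hB _ =>
    obtain ⟨i, hi⟩ := vec_mem l hA
    obtain ⟨j, hj⟩ := vec_mem l hB
    refine hpoly (X i + X j) ((totalDegree_add _ _).trans (max_le ((hX1 i).trans (by norm_num))
      ((hX1 j).trans (by norm_num)))) ?_
    rw [map_add, aeval_X, aeval_X, hi, hj, up, map_add]
    rfl
  | mul _ A B hA hB _ =>
    obtain ⟨i, hi⟩ := vec_mem l hA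
    obtain ⟨j, hj⟩ := vec_mem l hB
    refine hpoly (X i * X j) ((totalDegree_mul _ _).trans (by
      have := hX1 i
      have := hX1 j
      omega)) ?_
    rw [map_mul, aeval_X, aeval_X, hi, hj, up, map_mul]
    rfl
  | pow _ A m hA _ =>
    obtain ⟨i, hi⟩ := vec_mem l hA
    by_cases h0 : vec l i = 0
    · refine hpoly (C (0 ^ m)) (by rw [totalDegree_C]; exact Nat.zero_le _) ?_
      rw [up_pow, ← hi, h0, aeval_C, map_pow, map_zero]
    · refine (h2 hE (vec l) y i m h0 ?_).mono (le_max_right _ _)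
      rw [hi, ← up_pow]
      exact h

theorem uprog_elim (n m : ℕ) : ∀ D : ℕ, ∃ D' : ℕ, ∀ {K L : Type} [Field K] [Field L]
    [Algebra K L] [CharZero K], (∃ δ : Derivation K L L, CK δ ∧ Full δ) → ∀ (y : Fin n → L)
      (l : List (MvPolynomial (Fin n) K)), l.length = m → Prog l → URel D (vec l) y →
        IRel K D' y := by
  induction m with
  | zero =>
    intro D
    refine ⟨D, fun {K L} _ _ _ _ hE y l hl hp h => ?_⟩
    obtain rfl := List.length_eq_zero_iff.1 hl
    exact urel_base h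
  | succ m ih =>
    intro D
    obtain ⟨D1, h1⟩ := ustep_elim D n m
    obtain ⟨D2, h2⟩ := ih D1
    refine ⟨D2, fun {K L} _ _ _ _ hE y l hl hp h => ?_⟩
    cases l with
    | nil => simp at hl
    | cons P l =>
      have hl' : l.length = m := by simpa using hl
      refine h2 hE y l hl' ?_ (h1 hE y P l hl' hp h)
      cases hp <;> assumption

/-- **uniform relations from programs** -/
theorem progU (n s : ℕ) : ∃ D : ℕ, ∀ {K L : Type} [Field K] [Field L] [Algebra K L] [CharZero K],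
    (∃ δ : Derivation K L L, CK δ ∧ Full δ) → ∀ (y : Fin n → L) (l : List (MvPolynomial (Fin n) K)),
      Prog l → l.length ≤ s → ∀ P ∈ l, P ≠ 0 → aeval y P = 0 → IRel K D y := by
  choose D hD using fun m => uprog_elim n m 1
  refine ⟨∑ m ∈ Finset.range (s + 1), D m, fun {K L} _ _ _ _ hE y l hp hl P hP hP0 hy => ?_⟩
  obtain ⟨j, hj⟩ := vec_mem l hP
  have h1 : URel 1 (vec l) y := by
    refine ⟨X (j, 0), Bdd.X _ (Nat.zero_le _) le_rfl, ?_, ?_⟩
    · rw [aeval_X]
      change vec l j ≠ 0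
      rw [hj]
      exact fun h => hP0 (up_injective h)
    · intro δ _ _
      rw [aeval_X]
      change aeval (jet δ y) (vec l j) = 0
      rw [hj, aeval_jet_up, hy]
  refine (hD l.length hE y l rfl hp h1).mono ?_
  exact Finset.single_le_sum (f := D) (fun _ _ => Nat.zero_le _)
    (Finset.mem_range.2 (Nat.lt_succ_of_le hl))

end Pool.Agent.FN
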