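import Mathlib
import Pool.Agent.FN.IDefs
import Pool.Agent.FN.Psi

set_option autoImplicit false

/-!
# The Wronskian of the jet monomials, for all derivations
-/

namespace Pool.Agent.FN

open MvPolynomial PsiA

namespace PsiA

variable {K L : Type} [Field K] [Field L] [Algebra K L] {n : ℕ}

theorem wro_ne (D : ℕ) (δ : Derivation K L L) (hδ : CK δ) (hF : Full δ) : wro K n D ≠ 0 := by
  intro h0
  obtain ⟨z, hz⟩ := hF n
  have h1 : LinearIndependent K fun j : Fin (Fintype.card (Ix n D)) =>
      aeval (jet δ z) (mo K ((Fintype.equivFin (Ix n D)).symm j)) := by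
    have h2 : LinearIndependent K fun α : Ix n D => aeval (jet δ z) (mo K α) := by
      have h3 := (mo_indep (K := K) (n := n) (D := D)).map' (aeval (jet δ z)).toLinearMap
        (LinearMap.ker_eq_bot.2 hz)
      exact h3
    exact h2.comp _ (Fintype.equivFin (Ix n D)).symm.injective
  refine wr_ne_zero δ hδ _ h1 ?_
  rw [← aeval_wro, h0, map_zero]

theorem wro_deg (D : ℕ) :
    (wro K n D).totalDegree ≤ Fintype.card (Ix n D) * (n * (D + 1) * D) := by
  unfold wro
  rw [Matrix.det_apply]
  refine totalDegree_finsetSum_le fun σ _ => ?_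
  refine (totalDegree_smul_le _ _).trans ?_
  refine (totalDegree_finsetProd _ _).trans ?_
  calc ∑ j : Fin (Fintype.card (Ix n D)), (Matrix.of (fun i j : Fin (Fintype.card (Ix n D)) =>
        (dd K n)^[(i : ℕ)] (mo K ((Fintype.equivFin (Ix n D)).symm j))) (σ j) j).totalDegree
      ≤ ∑ _j : Fin (Fintype.card (Ix n D)), n * (D + 1) * D :=
        Finset.sum_le_sum fun j _ => (deg_dd_iter _ _).trans (mo_deg _)
    _ = Fintype.card (Ix n D) * (n * (D + 1) * D) := by simp

theorem wro_vars (D : ℕ) : ∀ v ∈ (wro K n D).vars, v.2 < D + Fintype.card (Ix n D) + 1 := by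
  have h1 : wro K n D ∈ Or K n (D + Fintype.card (Ix n D)) := by
    unfold wro
    rw [Matrix.det_apply]
    refine sum_mem fun σ _ => ?_
    refine zsmul_mem (prod_mem fun j _ => ?_) _
    exact Or_mono (Nat.add_le_add_left (Fin.is_lt _).le _) (dd_iter_mem (mo_mem _) _)
  intro v hv
  have h2 := (mem_supported.1 h1) (Finset.mem_coe.2 hv)
  exact Nat.lt_succ_of_le h2

theorem wro_zero {D : ℕ} (δ : Derivation K L L) (y : Fin n → L) (h : DRel δ D y) :
    aeval (jet δ y) (wro K n D) = 0 := by
  classical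
  obtain ⟨G, hG0, hG1, hG2, hG3⟩ := h
  rw [aeval_wro]
  rw [expand G hG1 hG2, map_sum] at hG3
  have hne : ∃ α : Ix n D, G.coeff (ex α) ≠ 0 := by
    by_contra hall
    push Not at hall
    refine hG0 ?_
    rw [expand G hG1 hG2]
    exact Finset.sum_eq_zero fun α _ => by rw [hall, zero_smul]
  rw [← Matrix.exists_mulVec_eq_zero_iff]
  refine ⟨fun j => algebraMap K L (G.coeff (ex ((Fintype.equivFin (Ix n D)).symm j))), ?_, ?_⟩
  · obtain ⟨α, hα⟩ := hne
    intro h0
    have h1 := congrFun h0 (Fintype.equivFin (Ix n D) α)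
    simp only [Equiv.symm_apply_apply, Pi.zero_apply] at h1
    exact hα ((map_eq_zero _).1 h1)
  · funext i
    simp only [Matrix.mulVec, dotProduct, Matrix.of_apply, Pi.zero_apply]
    have h1 : ∀ (i : ℕ) (c : K) (a : L), δ^[i] (c • a) = c • δ^[i] a := by
      intro i c a
      induction i with
      | zero => rfl
      | succ i ih =>
        rw [Function.iterate_succ_apply', ih, Derivation.map_smul, Function.iterate_succ_apply']
    have h2 : ∀ (i : ℕ) (f : Ix n D → L), δ^[i] (∑ α, f α) = ∑ α, δ^[i] (f α) := by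
      intro i f
      induction i with
      | zero => rfl
      | succ i ih =>
        rw [Function.iterate_succ_apply', ih, map_sum]
        exact Finset.sum_congr rfl fun α _ => (Function.iterate_succ_apply' _ _ _).symm
    have h3 := congrArg (δ^[(i : ℕ)]) hG3
    rw [h2] at h3
    have h4 : δ^[(i : ℕ)] (0 : L) = 0 := by
      have := h1 (i : ℕ) 0 0
      rwa [zero_smul, zero_smul] at this
    rw [h4] at h3
    rw [← h3, ← (Fintype.equivFin (Ix n D)).symm.sum_comp]
    refine Finset.sum_congr rfl fun j _ => ?_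
    rw [map_smul, h1, Algebra.smul_def, mul_comm]

end PsiA

theorem IRel.dRel {K L : Type} [Field K] [Field L] [Algebra K L] {D n : ℕ} {y : Fin n → L}
    (h : IRel K D y) (δ : Derivation K L L) (h1 : CK δ) (h2 : Full δ) : DRel δ D y := by
  obtain ⟨G, hG0, hG1, hG2⟩ := h
  exact ⟨G, hG0, hG1.1, hG1.2, hG2 δ h1 h2⟩

/-- The Wronskian of all the jet monomials of degree and order at most `D`: the same polynomial for
all derivations. -/
theorem psiU (n D : ℕ) : ∃ E r : ℕ, ∀ {K L : Type} [Field K] [Field L] [Algebra K L] [CharZero K],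
    (∃ δ : Derivation K L L, CK δ ∧ Full δ) → ∃ W : MvPolynomial (Fin n × ℕ) K, W ≠ 0 ∧
      W.totalDegree ≤ E ∧ (∀ v ∈ W.vars, v.2 < r) ∧
        ∀ y : Fin n → L, IRel K D y → ∀ δ : Derivation K L L, CK δ → Full δ →
          aeval (jet δ y) W = 0 := by
  refine ⟨Fintype.card (Ix n D) * (n * (D + 1) * D), D + Fintype.card (Ix n D) + 1, ?_⟩
  intro K L _ _ _ _ hex
  obtain ⟨δ₀, h1, h2⟩ := hex
  exact ⟨wro K n D, wro_ne D δ₀ h1 h2, wro_deg D, wro_vars D,
    fun y hy δ h3 h4 => wro_zero δ y (hy.dRel δ h3 h4)⟩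

end Pool.Agent.FN
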