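import Pool.Agent.FN.Prog

/-! # A polynomial with `s` terms is computed by a short program -/

namespace Pool.Agent.FN

open MvPolynomial

variable {K : Type} [Field K] {n : ℕ}

theorem prog_of_prod (m : Fin n → ℕ) (c : K) {l : List (MvPolynomial (Fin n) K)} (hl : Prog l)
    (T : Finset (Fin n)) :
    ∃ l' : List (MvPolynomial (Fin n) K), Prog l' ∧ (∀ Q ∈ l, Q ∈ l') ∧
      C c * ∏ i ∈ T, X i ^ m i ∈ l' ∧ l'.length ≤ l.length + (3 * T.card + 1) := by
  classical
  induction T using Finset.induction_on with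
  | empty => exact ⟨C c :: l, Prog.const l c hl, by simp +contextual, by simp, by simp⟩
  | insert i T hi ih =>
    obtain ⟨l', h1, h2, h3, h4⟩ := ih
    refine ⟨(C c * ∏ i ∈ T, X i ^ m i) * X i ^ m i :: X i ^ m i :: X i :: l',
      Prog.mul _ _ _ (by simp [h3]) (by simp) (Prog.pow _ _ _ (by simp) (Prog.var _ i h1)),
      fun Q hQ => by simp [h2 Q hQ], ?_, ?_⟩
    · rw [Finset.prod_insert hi]
      simp only [List.mem_cons]
      exact Or.inl (by ring)
    · rw [Finset.card_insert_of_notMem hi]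
      simp only [List.length_cons]
      omega

theorem prog_of_monomial (m : Fin n →₀ ℕ) (c : K) {l : List (MvPolynomial (Fin n) K)}
    (hl : Prog l) :
    ∃ l' : List (MvPolynomial (Fin n) K), Prog l' ∧ (∀ Q ∈ l, Q ∈ l') ∧
      monomial m c ∈ l' ∧ l'.length ≤ l.length + (3 * n + 1) := by
  obtain ⟨l', h1, h2, h3, h4⟩ := prog_of_prod (⇑m) c hl Finset.univ
  refine ⟨l', h1, h2, ?_, by simpa using h4⟩
  rwa [monomial_eq, Finsupp.prod_fintype _ _ (fun i => pow_zero _)]

/-- a polynomial with at most `s` terms is computed by at most `s (3 n + 2) + 1` steps -/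
theorem prog_of_terms (P : MvPolynomial (Fin n) K) {s : ℕ} (hs : P.support.card ≤ s) :
    ∃ l : List (MvPolynomial (Fin n) K), Prog l ∧ P ∈ l ∧ l.length ≤ s * (3 * n + 2) + 1 := by
  classical
  have key : ∀ T : Finset (Fin n →₀ ℕ), ∃ l : List (MvPolynomial (Fin n) K), Prog l ∧
      (∑ m ∈ T, monomial m (coeff m P)) ∈ l ∧ l.length ≤ T.card * (3 * n + 2) + 1 := by
    intro T
    induction T using Finset.induction_on with
    | empty => exact ⟨[C 0], Prog.const [] 0 Prog.nil, by simp, by simp⟩
    | insert m T hm ih =>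
      obtain ⟨l, h1, h2, h3⟩ := ih
      obtain ⟨l', h4, h5, h6, h7⟩ := prog_of_monomial m (coeff m P) h1
      refine ⟨(monomial m (coeff m P) + ∑ m ∈ T, monomial m (coeff m P)) :: l',
        Prog.add _ _ _ h6 (h5 _ h2) h4, ?_, ?_⟩
      · rw [Finset.sum_insert hm]
        exact List.mem_cons_self
      · rw [Finset.card_insert_of_notMem hm]
        simp only [List.length_cons]
        calc l'.length + 1 ≤ (T.card * (3 * n + 2) + 1) + (3 * n + 1) + 1 := by omega
          _ = (T.card + 1) * (3 * n + 2) + 1 := by ring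
  obtain ⟨l, h1, h2, h3⟩ := key P.support
  rw [support_sum_monomial_coeff] at h2
  exact ⟨l, h1, h2, h3.trans (by gcongr)⟩

end Pool.Agent.FN
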