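import Pool.Agent.FN.Terms
import Pool.Agent.FN.ProgC

/-! # A polynomial with `s` terms is computed by a short program, over the complex numbers -/

namespace Pool.Agent.FN

open MvPolynomial

theorem Prog.toC {n : ℕ} {l : List (MvPolynomial (Fin n) KA)} (h : Prog l) :
    Program (l.map (map (algebraMap KA ℂ))) := by
  induction h with
  | nil => exact Program.nil
  | var l i _ ih =>
    rw [List.map_cons, map_X]
    exact Program.var _ i ih
  | const l c _ ih =>
    rw [List.map_cons, map_C]
    exact Program.const _ _ (mem_algebraicClosure_iff.1 c.2) ih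
  | add l P Q hP hQ _ ih =>
    rw [List.map_cons, map_add]
    exact Program.add _ _ _ (List.mem_map_of_mem hP) (List.mem_map_of_mem hQ) ih
  | mul l P Q hP hQ _ ih =>
    rw [List.map_cons, map_mul]
    exact Program.mul _ _ _ (List.mem_map_of_mem hP) (List.mem_map_of_mem hQ) ih
  | pow l P m hP _ ih =>
    rw [List.map_cons, map_pow]
    exact Program.pow _ _ m (List.mem_map_of_mem hP) ih

theorem program_of_terms {n s : ℕ} (P : MvPolynomial (Fin n) ℂ)
    (hP : ∀ e, IsAlgebraic ℚ (P.coeff e)) (hs : P.support.card ≤ s) :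
    ∃ p, Program p ∧ P ∈ p ∧ p.length ≤ s * (3 * n + 2) + 1 := by
  classical
  obtain ⟨P', rfl⟩ : ∃ P' : MvPolynomial (Fin n) KA, map (algebraMap KA ℂ) P' = P := by
    refine ⟨∑ m ∈ P.support, monomial m (⟨P.coeff m, mem_algebraicClosure_iff.2 (hP m)⟩ : KA), ?_⟩
    rw [map_sum]
    conv_rhs => rw [P.as_sum]
    refine Finset.sum_congr rfl fun m _ => ?_
    rw [map_monomial]
    rfl
  rw [support_map_of_injective P' (algebraMap KA ℂ).injective] at hs
  obtain ⟨l, h1, h2, h3⟩ := prog_of_terms P' hs
  refine ⟨_, h1.toC, List.mem_map_of_mem h2, ?_⟩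
  rwa [List.length_map]

end Pool.Agent.FN
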